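import Mathlib

set_option autoImplicit false

open Finset

namespace Pool.Agent.H33.Loose

variable {n : ℕ}

/-- No loose triangle. -/
def NoLT (H : Finset (Finset (Fin n))) : Prop :=
  ∀ a b c d e f : Fin n, [a, b, c, d, e, f].Nodup → ({a, b, c} : Finset (Fin n)) ∈ H →
    ({c, d, e} : Finset (Fin n)) ∈ H → ({e, f, a} : Finset (Fin n)) ∈ H → False

/-- Uniformity. -/
def Unif (H : Finset (Finset (Fin n))) : Prop := ∀ e ∈ H, e.card = 3

/-- Codegree. -/
def cod (H : Finset (Finset (Fin n))) (x y : Fin n) : ℕ :=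
  (univ.filter (fun z => ({x, y, z} : Finset (Fin n)) ∈ H)).card

lemma cod_comm (H : Finset (Finset (Fin n))) (x y : Fin n) : cod H x y = cod H y x := by
  unfold cod
  congr 1
  refine Finset.filter_congr fun z _ => ?_
  rw [Finset.insert_comm]

lemma Unif.ne {H : Finset (Finset (Fin n))} (hH : Unif H) {x y z : Fin n}
    (h : ({x, y, z} : Finset (Fin n)) ∈ H) : x ≠ y ∧ y ≠ z ∧ x ≠ z := by
  have h3 := hH _ h
  refine ⟨?_, ?_, ?_⟩
  · rintro rfl
    have : ({x, x, z} : Finset (Fin n)).card ≤ 2 := by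
      rw [Finset.insert_eq_of_mem (Finset.mem_insert_self _ _)]; exact Finset.card_le_two
    omega
  · rintro rfl
    have : ({x, y, y} : Finset (Fin n)).card ≤ 2 := by
      rw [Finset.pair_eq_singleton]; exact Finset.card_le_two
    omega
  · rintro rfl
    have : ({x, y, x} : Finset (Fin n)).card ≤ 2 := by
      rw [Finset.insert_eq_of_mem (by simp)]; exact Finset.card_le_two
    omega

lemma perm1 {x y z : Fin n} : ({x, y, z} : Finset (Fin n)) = {x, z, y} := by
  rw [Finset.pair_comm]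

lemma perm2 {x y z : Fin n} : ({x, y, z} : Finset (Fin n)) = {y, x, z} :=
  Finset.insert_comm _ _ _

lemma perm3 {x y z : Fin n} : ({x, y, z} : Finset (Fin n)) = {y, z, x} := by
  rw [perm2, perm1]

lemma perm4 {x y z : Fin n} : ({x, y, z} : Finset (Fin n)) = {z, x, y} := by
  rw [perm1, perm2]

/-- Symmetric form of the loose triangle. -/
lemma NoLT.tri {H : Finset (Finset (Fin n))} (hL : NoLT H) (hH : Unif H) {x y z p r s : Fin n}
    (hp : ({x, y, p} : Finset (Fin n)) ∈ H) (hr : ({y, z, r} : Finset (Fin n)) ∈ H)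
    (hs : ({x, z, s} : Finset (Fin n)) ∈ H) (hpz : p ≠ z) (hrx : r ≠ x) (hsy : s ≠ y)
    (hpr : p ≠ r) (hps : p ≠ s) (hrs : r ≠ s) : False := by
  obtain ⟨h1, h2, h3⟩ := hH.ne hp
  obtain ⟨h4, h5, h6⟩ := hH.ne hr
  obtain ⟨h7, h8, h9⟩ := hH.ne hs
  refine hL x p y r z s ?_ ?_ ?_ ?_
  · simp only [List.nodup_cons, List.mem_cons, List.not_mem_nil, or_false, not_or,
      not_false_eq_true, List.nodup_nil, and_true]
    exact ⟨⟨h3, h1, hrx.symm, h7, h9⟩, ⟨h2.symm, hpr, hpz, hps⟩, ⟨h6, h4, hsy.symm⟩,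
      ⟨h5.symm, hrs⟩, h8⟩
  · rwa [perm1]
  · rwa [perm1]
  · rwa [perm3] at hs

/-- Witness selection. -/
lemma exists_wit {H : Finset (Finset (Fin n))} {x y : Fin n} (X : Finset (Fin n))
    (hX : X.card < cod H x y) : ∃ w, w ∉ X ∧ ({x, y, w} : Finset (Fin n)) ∈ H := by
  unfold cod at hX
  obtain ⟨w, hw, hwX⟩ := Finset.exists_mem_notMem_of_card_lt_card hX
  exact ⟨w, hwX, (Finset.mem_filter.1 hw).2⟩

lemma cod_eq (H : Finset (Finset (Fin n))) (x y : Fin n) :
    cod H x y = (univ.filter (fun z => ({x, y, z} : Finset (Fin n)) ∈ H)).card := rfl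

/-- Fact (F1). -/
lemma NoLT.f1 {H : Finset (Finset (Fin n))} (hL : NoLT H) (hH : Unif H) {v x y z : Fin n}
    (hvx : 4 ≤ cod H v x) (hvy : 4 ≤ cod H v y) (hxyz : ({x, y, z} : Finset (Fin n)) ∈ H)
    (hzv : z ≠ v) : False := by
  obtain ⟨w1, hw1, h1⟩ := exists_wit (H := H) (x := v) (y := x) {y, z}
    (lt_of_le_of_lt Finset.card_le_two (by omega))
  obtain ⟨w2, hw2, h2⟩ := exists_wit (H := H) (x := v) (y := y) {x, z, w1}
    (lt_of_le_of_lt Finset.card_le_three (by omega))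
  simp only [Finset.mem_insert, Finset.mem_singleton, not_or] at hw1 hw2
  -- core `x, y, v`
  refine hL.tri hH (x := x) (y := y) (z := v) (p := z) (r := w2) (s := w1) hxyz ?_ ?_ hzv hw2.1
    hw1.1 (Ne.symm hw2.2.1) (Ne.symm hw1.2) hw2.2.2
  · rwa [perm2] at h2
  · rwa [perm2] at h1

/-- The ordered fat pairs completed by `z`. -/
def Ez (H : Finset (Finset (Fin n))) (z : Fin n) : Finset (Fin n × Fin n) :=
  univ.filter (fun p => 4 ≤ cod H p.1 p.2 ∧ ({p.1, p.2, z} : Finset (Fin n)) ∈ H)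

lemma mem_Ez {H : Finset (Finset (Fin n))} {z x y : Fin n} :
    (x, y) ∈ Ez H z ↔ 4 ≤ cod H x y ∧ ({x, y, z} : Finset (Fin n)) ∈ H := by
  simp [Ez]

lemma Ez_symm {H : Finset (Finset (Fin n))} {z x y : Fin n} (h : (x, y) ∈ Ez H z) :
    (y, x) ∈ Ez H z := by
  rw [mem_Ez] at h ⊢
  rw [cod_comm, perm2]
  exact h

/-- Each edge of the fat link graph has an endpoint of degree one. -/
lemma NoLT.f2a {H : Finset (Finset (Fin n))} (hL : NoLT H) (hH : Unif H) {z x y x' y' : Fin n}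
    (hxy : (x, y) ∈ Ez H z) (hx : (x', x) ∈ Ez H z) (hy : (y, y') ∈ Ez H z) (hx' : x' ≠ y)
    (hy' : y' ≠ x) : False := by
  rw [mem_Ez] at hxy hx hy
  obtain ⟨h1, h2, h3⟩ := hH.ne hxy.2
  obtain ⟨h4, h5, h6⟩ := hH.ne hx.2
  obtain ⟨h7, h8, h9⟩ := hH.ne hy.2
  by_cases hxy' : x' = y'
  · -- fat triangle `x y x'`
    subst hxy'
    obtain ⟨w1, hw1, g1⟩ := exists_wit (H := H) (x := x) (y := y) {x'}
      (lt_of_le_of_lt (Finset.card_singleton _).le (by omega))
    obtain ⟨w2, hw2, g2⟩ := exists_wit (H := H) (x := y) (y := x') {x, w1}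
      (lt_of_le_of_lt Finset.card_le_two (by omega))
    obtain ⟨w3, hw3, g3⟩ := exists_wit (H := H) (x := x') (y := x) {y, w1, w2}
      (lt_of_le_of_lt Finset.card_le_three (by omega))
    simp only [Finset.mem_insert, Finset.mem_singleton, not_or] at hw1 hw2 hw3
    refine hL.tri hH (x := x) (y := y) (z := x') (p := w1) (r := w2) (s := w3) g1 g2 ?_ hw1
      hw2.1 hw3.1 (Ne.symm hw2.2) (Ne.symm hw3.2.1) (Ne.symm hw3.2.2)
    rwa [perm2] at g3
  · -- path
    obtain ⟨w, hw, g⟩ := exists_wit (H := H) (x := x) (y := y) {z, x', y'}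
      (lt_of_le_of_lt Finset.card_le_three (by omega))
    simp only [Finset.mem_insert, Finset.mem_singleton, not_or] at hw
    -- core `x, y, z` : `{x,y,w}`, `{y,z,y'}`, `{x,z,x'}`
    refine hL.tri hH (x := x) (y := y) (z := z) (p := w) (r := y') (s := x') g ?_ ?_ hw.1
      hy' hx' hw.2.2 hw.2.1 (Ne.symm hxy')
    · have := hy.2
      rwa [perm1] at this
    · have := hx.2
      rwa [perm3] at this

open scoped Classical in
/-- The leaf set. -/
noncomputable def leaf (H : Finset (Finset (Fin n))) (z : Fin n) : Finset (Fin n) :=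
  univ.filter (fun x => ∃ y, (x, y) ∈ Ez H z ∧ (∀ y', (x, y') ∈ Ez H z → y' = y) ∧
    ((∃ x', x' ≠ x ∧ (x', y) ∈ Ez H z) ∨ x < y))

lemma mem_leaf {H : Finset (Finset (Fin n))} {z x : Fin n} : x ∈ leaf H z ↔
    ∃ y, (x, y) ∈ Ez H z ∧ (∀ y', (x, y') ∈ Ez H z → y' = y) ∧
    ((∃ x', x' ≠ x ∧ (x', y) ∈ Ez H z) ∨ x < y) := by
  classical
  simp [leaf]

/-- The leaf set is independent. -/
lemma NoLT.leaf_indep {H : Finset (Finset (Fin n))} (hL : NoLT H) (hH : Unif H) (z : Fin n) :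
    ∀ e ∈ H, ¬ e ⊆ leaf H z := by
  intro e he hsub
  obtain ⟨x1, x2, x3, h12, h13, h23, rfl⟩ := Finset.card_eq_three.1 (hH e he)
  have m1 : x1 ∈ leaf H z := hsub (by simp)
  have m2 : x2 ∈ leaf H z := hsub (by simp)
  have m3 : x3 ∈ leaf H z := hsub (by simp)
  obtain ⟨y1, e1, u1, o1⟩ := mem_leaf.1 m1
  obtain ⟨y2, e2, u2, o2⟩ := mem_leaf.1 m2
  obtain ⟨y3, e3, u3, o3⟩ := mem_leaf.1 m3
  -- partners are not in the leaf set
  have key : ∀ x y, (x, y) ∈ Ez H z → (∀ y', (x, y') ∈ Ez H z → y' = y) →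
      ((∃ x', x' ≠ x ∧ (x', y) ∈ Ez H z) ∨ x < y) → y ∉ leaf H z := by
    intro x y hxy hu ho hy
    obtain ⟨w, ew, uw, ow⟩ := mem_leaf.1 hy
    have hwx : x = w := uw x (Ez_symm hxy)
    subst hwx
    rcases ow with ⟨x', hx', hx'2⟩ | hlt
    · exact hx' (hu x' (Ez_symm hx'2))
    · rcases ho with ⟨x', hx', hx'2⟩ | hlt'
      · exact hx' (uw x' (Ez_symm hx'2))
      · exact absurd hlt (not_lt.2 hlt'.le)
  have k1 := key x1 y1 e1 u1 o1
  have k2 := key x2 y2 e2 u2 o2
  have n12 : y1 ≠ x2 := fun h => k1 (h ▸ m2)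
  have n13 : y1 ≠ x3 := fun h => k1 (h ▸ m3)
  have n21 : y2 ≠ x1 := fun h => k2 (h ▸ m1)
  have n23 : y2 ≠ x3 := fun h => k2 (h ▸ m3)
  have f1 := mem_Ez.1 e1
  have f2 := mem_Ez.1 e2
  have f3 := mem_Ez.1 e3
  obtain ⟨_, _, hx3z⟩ := hH.ne f3.2
  by_cases hy : y1 = y2
  · subst hy
    refine hL.f1 hH (v := y1) (x := x1) (y := x2) (z := x3) ?_ ?_ he n13.symm
    · rw [cod_comm]; exact f1.1
    · rw [cod_comm]; exact f2.1
  · refine hL.tri hH (x := x1) (y := x2) (z := z) (p := x3) (r := y2) (s := y1) he ?_ ?_ hx3z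
      n21 n12 n23.symm n13.symm (Ne.symm hy)
    · have := f2.2
      rwa [perm1] at this
    · have := f1.2
      rwa [perm1] at this

/-- Fact (F2). -/
lemma NoLT.f2 {H : Finset (Finset (Fin n))} (hL : NoLT H) (hH : Unif H) (z : Fin n) :
    (Ez H z).card ≤ 2 * (leaf H z).card := by
  classical
  set D : Finset (Fin n × Fin n) := (Ez H z).filter (fun p => p.1 ∈ leaf H z ∧
    ∀ y', (p.1, y') ∈ Ez H z → y' = p.2) with hD
  have hDcard : D.card ≤ (leaf H z).card := by
    refine Finset.card_le_card_of_injOn (fun p => p.1) ?_ ?_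
    · intro p hp
      exact (Finset.mem_filter.1 hp).2.1
    · rintro ⟨x, y⟩ hp ⟨x', y'⟩ hp' hxx
      dsimp only at hxx
      subst hxx
      have h1 := (Finset.mem_filter.1 hp).2.2
      have h2 := (Finset.mem_filter.1 hp').1
      have := h1 y' h2
      rw [this]
  have hcover : Ez H z ⊆ D ∪ D.image Prod.swap := by
    rintro ⟨x, y⟩ hxy
    have hne : x ≠ y := (hH.ne (mem_Ez.1 hxy).2).1
    by_cases hux : ∀ y', (x, y') ∈ Ez H z → y' = y
    · by_cases huy : ∀ x', (y, x') ∈ Ez H z → x' = x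
      · rcases lt_or_gt_of_ne hne with hlt | hlt
        · refine Finset.mem_union_left _ (Finset.mem_filter.2 ⟨hxy, ?_, hux⟩)
          exact mem_leaf.2 ⟨y, hxy, hux, Or.inr hlt⟩
        · refine Finset.mem_union_right _ (Finset.mem_image.2 ⟨(y, x), ?_, rfl⟩)
          refine Finset.mem_filter.2 ⟨Ez_symm hxy, ?_, huy⟩
          exact mem_leaf.2 ⟨x, Ez_symm hxy, huy, Or.inr hlt⟩
      · push Not at huy
        obtain ⟨x', hx', hne'⟩ := huy
        refine Finset.mem_union_left _ (Finset.mem_filter.2 ⟨hxy, ?_, hux⟩)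
        exact mem_leaf.2 ⟨y, hxy, hux, Or.inl ⟨x', hne', Ez_symm hx'⟩⟩
    · push Not at hux
      obtain ⟨y', hy', hne'⟩ := hux
      have huy : ∀ x', (y, x') ∈ Ez H z → x' = x := by
        intro x' hx'
        by_contra hcon
        exact hL.f2a hH hxy (Ez_symm hy') hx' hne' hcon
      refine Finset.mem_union_right _ (Finset.mem_image.2 ⟨(y, x), ?_, rfl⟩)
      refine Finset.mem_filter.2 ⟨Ez_symm hxy, ?_, huy⟩
      exact mem_leaf.2 ⟨x, Ez_symm hxy, huy, Or.inl ⟨y', hne', Ez_symm hy'⟩⟩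
  calc (Ez H z).card ≤ (D ∪ D.image Prod.swap).card := Finset.card_le_card hcover
    _ ≤ D.card + (D.image Prod.swap).card := Finset.card_union_le _ _
    _ ≤ D.card + D.card := Nat.add_le_add_left Finset.card_image_le _
    _ ≤ 2 * (leaf H z).card := by omega

/-- Fact (F3): sum of the codegrees of the fat (ordered) pairs. -/
lemma NoLT.f3 {H : Finset (Finset (Fin n))} (hL : NoLT H) (hH : Unif H) (t : ℕ)
    (hα : ∀ S : Finset (Fin n), (∀ e ∈ H, ¬ e ⊆ S) → S.card ≤ t) :
    ∑ p : Fin n × Fin n with 4 ≤ cod H p.1 p.2, cod H p.1 p.2 ≤ 2 * n * t := by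
  have h1 : ∑ p : Fin n × Fin n with 4 ≤ cod H p.1 p.2, cod H p.1 p.2
      = ∑ z : Fin n, (Ez H z).card := by
    rw [Finset.sum_filter]
    have h2 : ∀ p : Fin n × Fin n, (if 4 ≤ cod H p.1 p.2 then cod H p.1 p.2 else 0)
        = ∑ z : Fin n, (if 4 ≤ cod H p.1 p.2 ∧ ({p.1, p.2, z} : Finset (Fin n)) ∈ H
          then 1 else 0) := by
      intro p
      by_cases h : 4 ≤ cod H p.1 p.2
      · rw [if_pos h]
        nth_rewrite 1 [cod_eq]
        rw [Finset.card_filter]
        exact Finset.sum_congr rfl fun z _ => by simp [h]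
      · simp [h]
    rw [Finset.sum_congr rfl fun p _ => h2 p, Finset.sum_comm]
    refine Finset.sum_congr rfl fun z _ => ?_
    unfold Ez
    rw [Finset.card_filter]
  rw [h1]
  calc ∑ z : Fin n, (Ez H z).card ≤ ∑ z : Fin n, 2 * t := by
        refine Finset.sum_le_sum fun z _ => ?_
        exact (hL.f2 hH z).trans (Nat.mul_le_mul_left 2 (hα _ (hL.leaf_indep hH z)))
    _ = 2 * n * t := by
        rw [Finset.sum_const, Finset.card_univ, Fintype.card_fin, smul_eq_mul]; ring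

/-- The relation used for (F4). -/
def Rel (H : Finset (Finset (Fin n))) (v x y : Fin n) : Prop :=
  ({x, y, v} : Finset (Fin n)) ∈ H ∧ cod H x v < 4 ∧ cod H y v < 4

lemma Rel.symm {H : Finset (Finset (Fin n))} {v x y : Fin n} (h : Rel H v x y) :
    Rel H v y x := by
  refine ⟨?_, h.2.2, h.2.1⟩
  rw [perm2]; exact h.1

open scoped Classical in
/-- The set of ordered pairs for (F4). -/
noncomputable def Mv (H : Finset (Finset (Fin n))) (v : Fin n) : Finset (Fin n × Fin n) :=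
  univ.filter (fun p => Rel H v p.1 p.2)

lemma mem_Mv {H : Finset (Finset (Fin n))} {v x y : Fin n} : (x, y) ∈ Mv H v ↔ Rel H v x y := by
  classical
  simp [Mv]

/-- Fact (F4), for one vertex. -/
lemma NoLT.f4a {H : Finset (Finset (Fin n))} (hL : NoLT H) (hH : Unif H) (t : ℕ)
    (hα : ∀ S : Finset (Fin n), (∀ e ∈ H, ¬ e ⊆ S) → S.card ≤ t) (v : Fin n) :
    (Mv H v).card ≤ 12 * t := by
  classical
  -- matchings
  set 𝒮 : Finset (Finset (Fin n × Fin n)) := (Mv H v).powerset.filter (fun D =>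
    ∀ p ∈ D, ∀ p' ∈ D, p ≠ p' → p.1 ≠ p'.1 ∧ p.1 ≠ p'.2 ∧ p.2 ≠ p'.1 ∧ p.2 ≠ p'.2) with h𝒮
  have hne : 𝒮.Nonempty := ⟨∅, by simp [h𝒮]⟩
  obtain ⟨D, hD, hmax⟩ := Finset.exists_max_image 𝒮 Finset.card hne
  have hD1 := (Finset.mem_filter.1 hD).1
  rw [Finset.mem_powerset] at hD1
  have hD2 := (Finset.mem_filter.1 hD).2
  -- the cover
  set W : Finset (Fin n) := D.image Prod.fst ∪ D.image Prod.snd with hW
  have hcov : ∀ x y, Rel H v x y → x ∈ W ∨ y ∈ W := by
    intro x y hxy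
    by_contra hcon
    push Not at hcon
    obtain ⟨hx, hy⟩ := hcon
    have hx1 : ∀ p ∈ D, p.1 ≠ x ∧ p.2 ≠ x := by
      intro p hp
      constructor
      · rintro rfl
        exact hx (Finset.mem_union_left _ (Finset.mem_image_of_mem _ hp))
      · rintro rfl
        exact hx (Finset.mem_union_right _ (Finset.mem_image_of_mem _ hp))
    have hy1 : ∀ p ∈ D, p.1 ≠ y ∧ p.2 ≠ y := by
      intro p hp
      constructor
      · rintro rfl
        exact hy (Finset.mem_union_left _ (Finset.mem_image_of_mem _ hp))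
      · rintro rfl
        exact hy (Finset.mem_union_right _ (Finset.mem_image_of_mem _ hp))
    have hnot : (x, y) ∉ D := fun h => (hx1 _ h).1 rfl
    have hmem : insert (x, y) D ∈ 𝒮 := by
      rw [h𝒮, Finset.mem_filter, Finset.mem_powerset]
      refine ⟨Finset.insert_subset (mem_Mv.2 hxy) hD1, ?_⟩
      intro p hp p' hp' hpp
      rcases Finset.mem_insert.1 hp with rfl | hp <;> rcases Finset.mem_insert.1 hp' with rfl | hp'
      · exact absurd rfl hpp
      · exact ⟨(hx1 p' hp').1.symm, (hx1 p' hp').2.symm, (hy1 p' hp').1.symm, (hy1 p' hp').2.symm⟩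
      · exact ⟨(hx1 p hp).1, (hy1 p hp).1, (hx1 p hp).2, (hy1 p hp).2⟩
      · exact hD2 p hp p' hp' hpp
    have := hmax _ hmem
    rw [Finset.card_insert_of_notMem hnot] at this
    omega
  -- first coordinates are independent
  have hind : ∀ e ∈ H, ¬ e ⊆ D.image Prod.fst := by
    intro e he hsub
    obtain ⟨x1, x2, x3, h12, h13, h23, rfl⟩ := Finset.card_eq_three.1 (hH e he)
    obtain ⟨⟨a1, y1⟩, m1, g1⟩ := Finset.mem_image.1 (hsub (show x1 ∈ ({x1, x2, x3} : Finset _) by simp))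
    obtain ⟨⟨a2, y2⟩, m2, g2⟩ := Finset.mem_image.1 (hsub (show x2 ∈ ({x1, x2, x3} : Finset _) by simp))
    obtain ⟨⟨a3, y3⟩, m3, g3⟩ := Finset.mem_image.1 (hsub (show x3 ∈ ({x1, x2, x3} : Finset _) by simp))
    dsimp only at g1 g2 g3
    subst g1 g2 g3
    have r1 := mem_Mv.1 (hD1 m1)
    have r2 := mem_Mv.1 (hD1 m2)
    have r3 := mem_Mv.1 (hD1 m3)
    have d12 := hD2 _ m1 _ m2 (fun h => h12 (congrArg Prod.fst h))
    have d13 := hD2 _ m1 _ m3 (fun h => h13 (congrArg Prod.fst h))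
    have d23 := hD2 _ m2 _ m3 (fun h => h23 (congrArg Prod.fst h))
    dsimp only at d12 d13 d23
    obtain ⟨_, _, hv3⟩ := hH.ne r3.1
    refine hL.tri hH (x := a1) (y := a2) (z := v) (p := a3) (r := y2) (s := y1) he ?_ ?_ hv3
      d12.2.1.symm d12.2.2.1 d23.2.2.1.symm d13.2.2.1.symm d12.2.2.2.symm
    · have := r2.1
      rwa [perm1] at this
    · have := r1.1
      rwa [perm1] at this
  have hDcard : D.card ≤ t := by
    have h1 := hα _ hind
    rwa [Finset.card_image_of_injOn] at h1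
    intro p hp p' hp' hpp
    by_contra hne'
    exact (hD2 p hp p' hp' hne').1 hpp
  have hWcard : W.card ≤ 2 * t := by
    calc W.card ≤ (D.image Prod.fst).card + (D.image Prod.snd).card := Finset.card_union_le _ _
      _ ≤ D.card + D.card := Nat.add_le_add Finset.card_image_le Finset.card_image_le
      _ ≤ 2 * t := by omega
  -- degrees
  have hdeg : ∀ x, (univ.filter (fun y => Rel H v x y)).card ≤ 3 := by
    intro x
    by_cases hx : cod H x v < 4
    · refine (Finset.card_le_card (t := univ.filter (fun z => ({x, v, z} : Finset (Fin n)) ∈ H))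
        ?_).trans (by rw [← cod_eq]; omega)
      intro y hy
      rw [Finset.mem_filter] at hy ⊢
      refine ⟨hy.1, ?_⟩
      rw [perm1]
      exact hy.2.1
    · rw [Finset.filter_eq_empty_iff.2]
      · simp
      · intro y _ hR
        exact hx hR.2.1
  -- count
  have hsub : Mv H v ⊆ (W.biUnion fun x => (univ.filter (fun y => Rel H v x y)).image
      (fun y => (x, y))) ∪ (W.biUnion fun x => (univ.filter (fun y => Rel H v x y)).image
      (fun y => (y, x))) := by
    rintro ⟨x, y⟩ hxy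
    rw [mem_Mv] at hxy
    rcases hcov x y hxy with h | h
    · refine Finset.mem_union_left _ (Finset.mem_biUnion.2 ⟨x, h, Finset.mem_image.2 ⟨y, ?_, rfl⟩⟩)
      exact Finset.mem_filter.2 ⟨Finset.mem_univ _, hxy⟩
    · refine Finset.mem_union_right _ (Finset.mem_biUnion.2 ⟨y, h, Finset.mem_image.2 ⟨x, ?_, rfl⟩⟩)
      exact Finset.mem_filter.2 ⟨Finset.mem_univ _, hxy.symm⟩
  have hpart : ∀ f : Fin n → Fin n → Fin n × Fin n,
      (W.biUnion fun x => (univ.filter (fun y => Rel H v x y)).image (f x)).card ≤ 6 * t := by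
    intro f
    calc _ ≤ ∑ x ∈ W, ((univ.filter (fun y => Rel H v x y)).image (f x)).card :=
          Finset.card_biUnion_le
      _ ≤ ∑ x ∈ W, 3 := Finset.sum_le_sum fun x _ => Finset.card_image_le.trans (hdeg x)
      _ = W.card * 3 := by rw [Finset.sum_const, smul_eq_mul]
      _ ≤ 6 * t := by omega
  calc (Mv H v).card ≤ _ := Finset.card_le_card hsub
    _ ≤ _ := Finset.card_union_le _ _
    _ ≤ 6 * t + 6 * t := Nat.add_le_add (hpart fun x y => (x, y)) (hpart fun x y => (y, x))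
    _ = 12 * t := by ring

/-- The total number of edges. -/
lemma NoLT.edges {H : Finset (Finset (Fin n))} (hL : NoLT H) (hH : Unif H) (t : ℕ)
    (hα : ∀ S : Finset (Fin n), (∀ e ∈ H, ¬ e ⊆ S) → S.card ≤ t) :
    H.card ≤ 14 * n * t := by
  classical
  have hsub : H ⊆ (univ.biUnion fun z : Fin n => (Ez H z).image
      (fun p => ({p.1, p.2, z} : Finset (Fin n)))) ∪ (univ.biUnion fun z : Fin n => (Mv H z).image
      (fun p => ({p.1, p.2, z} : Finset (Fin n)))) := by
    intro e he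
    obtain ⟨x, y, z, hxy, hxz, hyz, rfl⟩ := Finset.card_eq_three.1 (hH e he)
    by_cases h1 : 4 ≤ cod H x z
    · refine Finset.mem_union_left _ (Finset.mem_biUnion.2 ⟨y, Finset.mem_univ _,
        Finset.mem_image.2 ⟨(x, z), ?_, ?_⟩⟩)
      · rw [mem_Ez]
        refine ⟨h1, ?_⟩
        rwa [perm1]
      · exact perm1
    · by_cases h2 : 4 ≤ cod H y z
      · refine Finset.mem_union_left _ (Finset.mem_biUnion.2 ⟨x, Finset.mem_univ _,
          Finset.mem_image.2 ⟨(y, z), ?_, ?_⟩⟩)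
        · rw [mem_Ez]
          refine ⟨h2, ?_⟩
          rwa [← perm3]
        · exact perm3.symm
      · refine Finset.mem_union_right _ (Finset.mem_biUnion.2 ⟨z, Finset.mem_univ _,
          Finset.mem_image.2 ⟨(x, y), ?_, rfl⟩⟩)
        rw [mem_Mv]
        exact ⟨he, by omega, by omega⟩
  calc H.card ≤ _ := Finset.card_le_card hsub
    _ ≤ _ := Finset.card_union_le _ _
    _ ≤ (∑ z : Fin n, 2 * t) + ∑ z : Fin n, 12 * t := by
        refine Nat.add_le_add ?_ ?_
        · refine Finset.card_biUnion_le.trans (Finset.sum_le_sum fun z _ => ?_)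
          exact Finset.card_image_le.trans ((hL.f2 hH z).trans
            (Nat.mul_le_mul_left 2 (hα _ (hL.leaf_indep hH z))))
        · refine Finset.card_biUnion_le.trans (Finset.sum_le_sum fun z _ => ?_)
          exact Finset.card_image_le.trans (hL.f4a hH t hα z)
    _ = 14 * n * t := by
        rw [Finset.sum_const, Finset.sum_const, Finset.card_univ, Fintype.card_fin, smul_eq_mul,
          smul_eq_mul]
        ring

end Pool.Agent.H33.Loose
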