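import Pool.Agent.H33.Nibble5
import Pool.Agent.H33.LooseStruct

set_option autoImplicit false

open Finset
open Pool.Agent.H33.Nibble

namespace Pool.Agent.H33.Loose

variable {n : ℕ}

/-- All codegrees inside `e` are small. -/
def Low (H : Finset (Finset (Fin n))) (s F : ℝ) (e : Finset (Fin n)) : Prop :=
  ∀ x ∈ e, ∀ y ∈ e, x ≠ y → (cod H x y : ℝ) < s / F

open scoped Classical in
/-- The edges with very small codegrees. -/
noncomputable def H2s (H : Finset (Finset (Fin n))) (s F' : ℝ) : Finset (Finset (Fin n)) :=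
  H.filter (fun e => Low H s F' e)

open scoped Classical in
/-- The window edges. -/
noncomputable def Hws (H : Finset (Finset (Fin n))) (s F F' : ℝ) : Finset (Finset (Fin n)) :=
  H.filter (fun e => Low H s F e ∧ ¬ Low H s F' e)

lemma mem_H2s {H : Finset (Finset (Fin n))} {s F' : ℝ} {e : Finset (Fin n)} :
    e ∈ H2s H s F' ↔ e ∈ H ∧ Low H s F' e := by
  classical
  unfold H2s; exact Finset.mem_filter

lemma mem_Hws {H : Finset (Finset (Fin n))} {s F F' : ℝ} {e : Finset (Fin n)} :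
    e ∈ Hws H s F F' ↔ e ∈ H ∧ Low H s F e ∧ ¬ Low H s F' e := by
  classical
  unfold Hws; exact Finset.mem_filter

/-- The graph of the pairs of large codegree. -/
def Gs (H : Finset (Finset (Fin n))) (s F : ℝ) (u v : Fin n) : Prop :=
  u ≠ v ∧ s / F ≤ cod H u v

lemma Gs.symm {H : Finset (Finset (Fin n))} {s F : ℝ} {u v : Fin n} (h : Gs H s F u v) :
    Gs H s F v u := ⟨h.1.symm, by rw [cod_comm]; exact h.2⟩

open scoped Classical in
/-- Four-point configurations. -/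
noncomputable def T4 (H : Finset (Finset (Fin n))) (s F' : ℝ) :
    Finset (Fin n × Fin n × Fin n × Fin n) :=
  univ.filter (fun t => ({t.1, t.2.1, t.2.2.1} : Finset (Fin n)) ∈ H ∧
    ({t.1, t.2.1, t.2.2.2} : Finset (Fin n)) ∈ H ∧ t.2.2.1 ≠ t.2.2.2 ∧
    (cod H t.1 t.2.1 : ℝ) < s / F')

open scoped Classical in
/-- Five-point configurations. -/
noncomputable def T5 (H : Finset (Finset (Fin n))) (s F F' : ℝ) :
    Finset ((Fin n × Fin n × Fin n × Fin n) × Fin n) :=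
  univ.filter (fun t => t.1 ∈ T4 H s F' ∧
    ({t.1.2.2.1, t.1.2.2.2, t.2} : Finset (Fin n)) ∈ H ∧
    (cod H t.1.2.2.1 t.1.2.2.2 : ℝ) < s / F ∧ t.2 ≠ t.1.1 ∧ t.2 ≠ t.1.2.1)

lemma mem_T4 {H : Finset (Finset (Fin n))} {s F' : ℝ} {a x y y' : Fin n} :
    (a, x, y, y') ∈ T4 H s F' ↔ ({a, x, y} : Finset (Fin n)) ∈ H ∧
    ({a, x, y'} : Finset (Fin n)) ∈ H ∧ y ≠ y' ∧ (cod H a x : ℝ) < s / F' := by
  classical
  simp [T4]

lemma mem_T5 {H : Finset (Finset (Fin n))} {s F F' : ℝ} {a x y y' w : Fin n} :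
    ((a, x, y, y'), w) ∈ T5 H s F F' ↔ (a, x, y, y') ∈ T4 H s F' ∧
    ({y, y', w} : Finset (Fin n)) ∈ H ∧ (cod H y y' : ℝ) < s / F ∧ w ≠ a ∧ w ≠ x := by
  classical
  simp [T5]

/-- The set of the four points. -/
def set4 (t : Fin n × Fin n × Fin n × Fin n) : Finset (Fin n) :=
  {t.1, t.2.1, t.2.2.1, t.2.2.2}

/-- The set of the five points. -/
def set5 (t : (Fin n × Fin n × Fin n × Fin n) × Fin n) : Finset (Fin n) :=
  insert t.2 (set4 t.1)

lemma card_set4 {H : Finset (Finset (Fin n))} (hH : Unif H) {s F' : ℝ}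
    {t : Fin n × Fin n × Fin n × Fin n} (ht : t ∈ T4 H s F') : (set4 t).card = 4 := by
  obtain ⟨a, x, y, y'⟩ := t
  rw [mem_T4] at ht
  obtain ⟨h1, h2, h3⟩ := hH.ne ht.1
  obtain ⟨_, h5, h6⟩ := hH.ne ht.2.1
  unfold set4
  dsimp only
  rw [Finset.card_insert_of_notMem, Finset.card_insert_of_notMem, Finset.card_pair ht.2.2.1]
  · simp [h2, h5]
  · simp [h1, h3, h6]

lemma card_set5 {H : Finset (Finset (Fin n))} (hH : Unif H) {s F F' : ℝ}
    {t : (Fin n × Fin n × Fin n × Fin n) × Fin n} (ht : t ∈ T5 H s F F') :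
    (set5 t).card = 5 := by
  obtain ⟨⟨a, x, y, y'⟩, w⟩ := t
  rw [mem_T5] at ht
  obtain ⟨h1, h2, h3⟩ := hH.ne ht.2.1
  unfold set5
  dsimp only
  rw [Finset.card_insert_of_notMem, card_set4 hH ht.1]
  simp only [set4, Finset.mem_insert, Finset.mem_singleton, not_or]
  exact ⟨ht.2.2.2.1, ht.2.2.2.2, h3.symm, h2.symm⟩

/-- The family of bad configurations. -/
noncomputable def BBs (H : Finset (Finset (Fin n))) (s F F' : ℝ) : Finset (Finset (Fin n)) :=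
  (T4 H s F').image set4 ∪ (T5 H s F F').image set5

lemma flex {H : Finset (Finset (Fin n))} {s F : ℝ} (hs : 10 ≤ s / F) {x y : Fin n}
    (h : Gs H s F x y) (X : Finset (Fin n)) (hX : X.card ≤ 3) :
    ∃ w, w ∉ X ∧ ({x, y, w} : Finset (Fin n)) ∈ H := by
  apply exists_wit
  have h1 : (10:ℝ) ≤ cod H x y := hs.trans h.2
  have h2 : 10 ≤ cod H x y := by exact_mod_cast h1
  omega

/-- Core case analysis for `T2`. -/
lemma core2 {H : Finset (Finset (Fin n))} (hL : NoLT H) (hH : Unif H) {s F F' : ℝ}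
    (hs : 10 ≤ s / F) {S : Finset (Fin n)} {u v z : Fin n} (huv : u ≠ v) (huz : u ≠ z)
    (hvz : v ≠ z) (hu : u ∉ S) (hv : v ∉ S) (hz : z ∉ S)
    (h1 : Gs H s F u v ∨ ∃ a ∈ S, ({a, u, v} : Finset (Fin n)) ∈ H2s H s F')
    (h2 : Gs H s F u z ∨ ∃ a ∈ S, ({a, u, z} : Finset (Fin n)) ∈ H2s H s F')
    (h3 : Gs H s F v z ∨ ∃ a ∈ S, ({a, v, z} : Finset (Fin n)) ∈ H2s H s F') :
    ∃ a ∈ S, (a, z, u, v) ∈ T4 H s F' ∨ (a, v, u, z) ∈ T4 H s F' ∨ (a, u, v, z) ∈ T4 H s F' := by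
  have hS : ∀ {a}, a ∈ S → a ≠ u ∧ a ≠ v ∧ a ≠ z := fun ha =>
    ⟨fun h => hu (h ▸ ha), fun h => hv (h ▸ ha), fun h => hz (h ▸ ha)⟩
  rcases h1 with h1 | ⟨a0, ha0, h1⟩ <;> rcases h2 with h2 | ⟨a, ha, h2⟩ <;>
    rcases h3 with h3 | ⟨b, hb, h3⟩
  · exfalso
    obtain ⟨w1, k1, g1⟩ := flex hs h1 {z} (by simp)
    obtain ⟨w2, k2, g2⟩ := flex hs h2 {v, w1} (Finset.card_le_two.trans (by norm_num))
    obtain ⟨w3, k3, g3⟩ := flex hs h3 {u, w1, w2} Finset.card_le_three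
    simp only [Finset.mem_insert, Finset.mem_singleton, not_or] at k1 k2 k3
    exact hL.tri hH g1 g3 g2 k1 k3.1 k2.1 (Ne.symm k3.2.1) (Ne.symm k2.2) k3.2.2
  · exfalso
    rw [mem_H2s, perm3] at h3
    obtain ⟨s1, s2, s3⟩ := hS hb
    obtain ⟨w1, k1, g1⟩ := flex hs h1 {z, b} (Finset.card_le_two.trans (by norm_num))
    obtain ⟨w2, k2, g2⟩ := flex hs h2 {v, w1, b} Finset.card_le_three
    simp only [Finset.mem_insert, Finset.mem_singleton, not_or] at k1 k2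
    exact hL.tri hH g1 h3.1 g2 k1.1 s1 k2.1 k1.2 (Ne.symm k2.2.1) (Ne.symm k2.2.2)
  · exfalso
    rw [mem_H2s, perm3] at h2
    obtain ⟨s1, s2, s3⟩ := hS ha
    obtain ⟨w1, k1, g1⟩ := flex hs h1 {z, a} (Finset.card_le_two.trans (by norm_num))
    obtain ⟨w3, k3, g3⟩ := flex hs h3 {u, w1, a} Finset.card_le_three
    simp only [Finset.mem_insert, Finset.mem_singleton, not_or] at k1 k3
    exact hL.tri hH g1 g3 h2.1 k1.1 k3.1 s2 (Ne.symm k3.2.1) k1.2 k3.2.2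
  · obtain ⟨s1, s2, s3⟩ := hS ha
    obtain ⟨t1, t2, t3⟩ := hS hb
    by_cases hab : a = b
    · subst hab
      refine ⟨a, ha, Or.inl (mem_T4.2 ⟨?_, ?_, huv, ?_⟩)⟩
      · have := (mem_H2s.1 h2).1
        rwa [perm1] at this
      · have := (mem_H2s.1 h3).1
        rwa [perm1] at this
      · exact (mem_H2s.1 h2).2 a (by simp) z (by simp) s3
    · exfalso
      rw [mem_H2s, perm3] at h2 h3
      obtain ⟨w1, k1, g1⟩ := flex hs h1 {z, a, b} Finset.card_le_three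
      simp only [Finset.mem_insert, Finset.mem_singleton, not_or] at k1
      exact hL.tri hH g1 h3.1 h2.1 k1.1 t1 s2 k1.2.2 k1.2.1 (Ne.symm hab)
  · exfalso
    rw [mem_H2s, perm3] at h1
    obtain ⟨s1, s2, s3⟩ := hS ha0
    obtain ⟨w2, k2, g2⟩ := flex hs h2 {v, a0} (Finset.card_le_two.trans (by norm_num))
    obtain ⟨w3, k3, g3⟩ := flex hs h3 {u, w2, a0} Finset.card_le_three
    simp only [Finset.mem_insert, Finset.mem_singleton, not_or] at k2 k3
    exact hL.tri hH h1.1 g3 g2 s3 k3.1 k2.1 (Ne.symm k3.2.2) (Ne.symm k2.2) k3.2.1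
  · obtain ⟨s1, s2, s3⟩ := hS ha0
    obtain ⟨t1, t2, t3⟩ := hS hb
    by_cases hab : a0 = b
    · subst hab
      refine ⟨a0, ha0, Or.inr (Or.inl (mem_T4.2 ⟨?_, ?_, huz, ?_⟩))⟩
      · have := (mem_H2s.1 h1).1
        rwa [perm1] at this
      · exact (mem_H2s.1 h3).1
      · exact (mem_H2s.1 h3).2 a0 (by simp) v (by simp) s2
    · exfalso
      rw [mem_H2s, perm3] at h1 h3
      obtain ⟨w2, k2, g2⟩ := flex hs h2 {v, a0, b} Finset.card_le_three
      simp only [Finset.mem_insert, Finset.mem_singleton, not_or] at k2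
      exact hL.tri hH h1.1 h3.1 g2 s3 t1 k2.1 hab (Ne.symm k2.2.1) (Ne.symm k2.2.2)
  · obtain ⟨s1, s2, s3⟩ := hS ha0
    obtain ⟨t1, t2, t3⟩ := hS ha
    by_cases hab : a0 = a
    · subst hab
      refine ⟨a0, ha0, Or.inr (Or.inr (mem_T4.2 ⟨?_, ?_, hvz, ?_⟩))⟩
      · exact (mem_H2s.1 h1).1
      · exact (mem_H2s.1 h2).1
      · exact (mem_H2s.1 h2).2 a0 (by simp) u (by simp) s1
    · exfalso
      rw [mem_H2s, perm3] at h1 h2
      obtain ⟨w3, k3, g3⟩ := flex hs h3 {u, a0, a} Finset.card_le_three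
      simp only [Finset.mem_insert, Finset.mem_singleton, not_or] at k3
      exact hL.tri hH h1.1 g3 h2.1 s3 k3.1 t2 (Ne.symm k3.2.1) hab k3.2.2
  · obtain ⟨r1, r2, r3⟩ := hS ha0
    obtain ⟨s1, s2, s3⟩ := hS ha
    obtain ⟨t1, t2, t3⟩ := hS hb
    by_cases h0a : a0 = a
    · subst h0a
      refine ⟨a0, ha0, Or.inr (Or.inr (mem_T4.2 ⟨?_, ?_, hvz, ?_⟩))⟩
      · exact (mem_H2s.1 h1).1
      · exact (mem_H2s.1 h2).1
      · exact (mem_H2s.1 h2).2 a0 (by simp) u (by simp) s1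
    · by_cases h0b : a0 = b
      · subst h0b
        refine ⟨a0, ha0, Or.inr (Or.inl (mem_T4.2 ⟨?_, ?_, huz, ?_⟩))⟩
        · have := (mem_H2s.1 h1).1
          rwa [perm1] at this
        · exact (mem_H2s.1 h3).1
        · exact (mem_H2s.1 h3).2 a0 (by simp) v (by simp) r2
      · by_cases hab : a = b
        · subst hab
          refine ⟨a, ha, Or.inl (mem_T4.2 ⟨?_, ?_, huv, ?_⟩)⟩
          · have := (mem_H2s.1 h2).1
            rwa [perm1] at this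
          · have := (mem_H2s.1 h3).1
            rwa [perm1] at this
          · exact (mem_H2s.1 h2).2 a (by simp) z (by simp) s3
        · exfalso
          rw [mem_H2s, perm3] at h1 h2 h3
          exact hL.tri hH h1.1 h3.1 h2.1 r3 t1 s2 h0b h0a (Ne.symm hab)

/-- Core case analysis for `T3`. -/
lemma core3 {H : Finset (Finset (Fin n))} (hL : NoLT H) (hH : Unif H) {s F F' : ℝ}
    (hs : 10 ≤ s / F) {S : Finset (Fin n)} {u v w z : Fin n} (huv : u ≠ v) (huz : u ≠ z)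
    (hvz : v ≠ z) (hwz : w ≠ z) (hu : u ∉ S) (hv : v ∉ S) (hz : z ∉ S)
    (he : ({u, v, w} : Finset (Fin n)) ∈ H) (hcod : (cod H u v : ℝ) < s / F)
    (h2 : Gs H s F u z ∨ ∃ a ∈ S, ({a, u, z} : Finset (Fin n)) ∈ H2s H s F')
    (h3 : Gs H s F v z ∨ ∃ a ∈ S, ({a, v, z} : Finset (Fin n)) ∈ H2s H s F') :
    (w ∈ S ∧ ((w, v, u, z) ∈ T4 H s F' ∨ (w, u, v, z) ∈ T4 H s F')) ∨
      ∃ a ∈ S, ((a, z, u, v), w) ∈ T5 H s F F' := by
  obtain ⟨_, hvw, huw⟩ := hH.ne he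
  have hS : ∀ {a}, a ∈ S → a ≠ u ∧ a ≠ v ∧ a ≠ z := fun ha =>
    ⟨fun h => hu (h ▸ ha), fun h => hv (h ▸ ha), fun h => hz (h ▸ ha)⟩
  rcases h2 with h2 | ⟨a, ha, h2⟩ <;> rcases h3 with h3 | ⟨b, hb, h3⟩
  · exfalso
    obtain ⟨w2, k2, g2⟩ := flex hs h2 {v, w} (Finset.card_le_two.trans (by norm_num))
    obtain ⟨w3, k3, g3⟩ := flex hs h3 {u, w, w2} Finset.card_le_three
    simp only [Finset.mem_insert, Finset.mem_singleton, not_or] at k2 k3
    exact hL.tri hH he g3 g2 hwz k3.1 k2.1 (Ne.symm k3.2.1) (Ne.symm k2.2) k3.2.2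
  · obtain ⟨t1, t2, t3⟩ := hS hb
    by_cases hbw : b = w
    · subst hbw
      refine Or.inl ⟨hb, Or.inl (mem_T4.2 ⟨?_, (mem_H2s.1 h3).1, huz, ?_⟩)⟩
      · rwa [perm4, perm1] at he
      · exact (mem_H2s.1 h3).2 b (by simp) v (by simp) t2
    · exfalso
      rw [mem_H2s, perm3] at h3
      obtain ⟨w2, k2, g2⟩ := flex hs h2 {v, w, b} Finset.card_le_three
      simp only [Finset.mem_insert, Finset.mem_singleton, not_or] at k2
      exact hL.tri hH he h3.1 g2 hwz t1 k2.1 (Ne.symm hbw) (Ne.symm k2.2.1) (Ne.symm k2.2.2)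
  · obtain ⟨t1, t2, t3⟩ := hS ha
    by_cases haw : a = w
    · subst haw
      refine Or.inl ⟨ha, Or.inr (mem_T4.2 ⟨?_, (mem_H2s.1 h2).1, hvz, ?_⟩)⟩
      · rwa [perm4] at he
      · exact (mem_H2s.1 h2).2 a (by simp) u (by simp) t1
    · exfalso
      rw [mem_H2s, perm3] at h2
      obtain ⟨w3, k3, g3⟩ := flex hs h3 {u, w, a} Finset.card_le_three
      simp only [Finset.mem_insert, Finset.mem_singleton, not_or] at k3
      exact hL.tri hH he g3 h2.1 hwz k3.1 t2 (Ne.symm k3.2.1) (Ne.symm haw) k3.2.2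
  · obtain ⟨s1, s2, s3⟩ := hS ha
    obtain ⟨t1, t2, t3⟩ := hS hb
    by_cases haw : a = w
    · subst haw
      refine Or.inl ⟨ha, Or.inr (mem_T4.2 ⟨?_, (mem_H2s.1 h2).1, hvz, ?_⟩)⟩
      · rwa [perm4] at he
      · exact (mem_H2s.1 h2).2 a (by simp) u (by simp) s1
    · by_cases hbw : b = w
      · subst hbw
        refine Or.inl ⟨hb, Or.inl (mem_T4.2 ⟨?_, (mem_H2s.1 h3).1, huz, ?_⟩)⟩
        · rwa [perm4, perm1] at he
        · exact (mem_H2s.1 h3).2 b (by simp) v (by simp) t2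
      · by_cases hab : a = b
        · subst hab
          refine Or.inr ⟨a, ha, mem_T5.2 ⟨mem_T4.2 ⟨?_, ?_, huv, ?_⟩, he, hcod, Ne.symm haw, hwz⟩⟩
          · have := (mem_H2s.1 h2).1
            rwa [perm1] at this
          · have := (mem_H2s.1 h3).1
            rwa [perm1] at this
          · exact (mem_H2s.1 h2).2 a (by simp) z (by simp) s3
        · exfalso
          rw [mem_H2s, perm3] at h2 h3
          exact hL.tri hH he h3.1 h2.1 hwz t1 s2 (Ne.symm hbw) (Ne.symm haw) (Ne.symm hab)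

end Pool.Agent.H33.Loose
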