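import Pool.Agent.H33.LooseConfig

set_option autoImplicit false

open Finset
open Pool.Agent.H33.Nibble

namespace Pool.Agent.H33.Loose

variable {n : ℕ}

lemma Low.mono {H : Finset (Finset (Fin n))} {s F F' : ℝ} (hF : 0 < F) (hFF : F ≤ F')
    (hs : 0 ≤ s) {e : Finset (Fin n)} (h : Low H s F' e) : Low H s F e := by
  intro x hx y hy hxy
  exact (h x hx y hy hxy).trans_le (div_le_div_of_nonneg_left hs hF hFF)

/-- The system attached to the 3-graph. -/
noncomputable def mkSys (H : Finset (Finset (Fin n))) (hL : NoLT H) (hH : Unif H)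
    (s F F' q0 lam : ℝ) (hF : 0 < F) (hFF : F ≤ F') (hs : 10 ≤ s / F) (hq0 : 0 < q0)
    (hlam : 0 < lam) (hsmall : Real.exp lam * q0 ≤ 1 / 2) : Sys (Fin n) where
  G := Gs H s F
  H2 := H2s H s F'
  Hw := Hws H s F F'
  BB := BBs H s F F'
  q0 := q0
  lam := lam
  Gsymm := fun _ _ h => h.symm
  Girr := fun _ h => h.1 rfl
  H2card := fun e he => hH e (mem_H2s.1 he).1
  Hwcard := fun e he => hH e (mem_Hws.1 he).1
  BBcard := by
    intro B hB
    rcases Finset.mem_union.1 hB with h | h
    · obtain ⟨t, ht, rfl⟩ := Finset.mem_image.1 h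
      rw [card_set4 hH ht]; norm_num
    · obtain ⟨t, ht, rfl⟩ := Finset.mem_image.1 h
      rw [card_set5 hH ht]
  q0pos := hq0
  lampos := hlam
  small := hsmall
  T2 := by
    intro S V hd u hu v hv huv h1
    refine ⟨u, fun z hz hzu h2 h3 => ?_⟩
    have hvz : v ≠ z := by
      rintro rfl
      rcases h3 with h3 | ⟨a, _, h3⟩
      · exact h3.1 rfl
      · exact (hH.ne (mem_H2s.1 h3).1).2.1 rfl
    have hnS : ∀ {x}, x ∈ V → x ∉ S := fun hx hxS => Finset.disjoint_left.1 hd hxS hx
    obtain ⟨a, ha, h⟩ := core2 hL hH hs huv hzu.symm hvz (hnS hu) (hnS hv) (hnS hz) h1 h2 h3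
    refine ⟨a, ha, Finset.mem_union_left _ (Finset.mem_image.2 ?_)⟩
    rcases h with h | h | h
    · refine ⟨_, h, ?_⟩
      unfold set4
      ext x
      simp only [Finset.mem_insert, Finset.mem_singleton]
      tauto
    · refine ⟨_, h, ?_⟩
      unfold set4
      ext x
      simp only [Finset.mem_insert, Finset.mem_singleton]
      tauto
    · refine ⟨_, h, ?_⟩
      unfold set4
      ext x
      simp only [Finset.mem_insert, Finset.mem_singleton]
      tauto
  T3 := by
    intro S V hd e he u hue v hve huv hu hv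
    have heH : e ∈ H := by
      rcases Finset.mem_union.1 he with h | h
      · exact (mem_H2s.1 h).1
      · exact (mem_Hws.1 h).1
    have hs0 : 0 ≤ s := by
      have : 0 < s / F := by linarith
      have := (div_pos_iff_of_pos_right hF).1 this
      exact this.le
    have hlow : Low H s F e := by
      rcases Finset.mem_union.1 he with h | h
      · exact (mem_H2s.1 h).2.mono hF hFF hs0
      · exact (mem_Hws.1 h).2.1
    have hc3 := hH e heH
    obtain ⟨w, hw⟩ : ∃ w, w ∈ (e.erase u).erase v := by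
      have : ((e.erase u).erase v).card = 1 := by
        rw [Finset.card_erase_of_mem (Finset.mem_erase.2 ⟨huv.symm, hve⟩),
          Finset.card_erase_of_mem hue, hc3]
      exact Finset.card_pos.1 (by omega)
    rw [Finset.mem_erase, Finset.mem_erase] at hw
    obtain ⟨hwv, hwu, hwe⟩ := hw
    have heq : e = {u, v, w} := by
      symm
      apply Finset.eq_of_subset_of_card_le
      · intro x hx
        simp only [Finset.mem_insert, Finset.mem_singleton] at hx
        rcases hx with rfl | rfl | rfl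
        · exact hue
        · exact hve
        · exact hwe
      · rw [hc3, Finset.card_eq_three.2 ⟨u, v, w, huv, hwu.symm, hwv.symm, rfl⟩]
    subst heq
    refine ⟨w, fun z hz hzw h2 h3 => ?_⟩
    have huz : u ≠ z := by
      rintro rfl
      rcases h2 with h2 | ⟨a, _, h2⟩
      · exact h2.1 rfl
      · exact (hH.ne (mem_H2s.1 h2).1).2.1 rfl
    have hvz : v ≠ z := by
      rintro rfl
      rcases h3 with h3 | ⟨a, _, h3⟩
      · exact h3.1 rfl
      · exact (hH.ne (mem_H2s.1 h3).1).2.1 rfl
    have hnS : ∀ {x}, x ∈ V → x ∉ S := fun hx hxS => Finset.disjoint_left.1 hd hxS hx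
    rcases core3 hL hH hs huv huz hvz hzw.symm (hnS hu) (hnS hv) (hnS hz) heH
      (hlow u hue v hve huv) h2 h3 with ⟨hwS, h | h⟩ | ⟨a, ha, h⟩
    · refine ⟨w, hwS, Finset.mem_union_left _ (Finset.mem_image.2 ⟨_, h, ?_⟩)⟩
      unfold set4
      ext x
      simp only [Finset.mem_insert, Finset.mem_singleton]
      tauto
    · refine ⟨w, hwS, Finset.mem_union_left _ (Finset.mem_image.2 ⟨_, h, ?_⟩)⟩
      unfold set4
      ext x
      simp only [Finset.mem_insert, Finset.mem_singleton]
      tauto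
    · refine ⟨a, ha, Finset.mem_union_right _ (Finset.mem_image.2 ⟨_, h, ?_⟩)⟩
      unfold set5 set4
      ext x
      simp only [Finset.mem_insert, Finset.mem_singleton]
      tauto

/-- The ordered triples of an edge. -/
lemma card_triples {H : Finset (Finset (Fin n))} (hH : Unif H) :
    (univ.filter (fun t : Fin n × Fin n × Fin n => ({t.1, t.2.1, t.2.2} : Finset (Fin n)) ∈ H)).card
      ≤ 27 * H.card := by
  classical
  refine Finset.card_le_mul_card_image_of_maps_to (f := fun t : Fin n × Fin n × Fin n =>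
    ({t.1, t.2.1, t.2.2} : Finset (Fin n))) ?_ 27 ?_
  · intro t ht
    exact (Finset.mem_filter.1 ht).2
  · intro e he
    have hsub : (univ.filter (fun t : Fin n × Fin n × Fin n =>
        ({t.1, t.2.1, t.2.2} : Finset (Fin n)) ∈ H)).filter
        (fun t => ({t.1, t.2.1, t.2.2} : Finset (Fin n)) = e) ⊆ e ×ˢ e ×ˢ e := by
      rintro ⟨a, u, v⟩ ht
      have h3 := (Finset.mem_filter.1 ht).2
      dsimp only at h3
      subst h3
      simp
    refine (Finset.card_le_card hsub).trans ?_
    rw [Finset.card_product, Finset.card_product, hH e he]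

lemma card_T4 {H : Finset (Finset (Fin n))} (hH : Unif H) {s F' : ℝ} (hs : 0 ≤ s / F') :
    ((T4 H s F').card : ℝ) ≤ 27 * H.card * (s / F') := by
  classical
  set Tr := univ.filter (fun t : Fin n × Fin n × Fin n =>
    ({t.1, t.2.1, t.2.2} : Finset (Fin n)) ∈ H) with hTr
  have hmaps : ∀ t ∈ T4 H s F', (t.1, t.2.1, t.2.2.1) ∈ Tr := by
    rintro ⟨a, x, y, y'⟩ ht
    rw [mem_T4] at ht
    simp only [hTr, Finset.mem_filter, Finset.mem_univ, true_and]
    exact ht.1
  rw [Finset.card_eq_sum_card_fiberwise hmaps, Nat.cast_sum]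
  calc ∑ b ∈ Tr, (((T4 H s F').filter (fun t => (t.1, t.2.1, t.2.2.1) = b)).card : ℝ)
      ≤ ∑ b ∈ Tr, s / F' := by
        refine Finset.sum_le_sum ?_
        rintro ⟨a, x, y⟩ _
        rcases Finset.eq_empty_or_nonempty
          ((T4 H s F').filter (fun t => (t.1, t.2.1, t.2.2.1) = (a, x, y))) with h | ⟨t, ht⟩
        · rw [h]; simpa using hs
        · obtain ⟨a1, x1, y1, y2⟩ := t
          rw [Finset.mem_filter, mem_T4] at ht
          obtain ⟨⟨_, _, _, hcod⟩, heq⟩ := ht
          simp only [Prod.mk.injEq] at heq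
          obtain ⟨rfl, rfl, rfl⟩ := heq
          refine le_trans ?_ hcod.le
          have : ((T4 H s F').filter (fun t => (t.1, t.2.1, t.2.2.1) = (a1, x1, y1))).card
              ≤ cod H a1 x1 := by
            rw [cod_eq]
            refine Finset.card_le_card_of_injOn (fun t => t.2.2.2) ?_ ?_
            · rintro ⟨a2, x2, y3, y4⟩ ht
              rw [Finset.mem_coe, Finset.mem_filter, mem_T4] at ht
              simp only [Prod.mk.injEq] at ht
              obtain ⟨⟨_, h2, _, _⟩, rfl, rfl, rfl⟩ := ht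
              simpa using h2
            · rintro ⟨a2, x2, y3, y4⟩ ht ⟨a3, x3, y5, y6⟩ ht' hh
              rw [Finset.mem_coe, Finset.mem_filter] at ht ht'
              simp only [Prod.mk.injEq] at ht ht' hh ⊢
              obtain ⟨_, rfl, rfl, rfl⟩ := ht
              obtain ⟨_, rfl, rfl, rfl⟩ := ht'
              exact ⟨rfl, rfl, rfl, hh⟩
          exact_mod_cast this
    _ = Tr.card * (s / F') := by rw [Finset.sum_const, nsmul_eq_mul]
    _ ≤ 27 * H.card * (s / F') := by
        refine mul_le_mul_of_nonneg_right ?_ hs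
        exact_mod_cast card_triples hH

lemma card_T5 {H : Finset (Finset (Fin n))} {s F F' : ℝ} (hs : 0 ≤ s / F) :
    ((T5 H s F F').card : ℝ) ≤ (T4 H s F').card * (s / F) := by
  classical
  have hmaps : ∀ t ∈ T5 H s F F', t.1 ∈ T4 H s F' := by
    rintro ⟨⟨a, x, y, y'⟩, w⟩ ht
    exact (mem_T5.1 ht).1
  rw [Finset.card_eq_sum_card_fiberwise hmaps, Nat.cast_sum]
  calc ∑ b ∈ T4 H s F', (((T5 H s F F').filter (fun t => t.1 = b)).card : ℝ)
      ≤ ∑ b ∈ T4 H s F', s / F := by
        refine Finset.sum_le_sum ?_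
        rintro ⟨a, x, y, y'⟩ _
        rcases Finset.eq_empty_or_nonempty
          ((T5 H s F F').filter (fun t => t.1 = (a, x, y, y'))) with h | ⟨t, ht⟩
        · rw [h]; simpa using hs
        · obtain ⟨⟨a1, x1, y1, y2⟩, w1⟩ := t
          rw [Finset.mem_filter, mem_T5] at ht
          obtain ⟨⟨_, _, hcod, _⟩, heq⟩ := ht
          simp only [Prod.mk.injEq] at heq
          obtain ⟨rfl, rfl, rfl, rfl⟩ := heq
          refine le_trans ?_ hcod.le
          have : ((T5 H s F F').filter (fun t => t.1 = (a1, x1, y1, y2))).card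
              ≤ cod H y1 y2 := by
            rw [cod_eq]
            refine Finset.card_le_card_of_injOn (fun t => t.2) ?_ ?_
            · rintro ⟨⟨a2, x2, y3, y4⟩, w2⟩ ht
              rw [Finset.mem_coe, Finset.mem_filter, mem_T5] at ht
              simp only [Prod.mk.injEq] at ht
              obtain ⟨⟨_, h2, _, _⟩, rfl, rfl, rfl, rfl⟩ := ht
              simpa using h2
            · rintro ⟨t1, w2⟩ ht ⟨t2, w3⟩ ht' hh
              rw [Finset.mem_coe, Finset.mem_filter] at ht ht'
              simp only at ht ht' hh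
              rw [ht.2, ht'.2, hh]
          exact_mod_cast this
    _ = (T4 H s F').card * (s / F) := by rw [Finset.sum_const, nsmul_eq_mul]

/-- Number of ordered pairs of large codegree. -/
lemma NoLT.card_G {H : Finset (Finset (Fin n))} (hL : NoLT H) (hH : Unif H) (t : ℕ)
    (hα : ∀ S : Finset (Fin n), (∀ e ∈ H, ¬ e ⊆ S) → S.card ≤ t) {s F : ℝ} (hs : 10 ≤ s / F)
    (D : Finset (Fin n × Fin n)) (hD : ∀ p ∈ D, s / F ≤ cod H p.1 p.2) :
    (D.card : ℝ) * (s / F) ≤ 2 * n * t := by
  have h1 := hL.f3 hH t hα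
  have h2 : D ⊆ univ.filter (fun p : Fin n × Fin n => 4 ≤ cod H p.1 p.2) := by
    intro p hp
    rw [Finset.mem_filter]
    refine ⟨Finset.mem_univ _, ?_⟩
    have h3 : (10:ℝ) ≤ cod H p.1 p.2 := hs.trans (hD p hp)
    have h4 : 10 ≤ cod H p.1 p.2 := by exact_mod_cast h3
    omega
  calc (D.card : ℝ) * (s / F) = ∑ p ∈ D, s / F := by rw [Finset.sum_const, nsmul_eq_mul]
    _ ≤ ∑ p ∈ D, (cod H p.1 p.2 : ℝ) := Finset.sum_le_sum hD
    _ ≤ ∑ p : Fin n × Fin n with 4 ≤ cod H p.1 p.2, (cod H p.1 p.2 : ℝ) :=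
        Finset.sum_le_sum_of_subset_of_nonneg h2 fun _ _ _ => Nat.cast_nonneg _
    _ = ((∑ p : Fin n × Fin n with 4 ≤ cod H p.1 p.2, cod H p.1 p.2 : ℕ) : ℝ) := by
        rw [Nat.cast_sum]
    _ ≤ 2 * n * t := by exact_mod_cast h1

end Pool.Agent.H33.Loose
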