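import Pool.Agent.H33.LooseWindow

set_option autoImplicit false

open Finset
open Pool.Agent.H33.Nibble

namespace Pool.Agent.H33.Loose

/-- Pigeonhole over the windows. -/
lemma exists_window {n : ℕ} (H : Finset (Finset (Fin n))) {s : ℝ} (hs : 0 ≤ s) {J : ℕ}
    (hJ : 0 < J) (Fj : ℕ → ℝ) (hF1 : ∀ j, 1 ≤ Fj j) (hFmono : Monotone Fj) :
    ∃ j < J, (J : ℝ) * (Hws H s (Fj j) (Fj (j + 1))).card ≤ H.card := by
  classical
  have hdisj : ∀ i j, i < j → Disjoint (Hws H s (Fj i) (Fj (i + 1))) (Hws H s (Fj j) (Fj (j + 1)))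
      := by
    intro i j hij
    rw [Finset.disjoint_left]
    intro e hi hj
    rw [mem_Hws] at hi hj
    refine hi.2.2 (Low.mono ?_ (hFmono hij) hs hj.2.1)
    have := hF1 (i + 1)
    linarith
  have hsum : ∑ j ∈ range J, (Hws H s (Fj j) (Fj (j + 1))).card ≤ H.card := by
    rw [← Finset.card_biUnion]
    · refine Finset.card_le_card fun e he => ?_
      obtain ⟨j, _, hj⟩ := Finset.mem_biUnion.1 he
      exact (mem_Hws.1 hj).1
    · intro i _ j _ hij
      rcases lt_or_gt_of_ne hij with h | h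
      · exact hdisj i j h
      · exact (hdisj j i h).symm
  have hex : ∃ j ∈ range J, (J : ℝ) * (Hws H s (Fj j) (Fj (j + 1))).card ≤ H.card := by
    refine Finset.exists_le_of_sum_le ⟨0, Finset.mem_range.2 hJ⟩ ?_
    rw [← Finset.mul_sum, Finset.sum_const, Finset.card_range, nsmul_eq_mul]
    refine mul_le_mul_of_nonneg_left ?_ (Nat.cast_nonneg J)
    exact_mod_cast hsum
  obtain ⟨j, hj, h⟩ := hex
  exact ⟨j, Finset.mem_range.1 hj, h⟩

/-- The main theorem. -/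
theorem main (ε : ℝ) (hε : 0 < ε) : ∃ T : ℕ, ∀ t : ℕ, T ≤ t → ∀ n : ℕ,
      ε * (t : ℝ) ^ ((3 : ℝ) / 2) ≤ (n : ℝ) →
      ∀ H : Finset (Finset (Fin n)), (∀ x ∈ H, x.card = 3) →
        (∃ a b c d e f : Fin n, [a, b, c, d, e, f].Nodup ∧
            ({a, b, c} : Finset (Fin n)) ∈ H ∧
            ({c, d, e} : Finset (Fin n)) ∈ H ∧
            ({e, f, a} : Finset (Fin n)) ∈ H) ∨
        (∃ S : Finset (Fin n), S.card = t ∧ ∀ x ∈ H, ¬ x ⊆ S) := by
  obtain ⟨K, hKdef⟩ : ∃ K : ℝ, K = 1 + 3 / ε := ⟨_, rfl⟩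
  have h3ε : 0 < 3 / ε := by positivity
  have hK : 1 ≤ K := by linarith
  obtain ⟨J, hJ⟩ := exists_nat_ge (224 * K ^ 2)
  have hJpos : 0 < J := by
    have : (0:ℝ) < J := by nlinarith
    exact_mod_cast this
  have W := window hK hJ
  choose! f hf σ hσ using W
  set Fj : ℕ → ℝ := fun j => f^[j] 1 with hFj
  have hFj1 : ∀ j, 1 ≤ Fj j := by
    intro j
    induction j with
    | zero => simp [hFj]
    | succ j ih =>
      have : Fj (j + 1) = f (Fj j) := by simp only [hFj, Function.iterate_succ_apply']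
      rw [this]
      exact ih.trans (hf _ ih)
  have hFjs : ∀ j, Fj (j + 1) = f (Fj j) := fun j => by
    simp only [hFj, Function.iterate_succ_apply']
  have hmono : Monotone Fj := monotone_nat_of_le_succ fun j => by
    rw [hFjs]; exact hf _ (hFj1 j)
  obtain ⟨s0, hs0⟩ : ∃ s0 : ℝ, s0 = ∑ j ∈ range J, |σ (Fj j)| := ⟨_, rfl⟩
  have hs0' : ∀ j < J, σ (Fj j) ≤ s0 := by
    intro j hj
    rw [hs0]
    exact (le_abs_self _).trans (Finset.single_le_sum (f := fun j => |σ (Fj j)|)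
      (fun _ _ => abs_nonneg _) (Finset.mem_range.2 hj))
  obtain ⟨T, hT⟩ := exists_nat_ge (s0 ^ 2 + 1)
  refine ⟨T, fun t ht n hn H hH => ?_⟩
  by_contra hcon
  rw [not_or] at hcon
  obtain ⟨hno, hind⟩ := hcon
  have hLT : NoLT H := by
    intro a b c d e f' h1 h2 h3 h4
    exact hno ⟨a, b, c, d, e, f', h1, h2, h3, h4⟩
  have hUnif : Unif H := hH
  have hα : ∀ S : Finset (Fin n), (∀ e ∈ H, ¬ e ⊆ S) → S.card < t := by
    intro S hS
    by_contra hcon
    push Not at hcon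
    obtain ⟨S', hS', hcard⟩ := Finset.exists_subset_card_eq hcon
    exact hind ⟨S', hcard, fun x hx hsub => hS x hx (hsub.trans hS')⟩
  have htT : (T : ℝ) ≤ t := by exact_mod_cast ht
  have ht1 : (1 : ℝ) ≤ t := by nlinarith [sq_nonneg s0]
  obtain ⟨s, hs⟩ : ∃ s : ℝ, s = Real.sqrt t := ⟨_, rfl⟩
  have hs2 : (t : ℝ) = s ^ 2 := by rw [hs, Real.sq_sqrt (by linarith)]
  have hspos : 0 < s := by rw [hs]; exact Real.sqrt_pos.2 (by linarith)
  have hss0 : s0 ≤ s := by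
    by_contra hlt
    push Not at hlt
    nlinarith
  obtain ⟨j, hjJ, hj⟩ := exists_window H hspos.le hJpos Fj hFj1 hmono
  rw [hFjs] at hj
  obtain ⟨I, hI, hIcard⟩ := hσ (Fj j) (hFj1 j) s ((hs0' j hjJ).trans hss0) n t H hs2 hLT hUnif
    (fun S hS => (hα S hS).le) hj
  have hlt : (I.card : ℝ) < t := by exact_mod_cast hα I hI
  have hpow : (t : ℝ) ^ ((3 : ℝ) / 2) = s ^ 3 := by
    rw [hs2, ← Real.rpow_natCast s 2, ← Real.rpow_mul hspos.le, ← Real.rpow_natCast s 3]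
    congr 1
    norm_num
  rw [hpow] at hn
  have h1 : ε * s ^ 2 ≤ n / s := by
    rw [le_div_iff₀ hspos]
    have h0 : ε * s ^ 2 * s = ε * s ^ 3 := by ring
    rw [h0]
    exact hn
  have h2 : 3 * K / 8 * (ε * s ^ 2) ≤ 3 * K / 8 * (n / s) :=
    mul_le_mul_of_nonneg_left h1 (by positivity)
  have h3 : K * ε = ε + 3 := by
    rw [hKdef]; field_simp
  have h4 : 3 * K / 8 * (ε * s ^ 2) = 3 * (ε + 3) / 8 * s ^ 2 := by
    rw [← h3]; ring
  have h5 : 0 < s ^ 2 := by positivity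
  rw [hs2] at hlt
  nlinarith

end Pool.Agent.H33.Loose
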