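import Pool.Agent.H33.LooseCount

set_option autoImplicit false

open Finset
open Pool.Agent.H33.Nibble

namespace Pool.Agent.H33.Loose

variable {n : ℕ}

/-- Cleaning. -/
lemma clean {H : Finset (Finset (Fin n))} (hH : Unif H) {s F F' : ℝ}
    (J : Finset (Fin n)) (h1 : ∀ u ∈ J, ∀ v ∈ J, ¬ Gs H s F u v) (h2 : ∀ e ∈ H2s H s F', ¬ e ⊆ J) :
    ∃ I : Finset (Fin n), (∀ e ∈ H, ¬ e ⊆ I) ∧
      (J.card : ℝ) - (((Hws H s F F').filter (fun e => e ⊆ J)).card : ℝ) ≤ I.card := by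
  classical
  set R : Finset (Fin n) := ((Hws H s F F').filter (fun e => e ⊆ J)).biUnion
    (fun e => if h : e.Nonempty then {h.choose} else ∅) with hR
  refine ⟨J \ R, ?_, ?_⟩
  · intro e he hsub
    have heJ : e ⊆ J := hsub.trans Finset.sdiff_subset
    by_cases hlow' : Low H s F' e
    · exact h2 e (mem_H2s.2 ⟨he, hlow'⟩) heJ
    · by_cases hlow : Low H s F e
      · have hne : e.Nonempty := by
          rw [← Finset.card_pos, hH e he]; norm_num
        have hmem : hne.choose ∈ R := by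
          rw [hR, Finset.mem_biUnion]
          refine ⟨e, Finset.mem_filter.2 ⟨mem_Hws.2 ⟨he, hlow, hlow'⟩, heJ⟩, ?_⟩
          rw [dif_pos hne]
          exact Finset.mem_singleton_self _
        exact (Finset.mem_sdiff.1 (hsub hne.choose_spec)).2 hmem
      · unfold Low at hlow
        push Not at hlow
        obtain ⟨x, hx, y, hy, hxy, hc⟩ := hlow
        exact h1 x (heJ hx) y (heJ hy) ⟨hxy, hc⟩
  · have hRcard : R.card ≤ ((Hws H s F F').filter (fun e => e ⊆ J)).card := by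
      calc R.card ≤ ∑ e ∈ (Hws H s F F').filter (fun e => e ⊆ J),
            (if h : e.Nonempty then ({h.choose} : Finset (Fin n)) else ∅).card :=
            Finset.card_biUnion_le
        _ ≤ ∑ e ∈ (Hws H s F F').filter (fun e => e ⊆ J), 1 := by
            refine Finset.sum_le_sum fun e _ => ?_
            split_ifs
            · simp
            · simp
        _ = _ := by simp
    have h3 : J.card ≤ (J \ R).card + R.card := by
      exact Finset.card_le_card_sdiff_add_card (s := J) (t := R)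
    have h4 : (J.card : ℝ) ≤ (J \ R).card + R.card := by exact_mod_cast h3
    have h5 : (R.card : ℝ) ≤ (((Hws H s F F').filter (fun e => e ⊆ J)).card : ℝ) := by
      exact_mod_cast hRcard
    linarith

lemma pow_le_two {y : ℝ} {L : ℕ} (hy : 0 ≤ y) (h : L * y ≤ 1 / 2) : (1 + y) ^ L ≤ 2 := by
  have h1 : (1 + y) ^ L ≤ Real.exp (L * y) := by
    rw [Real.exp_nat_mul]
    refine pow_le_pow_left₀ (by linarith) ?_ L
    have := Real.add_one_le_exp y
    linarith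
  refine h1.trans ((Real.exp_le_exp.2 h).trans ?_)
  have h2 : Real.exp (1 / 2) ^ 2 = Real.exp 1 := by
    rw [← Real.exp_nat_mul]; norm_num
  have h3 := Real.exp_one_lt_d9
  have h4 := Real.exp_pos (1 / 2 : ℝ)
  nlinarith


/-! ### Algebra -/

lemma alg2 {L s F K y q0 : ℝ} (hL : 0 < L) (hs : 0 < s) (hq0 : q0 = K / (L * s)) :
    6 * L * (2 * (y * s) * (s * F) * q0 ^ 2) = 12 * F * K ^ 2 / L * y := by
  rw [hq0]; field_simp; ring

lemma alg3 {L s K y q0 : ℝ} (hL : 0 < L) (hs : 0 < s) (hq0 : q0 = K / (L * s)) :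
    162 * L ^ 2 * (14 * (y * s) * s ^ 2 * q0 ^ 3) = 2268 * K ^ 3 / L * y := by
  rw [hq0]; field_simp; ring

lemma alg4 {J s K y : ℝ} (hJ : 0 < J) (hs : 0 < s) :
    2 * ((14 * (y * s) * s ^ 2 / J) * (K / s) ^ 3) = 28 * K ^ 3 / J * y := by
  field_simp; ring

lemma alg5 {d F F' s K y : ℝ} (hF : 0 < F) (hF' : 0 < F') (hs : 0 < s) :
    d * (378 * (y * s) * s ^ 2 * (s / F') * (K / s) ^ 4 +
          378 * (y * s) * s ^ 2 * (s / F') * (s / F) * (K / s) ^ 5)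
      = d * (378 * (K ^ 4 + K ^ 5 / F)) / F' * y := by
  field_simp

lemma alg6 {L Λ s K y q0 : ℝ} (hL : 0 < L) (hs : 0 < s) (hq0 : q0 = K / (L * s)) :
    L ^ 2 * ((y * s) * (Λ * q0) ^ 2) = Λ ^ 2 * K ^ 2 / s * y := by
  rw [hq0]; field_simp

/-- The final numerical estimate. -/
lemma assemble {K J F F' L Λ s y q0 R dL X E2 E3 Ph Up n W : ℝ} (hK : 1 ≤ K)
    (hJ : 224 * K ^ 2 ≤ J) (hF : 1 ≤ F) (hFF : F ≤ F') (hL1 : 96 * F * K ≤ L)
    (hL2 : 18144 * K ^ 2 ≤ L) (hΛ1 : 1 ≤ Λ)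
    (hdL0 : 0 ≤ dL) (hF' : 8 * dL * (378 * (K ^ 4 + K ^ 5)) ≤ F')
    (hs12 : 12 * Λ ^ 4 * K ≤ s) (hs0 : 0 < s) (hq0 : q0 = K / (L * s)) (hR0 : 0 ≤ R) (hR : R ≤ 2)
    (hy0 : 0 ≤ y) (hn : n = y * s)
    (hX : X = n * q0) (hE2 : E2 ≤ 2 * n * (s * F) * q0 ^ 2)
    (hE3 : E3 ≤ 14 * n * s ^ 2 * q0 ^ 3) (hPh : Ph = W * (K / s) ^ 3) (hW0 : 0 ≤ W)
    (hW : J * W ≤ 14 * n * s ^ 2)
    (hUp : Up ≤ 378 * n * s ^ 2 * (s / F') * (K / s) ^ 4 +
      378 * n * s ^ 2 * (s / F') * (s / F) * (K / s) ^ 5) :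
    3 * K / 8 * y ≤ L * X - 3 * L * R * E2 - 81 * L ^ 2 * R * E3 - R * Ph - dL * Up
      - L ^ 2 * (n * (Λ * q0) ^ 2) := by
  have hK0 : 0 < K := by linarith
  have hLpos : 0 < L := by nlinarith
  have hJpos : 0 < J := by nlinarith
  have hFpos : 0 < F := by linarith
  have hF'pos : 0 < F' := by linarith
  have hq0pos : 0 < q0 := by rw [hq0]; positivity
  subst hn
  have tX : L * X = K * y := by
    rw [hX, hq0]; field_simp
  have t2 : 3 * L * R * E2 ≤ K / 8 * y := by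
    have h1 : 3 * L * R ≤ 6 * L := by nlinarith
    calc 3 * L * R * E2
        ≤ 3 * L * R * (2 * (y * s) * (s * F) * q0 ^ 2) :=
          mul_le_mul_of_nonneg_left hE2 (by positivity)
      _ ≤ 6 * L * (2 * (y * s) * (s * F) * q0 ^ 2) :=
          mul_le_mul_of_nonneg_right h1 (by positivity)
      _ = 12 * F * K ^ 2 / L * y := alg2 hLpos hs0 hq0
      _ ≤ K / 8 * y := by
          refine mul_le_mul_of_nonneg_right ?_ hy0
          rw [div_le_div_iff₀ hLpos (by norm_num)]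
          nlinarith
  have t3 : 81 * L ^ 2 * R * E3 ≤ K / 8 * y := by
    have h1 : 81 * L ^ 2 * R ≤ 162 * L ^ 2 := by
      have : 0 < L ^ 2 := by positivity
      nlinarith
    calc 81 * L ^ 2 * R * E3
        ≤ 81 * L ^ 2 * R * (14 * (y * s) * s ^ 2 * q0 ^ 3) :=
          mul_le_mul_of_nonneg_left hE3 (by positivity)
      _ ≤ 162 * L ^ 2 * (14 * (y * s) * s ^ 2 * q0 ^ 3) :=
          mul_le_mul_of_nonneg_right h1 (by positivity)
      _ = 2268 * K ^ 3 / L * y := alg3 hLpos hs0 hq0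
      _ ≤ K / 8 * y := by
          refine mul_le_mul_of_nonneg_right ?_ hy0
          rw [div_le_div_iff₀ hLpos (by norm_num)]
          nlinarith
  have t4 : R * Ph ≤ K / 8 * y := by
    rw [hPh]
    have h1 : W ≤ 14 * (y * s) * s ^ 2 / J := by
      rw [le_div_iff₀ hJpos]
      linarith
    calc R * (W * (K / s) ^ 3)
        ≤ 2 * ((14 * (y * s) * s ^ 2 / J) * (K / s) ^ 3) := by
          refine mul_le_mul hR (mul_le_mul_of_nonneg_right h1 (by positivity)) (by positivity)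
            (by norm_num)
      _ = 28 * K ^ 3 / J * y := alg4 hJpos hs0
      _ ≤ K / 8 * y := by
          refine mul_le_mul_of_nonneg_right ?_ hy0
          rw [div_le_div_iff₀ hJpos (by norm_num)]
          nlinarith
  have t5 : dL * Up ≤ K / 8 * y := by
    calc dL * Up
        ≤ dL * (378 * (y * s) * s ^ 2 * (s / F') * (K / s) ^ 4 +
          378 * (y * s) * s ^ 2 * (s / F') * (s / F) * (K / s) ^ 5) :=
          mul_le_mul_of_nonneg_left hUp hdL0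
      _ = dL * (378 * (K ^ 4 + K ^ 5 / F)) / F' * y := alg5 hFpos hF'pos hs0
      _ ≤ K / 8 * y := by
          refine mul_le_mul_of_nonneg_right ?_ hy0
          rw [div_le_div_iff₀ hF'pos (by norm_num)]
          have h1 : K ^ 5 / F ≤ K ^ 5 := div_le_self (by positivity) hF
          have h2 : dL * (378 * (K ^ 4 + K ^ 5 / F)) ≤ dL * (378 * (K ^ 4 + K ^ 5)) := by
            refine mul_le_mul_of_nonneg_left ?_ hdL0
            linarith
          have h3 : F' ≤ K * F' := by nlinarith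
          linarith
  have t6 : L ^ 2 * ((y * s) * (Λ * q0) ^ 2) ≤ K / 8 * y := by
    rw [alg6 hLpos hs0 hq0]
    refine mul_le_mul_of_nonneg_right ?_ hy0
    rw [div_le_div_iff₀ hs0 (by norm_num)]
    have h1 : Λ ^ 2 ≤ Λ ^ 4 := pow_le_pow_right₀ hΛ1 (by norm_num)
    have h2 : 8 * (Λ ^ 2 * K) ≤ s := by
      have h3 : Λ ^ 2 * K ≤ Λ ^ 4 * K := mul_le_mul_of_nonneg_right h1 hK0.le
      have h4 : 0 ≤ Λ ^ 4 * K := by positivity
      linarith
    nlinarith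
  rw [tX]
  linarith

/-! ### The initial quantities -/

section
variable (H : Finset (Finset (Fin n))) (hL : NoLT H) (hH : Unif H)
    (s F F' q0 lam : ℝ) (hF : 0 < F) (hFF : F ≤ F') (hs : 10 ≤ s / F) (hq0 : 0 < q0)
    (hlam : 0 < lam) (hsmall : Real.exp lam * q0 ≤ 1 / 2)

include hL hH in
lemma init_XX :
    (mkSys H hL hH s F F' q0 lam hF hFF hs hq0 hlam hsmall).XX univ (fun _ => q0) = n * q0 := by
  unfold Sys.XX
  rw [Finset.sum_const, Finset.card_univ, Fintype.card_fin, nsmul_eq_mul]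
  have : (mkSys H hL hH s F F' q0 lam hF hFF hs hq0 hlam hsmall).q0 = q0 := rfl
  rw [this, div_self hq0.ne', Real.log_one]
  simp

lemma init_E2 (t : ℕ) (hα : ∀ S : Finset (Fin n), (∀ e ∈ H, ¬ e ⊆ S) → S.card ≤ t)
    (hts : (t : ℝ) = s ^ 2) (hs0 : 0 < s) :
    (mkSys H hL hH s F F' q0 lam hF hFF hs hq0 hlam hsmall).E2 ∅ univ (fun _ => q0) ≤
      2 * n * (s * F) * q0 ^ 2 := by
  set P := mkSys H hL hH s F F' q0 lam hF hFF hs hq0 hlam hsmall with hP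
  have h1 : P.E2 ∅ univ (fun _ => q0) =
      (((univ : Finset (Fin n)).sigma (fun u => P.Nb ∅ univ u)).card : ℝ) * q0 ^ 2 := by
    unfold Sys.E2
    rw [Finset.sum_sigma' univ (fun u => P.Nb ∅ univ u) (fun _ _ => q0 * q0), Finset.sum_const,
      nsmul_eq_mul]
    ring
  rw [h1]
  refine mul_le_mul_of_nonneg_right ?_ (by positivity)
  set D2 := ((univ : Finset (Fin n)).sigma (fun u => P.Nb ∅ univ u)).image
    (fun p => ((p.1, p.2) : Fin n × Fin n)) with hD2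
  have hcard : D2.card = ((univ : Finset (Fin n)).sigma (fun u => P.Nb ∅ univ u)).card := by
    rw [hD2]
    apply Finset.card_image_of_injective
    rintro ⟨a, b⟩ ⟨c, d⟩ h
    simp only [Prod.mk.injEq] at h
    obtain ⟨rfl, rfl⟩ := h
    rfl
  rw [← hcard]
  have hG := hL.card_G hH t hα hs D2 (by
    intro p hp
    obtain ⟨⟨u, v⟩, hx, rfl⟩ := Finset.mem_image.1 hp
    rw [Finset.mem_sigma, Sys.mem_Nb] at hx
    rcases hx.2.2 with h | ⟨a, ha, _⟩
    · exact h.2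
    · exact absurd ha (Finset.notMem_empty a))
  rw [hts] at hG
  generalize (D2.card : ℝ) = x at hG
  have h3 : x * (s / F) * (F / s) = x := by
    rw [mul_assoc, div_mul_div_comm, mul_comm s F, div_self (by positivity), mul_one]
  have h4 : 2 * n * s ^ 2 * (F / s) = 2 * n * (s * F) := by field_simp
  calc x = x * (s / F) * (F / s) := h3.symm
    _ ≤ 2 * n * s ^ 2 * (F / s) := mul_le_mul_of_nonneg_right hG (by positivity)
    _ = 2 * n * (s * F) := h4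

lemma init_E3 :
    (mkSys H hL hH s F F' q0 lam hF hFF hs hq0 hlam hsmall).E3 univ (fun _ => q0) ≤
      (H.card : ℝ) * q0 ^ 3 := by
  set P := mkSys H hL hH s F F' q0 lam hF hFF hs hq0 hlam hsmall with hP
  unfold Sys.E3
  calc ∑ e ∈ P.H2 with e ⊆ univ, ∏ x ∈ e, q0 = ∑ e ∈ P.H2 with e ⊆ univ, q0 ^ 3 := by
        refine Finset.sum_congr rfl fun e he => ?_
        rw [Finset.prod_const, P.H2card e (Finset.mem_filter.1 he).1]
    _ = ((P.H2.filter (fun e => e ⊆ univ)).card : ℝ) * q0 ^ 3 := by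
        rw [Finset.sum_const, nsmul_eq_mul]
    _ ≤ (H.card : ℝ) * q0 ^ 3 := by
        refine mul_le_mul_of_nonneg_right ?_ (by positivity)
        have : (P.H2.filter (fun e => e ⊆ univ)).card ≤ H.card :=
          Finset.card_le_card fun e he =>
            (mem_H2s.1 (Finset.mem_filter.1 he).1).1
        exact_mod_cast this

lemma init_Ph (r κ : ℝ) (hr : r * q0 = κ) :
    (mkSys H hL hH s F F' q0 lam hF hFF hs hq0 hlam hsmall).Ph r ∅ univ (fun _ => q0) =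
      ((Hws H s F F').card : ℝ) * κ ^ 3 := by
  set P := mkSys H hL hH s F F' q0 lam hF hFF hs hq0 hlam hsmall with hP
  have hphi : ∀ x : Fin n, phi r ∅ univ (fun _ => q0) x = κ := by
    intro x
    unfold phi
    rw [if_neg (Finset.notMem_empty x), if_pos (Finset.mem_univ x), hr]
  unfold Sys.Ph
  calc ∑ e ∈ P.Hw, ∏ x ∈ e, phi r ∅ univ (fun _ => q0) x
      = ∑ e ∈ P.Hw, κ ^ 3 := by
        refine Finset.sum_congr rfl fun e he => ?_
        rw [Finset.prod_congr rfl fun x _ => hphi x, Finset.prod_const, P.Hwcard e he]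
    _ = ((Hws H s F F').card : ℝ) * κ ^ 3 := by
        rw [Finset.sum_const, nsmul_eq_mul]
        rfl

lemma init_Up (r κ C : ℝ) (hr : r * q0 = κ) (hκ : 0 ≤ κ) (hC : (H.card : ℝ) ≤ 14 * C)
    (hsF' : 0 ≤ s / F') :
    (mkSys H hL hH s F F' q0 lam hF hFF hs hq0 hlam hsmall).Up r ∅ univ (fun _ => q0) ≤
      378 * C * (s / F') * κ ^ 4 + 378 * C * (s / F') * (s / F) * κ ^ 5 := by
  set P := mkSys H hL hH s F F' q0 lam hF hFF hs hq0 hlam hsmall with hP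
  have hphi : ∀ x : Fin n, phi r ∅ univ (fun _ => q0) x = κ := by
    intro x
    unfold phi
    rw [if_neg (Finset.notMem_empty x), if_pos (Finset.mem_univ x), hr]
  have hsF : 0 ≤ s / F := by linarith
  have hT4 := card_T4 hH hsF' (s := s) (F' := F')
  have hT4' : ((T4 H s F').card : ℝ) ≤ 378 * C * (s / F') := by
    refine hT4.trans ?_
    refine mul_le_mul_of_nonneg_right ?_ hsF'
    linarith
  have hT5 := card_T5 (H := H) (F' := F') hsF
  have hT5' : ((T5 H s F F').card : ℝ) ≤ 378 * C * (s / F') * (s / F) :=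
    hT5.trans (mul_le_mul_of_nonneg_right hT4' hsF)
  have h1 : P.Up r ∅ univ (fun _ => q0) = ∑ B ∈ BBs H s F F', κ ^ B.card := by
    unfold Sys.Up
    refine Finset.sum_congr rfl fun B _ => ?_
    rw [Finset.prod_congr rfl fun x _ => hphi x, Finset.prod_const]
  rw [h1]
  have h2 : ∑ B ∈ BBs H s F F', κ ^ B.card ≤
      ∑ B ∈ (T4 H s F').image set4, κ ^ B.card +
      ∑ B ∈ (T5 H s F F').image set5, κ ^ B.card := by
    unfold BBs
    rw [← Finset.sum_union_inter]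
    have : 0 ≤ ∑ B ∈ (T4 H s F').image set4 ∩ (T5 H s F F').image set5, κ ^ B.card :=
      Finset.sum_nonneg fun B _ => pow_nonneg hκ _
    linarith
  refine h2.trans (add_le_add ?_ ?_)
  · calc ∑ B ∈ (T4 H s F').image set4, κ ^ B.card
        = ∑ B ∈ (T4 H s F').image set4, κ ^ 4 := by
          refine Finset.sum_congr rfl fun B hB => ?_
          obtain ⟨t, ht, rfl⟩ := Finset.mem_image.1 hB
          rw [card_set4 hH ht]
      _ = (((T4 H s F').image set4).card : ℝ) * κ ^ 4 := by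
          rw [Finset.sum_const, nsmul_eq_mul]
      _ ≤ ((T4 H s F').card : ℝ) * κ ^ 4 := by
          refine mul_le_mul_of_nonneg_right ?_ (pow_nonneg hκ 4)
          exact_mod_cast Finset.card_image_le
      _ ≤ _ := mul_le_mul_of_nonneg_right hT4' (pow_nonneg hκ 4)
  · calc ∑ B ∈ (T5 H s F F').image set5, κ ^ B.card
        = ∑ B ∈ (T5 H s F F').image set5, κ ^ 5 := by
          refine Finset.sum_congr rfl fun B hB => ?_
          obtain ⟨t, ht, rfl⟩ := Finset.mem_image.1 hB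
          rw [card_set5 hH ht]
      _ = (((T5 H s F F').image set5).card : ℝ) * κ ^ 5 := by
          rw [Finset.sum_const, nsmul_eq_mul]
      _ ≤ ((T5 H s F F').card : ℝ) * κ ^ 5 := by
          refine mul_le_mul_of_nonneg_right ?_ (pow_nonneg hκ 5)
          exact_mod_cast Finset.card_image_le
      _ ≤ _ := mul_le_mul_of_nonneg_right hT5' (pow_nonneg hκ 5)

end

/-! ### The recursions -/

lemma rec_a {L r : ℕ} {ρ : ℝ} (hr : r < L) (hρ1 : 1 ≤ ρ) :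
    1 + (r : ℝ) * (2 / L) + ρ * (3 * r * ρ ^ r) ≤ 3 * ((r + 1 : ℕ) : ℝ) * ρ ^ (r + 1) := by
  have hLpos : (0 : ℝ) < L := by
    have : 0 < L := lt_of_le_of_lt (Nat.zero_le _) hr
    exact_mod_cast this
  have h1 : (r : ℝ) * (2 / L) ≤ 2 := by
    have : (r : ℝ) ≤ L := by exact_mod_cast hr.le
    calc (r : ℝ) * (2 / L) = 2 * (r / L) := by ring
      _ ≤ 2 * 1 := by
          have := (div_le_one hLpos).2 this
          linarith
      _ = 2 := by norm_num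
  have h2 : 1 ≤ ρ ^ (r + 1) := one_le_pow₀ hρ1
  push_cast
  have h3 : 3 * ((r : ℝ) + 1) * ρ ^ (r + 1) = ρ * (3 * r * ρ ^ r) + 3 * ρ ^ (r + 1) := by ring
  rw [h3]
  linarith

lemma rec_b {r : ℕ} {ρ : ℝ} (hρ1 : 1 ≤ ρ) :
    3 * ((r : ℝ) + 1) + 27 * (ρ * (3 * r * ρ ^ r)) + ρ * (81 * r ^ 2 * ρ ^ r) ≤
      81 * ((r + 1 : ℕ) : ℝ) ^ 2 * ρ ^ (r + 1) := by
  have h2 : 1 ≤ ρ ^ (r + 1) := one_le_pow₀ hρ1
  have hr0 : (0:ℝ) ≤ r := Nat.cast_nonneg r
  push_cast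
  have h3 : 81 * ((r : ℝ) + 1) ^ 2 * ρ ^ (r + 1) = ρ * (81 * r ^ 2 * ρ ^ r)
    + 27 * (ρ * (3 * r * ρ ^ r)) + 81 * (r + 1) * ρ ^ (r + 1) := by ring
  rw [h3]
  nlinarith

lemma rec_d {L r : ℕ} {ρ Λ D : ℝ} (hr : r < L) (hρ1 : 1 ≤ ρ) (hΛ1 : 1 ≤ Λ)
    (hρr : ρ ^ r ≤ 2) (hD : D = Λ ^ 3 * (786000 * L + 777600 * L ^ 2 + 9600)) :
    131000 * Λ ^ 3 * (3 * r * ρ ^ r) + 4800 * Λ ^ 3 * (81 * r ^ 2 * ρ ^ r)
      + 4800 * Λ ^ 3 * ρ ^ r + Λ ^ 5 * (D * r * Λ ^ (5 * r)) ≤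
      D * ((r + 1 : ℕ) : ℝ) * Λ ^ (5 * (r + 1)) := by
  have hLpos : (0 : ℝ) < L := by
    have : 0 < L := lt_of_le_of_lt (Nat.zero_le _) hr
    exact_mod_cast this
  have hΛ0 : 0 < Λ := by linarith
  have hD0 : 0 ≤ D := by rw [hD]; positivity
  have h1 : D ≤ D * Λ ^ (5 * (r + 1)) := by
    have : 1 ≤ Λ ^ (5 * (r + 1)) := one_le_pow₀ hΛ1
    nlinarith
  have h2' : 0 < ρ ^ r := by positivity
  have hrL : (r : ℝ) ≤ L := by exact_mod_cast hr.le
  have hr0 : (0:ℝ) ≤ r := Nat.cast_nonneg r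
  have h3 : D * ((r + 1 : ℕ) : ℝ) * Λ ^ (5 * (r + 1)) = Λ ^ 5 * (D * r * Λ ^ (5 * r))
    + D * Λ ^ (5 * (r + 1)) := by push_cast; ring
  rw [h3]
  have h4 : 131000 * Λ ^ 3 * (3 * r * ρ ^ r) + 4800 * Λ ^ 3 * (81 * r ^ 2 * ρ ^ r)
      + 4800 * Λ ^ 3 * ρ ^ r ≤ D := by
    rw [hD]
    have e1 : (r : ℝ) * ρ ^ r ≤ L * 2 := mul_le_mul hrL hρr h2'.le hLpos.le
    have e2 : (r : ℝ) ^ 2 * ρ ^ r ≤ L ^ 2 * 2 :=
      mul_le_mul (pow_le_pow_left₀ hr0 hrL 2) hρr h2'.le (by positivity)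
    have e3 : 131000 * (3 * (r * ρ ^ r)) + 4800 * (81 * (r ^ 2 * ρ ^ r)) + 4800 * ρ ^ r
      ≤ 786000 * L + 777600 * L ^ 2 + 9600 := by linarith
    have e4 : 0 ≤ Λ ^ 3 := by positivity
    have e5 := mul_le_mul_of_nonneg_left e3 e4
    linarith
  linarith

lemma rec_g {r : ℕ} {x : ℝ} (hx : 0 ≤ x) :
    (r : ℝ) ^ 2 * x + r * x ≤ ((r + 1 : ℕ) : ℝ) ^ 2 * x := by
  push_cast
  have hr0 : (0:ℝ) ≤ r := Nat.cast_nonneg r
  nlinarith

/-- The estimate for one window, in terms of the system. -/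
lemma window_aux {K : ℝ} (hK : 1 ≤ K) {J : ℕ} (hJ : 224 * K ^ 2 ≤ J) {F F' : ℝ} (hF : 1 ≤ F)
    (hFF : F ≤ F') {L : ℕ} (hL1 : 96 * F * K ≤ L) (hL2 : 18144 * K ^ 2 ≤ L)
    {Λ D : ℝ} (hΛ : Λ = Real.exp L) (hD : D = Λ ^ 3 * (786000 * L + 777600 * L ^ 2 + 9600))
    (hF' : 8 * (D * L * Λ ^ (5 * L)) * (378 * (K ^ 4 + K ^ 5)) ≤ F')
    {s : ℝ} (hs1 : 10 * F' + 12 * Λ ^ 4 * K ≤ s) {n t : ℕ} (H : Finset (Finset (Fin n)))
    (hts : (t : ℝ) = s ^ 2) (hL : NoLT H) (hH : Unif H)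
    (hα : ∀ S : Finset (Fin n), (∀ e ∈ H, ¬ e ⊆ S) → S.card ≤ t)
    (hw : (J : ℝ) * (Hws H s F F').card ≤ H.card) :
    ∃ I : Finset (Fin n), (∀ e ∈ H, ¬ e ⊆ I) ∧ 3 * K / 8 * (n / s) ≤ I.card := by
  have hK0 : 0 < K := by linarith
  have hLpos : (0 : ℝ) < L := by nlinarith
  have hL1' : 1 ≤ L := by
    have : (0:ℝ) < L := hLpos
    exact_mod_cast this
  have hΛ1 : 1 ≤ Λ := by rw [hΛ]; exact Real.one_le_exp hLpos.le
  have hΛ0 : 0 < Λ := by linarith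
  have hFpos : 0 < F := by linarith
  have hF'pos : 0 < F' := by linarith
  have hpos12 : 0 < 12 * Λ ^ 4 * K := by positivity
  have hs0 : 0 < s := by linarith
  have hs10 : 10 ≤ s / F := by
    rw [le_div_iff₀ hFpos]
    linarith
  have hs12 : 12 * Λ ^ 4 * K ≤ s := by linarith
  obtain ⟨q0, hq0⟩ : ∃ q0 : ℝ, q0 = K / (L * s) := ⟨_, rfl⟩
  have hq0pos : 0 < q0 := by rw [hq0]; positivity
  have hLq0 : L * q0 = K / s := by rw [hq0]; field_simp
  have hKs0 : 0 < K / s := by positivity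
  have hq0K : q0 ≤ K / s := by
    rw [← hLq0]
    have : (1:ℝ) ≤ L := by exact_mod_cast hL1'
    nlinarith
  have hsmall : Real.exp (L : ℝ) * q0 ≤ 1 / 2 := by
    rw [← hΛ]
    have hΛK : Λ * K ≤ Λ ^ 4 * K := by
      have : Λ ≤ Λ ^ 4 := by
        calc Λ = Λ ^ 1 := (pow_one _).symm
          _ ≤ Λ ^ 4 := pow_le_pow_right₀ hΛ1 (by norm_num)
      exact mul_le_mul_of_nonneg_right this hK0.le
    calc Λ * q0 ≤ Λ * (K / s) := mul_le_mul_of_nonneg_left hq0K hΛ0.le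
      _ = Λ * K / s := by ring
      _ ≤ 1 / 2 := by
          rw [div_le_iff₀ hs0]
          have := mul_pos hΛ0 hK0
          linarith
  obtain ⟨ρ, hρ⟩ : ∃ ρ : ℝ, ρ = 1 + 6 * Λ ^ 4 * q0 := ⟨_, rfl⟩
  have hρ1 : 1 ≤ ρ := by
    have : 0 < 6 * Λ ^ 4 * q0 := by positivity
    linarith
  have hρL : ρ ^ L ≤ 2 := by
    rw [hρ]
    refine pow_le_two (by positivity) ?_
    have : L * (6 * Λ ^ 4 * q0) = 6 * Λ ^ 4 * K / s := by
      calc L * (6 * Λ ^ 4 * q0) = 6 * Λ ^ 4 * (L * q0) := by ring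
        _ = _ := by rw [hLq0]; ring
    rw [this, div_le_iff₀ hs0]
    linarith
  have hρ0 : 0 ≤ ρ := by linarith
  have hρr : ∀ r ≤ L, ρ ^ r ≤ 2 := fun r hr => (pow_le_pow_right₀ hρ1 hr).trans hρL
  have hD0 : 0 ≤ D := by rw [hD]; positivity
  have hdL0 : 0 ≤ D * L * Λ ^ (5 * L) := by positivity
  have hx0 : (0:ℝ) ≤ n * (Λ * q0) ^ 2 := by positivity
  have hHcard : (H.card : ℝ) ≤ 14 * n * s ^ 2 := by
    have := hL.edges hH t hα
    have h1 : (H.card : ℝ) ≤ 14 * n * t := by exact_mod_cast this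
    rwa [hts] at h1
  have hsF' : 0 ≤ s / F' := by positivity
  -- the initial quantities
  have iX := init_XX H hL hH s F F' q0 L hFpos hFF hs10 hq0pos hLpos hsmall
  have i2 := init_E2 H hL hH s F F' q0 L hFpos hFF hs10 hq0pos hLpos hsmall t hα hts hs0
  have i3 := (init_E3 H hL hH s F F' q0 L hFpos hFF hs10 hq0pos hLpos hsmall).trans
    (mul_le_mul_of_nonneg_right hHcard (pow_nonneg hq0pos.le 3))
  have iP := init_Ph H hL hH s F F' q0 L hFpos hFF hs10 hq0pos hLpos hsmall L (K / s) hLq0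
  have iU := init_Up H hL hH s F F' q0 L hFpos hFF hs10 hq0pos hLpos hsmall L (K / s) (n * s ^ 2)
    hLq0 hKs0.le (by linarith) hsF'
  obtain ⟨P, hP⟩ : ∃ P, P = mkSys H hL hH s F F' q0 L hFpos hFF hs10 hq0pos hLpos hsmall :=
    ⟨_, rfl⟩
  rw [← hP] at iX i2 i3 iP iU
  have hPLam : P.Lam = Λ := by rw [hP, hΛ]; rfl
  have hPq0 : P.q0 = q0 := by rw [hP]; rfl
  have hPlam : P.lam = L := by rw [hP]; rfl
  have hPG : P.G = Gs H s F := by rw [hP]; rfl
  have hPH2 : P.H2 = H2s H s F' := by rw [hP]; rfl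
  have hPHw : P.Hw = Hws H s F F' := by rw [hP]; rfl
  clear hP
  -- apply the main theorem
  obtain ⟨J', -, hJG, hJH, hJ'⟩ := Sys.main P n L
    (fun r => 3 * r * ρ ^ r) (fun r => 81 * r ^ 2 * ρ ^ r) (fun r => ρ ^ r)
    (fun r => D * r * Λ ^ (5 * r)) (fun r => r ^ 2 * (n * (Λ * q0) ^ 2))
    (fun r => by positivity) (fun r => by positivity) (fun r => by positivity)
    (fun r => by positivity) (by positivity) (by simp)
    (by
      intro r hr
      rw [hPLam, hPq0, hPlam, ← hρ]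
      exact rec_a hr hρ1)
    (by
      intro r hr
      rw [hPLam, hPq0, ← hρ]
      exact rec_b hρ1)
    (by
      intro r hr
      rw [hPLam, hPq0, ← hρ]
      exact (pow_succ' ρ r).ge)
    (by
      intro r hr
      rw [hPLam]
      exact rec_d hr hρ1 hΛ1 (hρr r hr.le) hD)
    (by
      intro r hr
      rw [hPLam, hPq0]
      exact rec_g hx0)
    L le_rfl ∅ univ (fun _ => q0) (Finset.disjoint_empty_left _)
    (by
      intro v _
      rw [hPLam, hPq0]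
      refine ⟨le_rfl, ?_⟩
      exact le_mul_of_one_le_left hq0pos.le hΛ1)
    (by rw [Finset.card_univ, Fintype.card_fin])
  -- cleaning
  have hG1 : ∀ u ∈ J', ∀ v ∈ J', ¬ Gs H s F u v := fun u hu v hv hG =>
    hJG u hu v hv (Or.inl (by rw [hPG]; exact hG))
  rw [hPH2] at hJH
  obtain ⟨I, hI, hIcard⟩ := clean (F' := F') hH J' hG1 hJH
  refine ⟨I, hI, le_trans ?_ hIcard⟩
  rw [Finset.empty_union, hPHw] at hJ'
  refine le_trans ?_ hJ'
  have hy0 : 0 ≤ (n : ℝ) / s := by positivity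
  have hn : (n : ℝ) = n / s * s := by field_simp
  exact assemble hK hJ hF hFF hL1 hL2 hΛ1 hdL0 hF' hs12 hs0 hq0 (pow_nonneg hρ0 L) hρL hy0 hn iX i2
    i3 iP (Nat.cast_nonneg _) (hw.trans hHcard) (by
      have : 378 * (n : ℝ) * s ^ 2 * (s / F') * (K / s) ^ 4 +
        378 * n * s ^ 2 * (s / F') * (s / F) * (K / s) ^ 5 = 378 * ((n : ℝ) * s ^ 2) * (s / F') *
        (K / s) ^ 4 + 378 * (n * s ^ 2) * (s / F') * (s / F) * (K / s) ^ 5 := by ring
      rw [this]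
      exact iU)

/-- The estimate for one window. -/
theorem window {K : ℝ} (hK : 1 ≤ K) {J : ℕ} (hJ : 224 * K ^ 2 ≤ J) (F : ℝ) (hF : 1 ≤ F) :
    ∃ F' : ℝ, F ≤ F' ∧ ∃ s0 : ℝ, ∀ s : ℝ, s0 ≤ s → ∀ (n t : ℕ)
      (H : Finset (Finset (Fin n))), (t : ℝ) = s ^ 2 → NoLT H → Unif H →
      (∀ S : Finset (Fin n), (∀ e ∈ H, ¬ e ⊆ S) → S.card ≤ t) →
      (J : ℝ) * (Hws H s F F').card ≤ H.card →
      ∃ I : Finset (Fin n), (∀ e ∈ H, ¬ e ⊆ I) ∧ 3 * K / 8 * (n / s) ≤ I.card := by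
  obtain ⟨L, hL⟩ := exists_nat_ge (96 * F * K + 18144 * K ^ 2)
  have h1 : 0 ≤ 96 * F * K := by positivity
  have h2 : 0 ≤ 18144 * K ^ 2 := by positivity
  obtain ⟨Λ, hΛ⟩ : ∃ Λ : ℝ, Λ = Real.exp L := ⟨_, rfl⟩
  have hΛ0 : 0 < Λ := by rw [hΛ]; exact Real.exp_pos _
  obtain ⟨D, hD⟩ : ∃ D : ℝ, D = Λ ^ 3 * (786000 * L + 777600 * L ^ 2 + 9600) := ⟨_, rfl⟩
  have hD0 : 0 ≤ D := by rw [hD]; positivity
  obtain ⟨E, hE⟩ : ∃ E : ℝ, E = 8 * (D * L * Λ ^ (5 * L)) * (378 * (K ^ 4 + K ^ 5)) := ⟨_, rfl⟩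
  have h3 : 0 ≤ E := by rw [hE]; positivity
  refine ⟨F + E, by linarith, 10 * (F + E) + 12 * Λ ^ 4 * K, ?_⟩
  intro s hs n t H hts hLT hH hα hw
  exact window_aux hK hJ hF (by linarith) (by linarith) (by linarith) hΛ hD (by rw [← hE]; linarith)
    hs H hts hLT hH hα hw

end Pool.Agent.H33.Loose
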