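import Pool.Agent.H33.RandSub

set_option autoImplicit false

open Finset
open Pool.Agent.H33.Rand

namespace Pool.Agent.H33.Nibble

/-- The data of the weighted nibble. -/
structure Sys (α : Type*) [DecidableEq α] where
  G : α → α → Prop
  H2 : Finset (Finset α)
  Hw : Finset (Finset α)
  BB : Finset (Finset α)
  q0 : ℝ
  lam : ℝ
  Gsymm : ∀ u v, G u v → G v u
  Girr : ∀ u, ¬ G u u
  H2card : ∀ e ∈ H2, e.card = 3
  Hwcard : ∀ e ∈ Hw, e.card = 3
  BBcard : ∀ B ∈ BB, B.card ≤ 5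
  q0pos : 0 < q0
  lampos : 0 < lam
  small : Real.exp lam * q0 ≤ 1 / 2
  T2 : ∀ S V : Finset α, Disjoint S V → ∀ u ∈ V, ∀ v ∈ V, u ≠ v →
    (G u v ∨ ∃ a ∈ S, ({a, u, v} : Finset α) ∈ H2) →
    ∃ c, ∀ z ∈ V, z ≠ c → (G u z ∨ ∃ a ∈ S, ({a, u, z} : Finset α) ∈ H2) →
      (G v z ∨ ∃ a ∈ S, ({a, v, z} : Finset α) ∈ H2) →
      ∃ a ∈ S, ({u, v, a, z} : Finset α) ∈ BB
  T3 : ∀ S V : Finset α, Disjoint S V → ∀ e ∈ H2 ∪ Hw, ∀ u ∈ e, ∀ v ∈ e, u ≠ v → u ∈ V → v ∈ V →
    ∃ c, ∀ z ∈ V, z ≠ c → (G u z ∨ ∃ a ∈ S, ({a, u, z} : Finset α) ∈ H2) →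
      (G v z ∨ ∃ a ∈ S, ({a, v, z} : Finset α) ∈ H2) →
      ∃ a ∈ S, insert z (insert a e) ∈ BB

variable {α : Type*} [DecidableEq α] (P : Sys α)

/-- The current graph. -/
def Sys.GS (S : Finset α) (u v : α) : Prop :=
  P.G u v ∨ ∃ a ∈ S, ({a, u, v} : Finset α) ∈ P.H2

lemma Sys.GS_symm {S : Finset α} {u v : α} (h : P.GS S u v) : P.GS S v u := by
  rcases h with h | ⟨a, ha, h⟩
  · exact Or.inl (P.Gsymm _ _ h)
  · refine Or.inr ⟨a, ha, ?_⟩
    rwa [Finset.pair_comm v u]

lemma Sys.GS_irr {S : Finset α} {u : α} (h : P.GS S u u) : False := by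
  rcases h with h | ⟨a, ha, h⟩
  · exact P.Girr _ h
  · have h3 := P.H2card _ h
    have h2 : ({a, u, u} : Finset α).card ≤ 2 := by
      rw [Finset.pair_eq_singleton]
      exact Finset.card_le_two
    omega

lemma Sys.GS_mono {S S' : Finset α} (hS : S ⊆ S') {u v : α} (h : P.GS S u v) :
    P.GS S' u v := by
  rcases h with h | ⟨a, ha, h⟩
  · exact Or.inl h
  · exact Or.inr ⟨a, hS ha, h⟩

/-- `Λ = exp λ`. -/
noncomputable def Sys.Lam : ℝ := Real.exp P.lam

open scoped Classical in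
/-- Neighbourhood inside `V`. -/
noncomputable def Sys.Nb (S V : Finset α) (u : α) : Finset α := V.filter (fun z => P.GS S u z)

/-- Probability that no neighbour is selected. -/
noncomputable def Sys.pr (S V : Finset α) (q : α → ℝ) (u : α) : ℝ := ∏ z ∈ P.Nb S V u, (1 - q z)

/-- The compensated weight. -/
noncomputable def Sys.qn (S V : Finset α) (q : α → ℝ) (u : α) : ℝ := q u / P.pr S V q u

open scoped Classical in
/-- The surviving vertices. -/
noncomputable def Sys.Vn (S V : Finset α) (q : α → ℝ) (A : Finset α) : Finset α :=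
  V.filter (fun v => v ∉ A ∧ Disjoint (P.Nb S V v) A ∧
    (∀ a ∈ A, ∀ b ∈ A, ({v, a, b} : Finset α) ∉ P.H2) ∧ P.qn S V q v ≤ P.Lam * P.q0)

/-- Admissible weights. -/
def Sys.Good (V : Finset α) (q : α → ℝ) : Prop := ∀ v ∈ V, P.q0 ≤ q v ∧ q v ≤ P.Lam * P.q0

/-- Weighted common neighbourhood. -/
noncomputable def Sys.th (S V : Finset α) (q : α → ℝ) (u v : α) : ℝ :=
  ∑ z ∈ P.Nb S V u ∩ P.Nb S V v, q z

variable {P}

lemma Sys.one_le_Lam : 1 ≤ P.Lam := Real.one_le_exp P.lampos.le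

lemma Sys.Lam_pos : 0 < P.Lam := Real.exp_pos _

lemma Sys.Lamq0 : P.Lam * P.q0 ≤ 1 / 2 := P.small

lemma Sys.Good.pos {V : Finset α} {q : α → ℝ} (h : P.Good V q) {v : α} (hv : v ∈ V) : 0 < q v :=
  lt_of_lt_of_le P.q0pos (h v hv).1

lemma Sys.Good.le_half {V : Finset α} {q : α → ℝ} (h : P.Good V q) {v : α} (hv : v ∈ V) :
    q v ≤ 1 / 2 := (h v hv).2.trans Sys.Lamq0

lemma Sys.mem_Nb {S V : Finset α} {u z : α} : z ∈ P.Nb S V u ↔ z ∈ V ∧ P.GS S u z := by
  classical
  simp [Sys.Nb]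

lemma Sys.Nb_subset (S V : Finset α) (u : α) : P.Nb S V u ⊆ V :=
  fun _ hz => (Sys.mem_Nb.1 hz).1

lemma Sys.Good.pr_pos {V : Finset α} {q : α → ℝ} (h : P.Good V q) (S : Finset α) (u : α) :
    0 < P.pr S V q u := by
  unfold Sys.pr
  exact Finset.prod_pos fun z hz => by
    have := h.le_half (Sys.Nb_subset S V u hz); linarith

lemma Sys.Good.pr_le_one {V : Finset α} {q : α → ℝ} (h : P.Good V q) (S : Finset α) (u : α) :
    P.pr S V q u ≤ 1 := by
  unfold Sys.pr
  refine Finset.prod_le_one (fun z hz => ?_) fun z hz => ?_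
  · have := h.le_half (Sys.Nb_subset S V u hz); linarith
  · have := h.pos (Sys.Nb_subset S V u hz); linarith

lemma Sys.Good.le_qn {V : Finset α} {q : α → ℝ} (h : P.Good V q) (S : Finset α) {u : α}
    (hu : u ∈ V) : q u ≤ P.qn S V q u := by
  unfold Sys.qn
  rw [le_div_iff₀ (h.pr_pos S u)]
  have := h.pr_le_one S u
  have := h.pos hu
  nlinarith

lemma Sys.mem_Vn {S V : Finset α} {q : α → ℝ} {A : Finset α} {v : α} :
    v ∈ P.Vn S V q A ↔ v ∈ V ∧ v ∉ A ∧ Disjoint (P.Nb S V v) A ∧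
    (∀ a ∈ A, ∀ b ∈ A, ({v, a, b} : Finset α) ∉ P.H2) ∧ P.qn S V q v ≤ P.Lam * P.q0 := by
  classical
  unfold Sys.Vn; exact Finset.mem_filter

lemma Sys.Vn_subset (S V : Finset α) (q : α → ℝ) (A : Finset α) : P.Vn S V q A ⊆ V :=
  fun _ hz => (Sys.mem_Vn.1 hz).1

lemma Sys.Good.next {V : Finset α} {q : α → ℝ} (h : P.Good V q) (S A : Finset α) :
    P.Good (P.Vn S V q A) (P.qn S V q) := by
  intro v hv
  have hv' := Sys.mem_Vn.1 hv
  exact ⟨(h v hv'.1).1.trans (h.le_qn S hv'.1), hv'.2.2.2.2⟩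

lemma Sys.disj_next {S V : Finset α} (hd : Disjoint S V) (q : α → ℝ) (A : Finset α) :
    Disjoint (S ∪ A) (P.Vn S V q A) := by
  rw [Finset.disjoint_left]
  intro x hx hxV
  have hxV' := Sys.mem_Vn.1 hxV
  rcases Finset.mem_union.1 hx with hx | hx
  · exact Finset.disjoint_left.1 hd hx hxV'.1
  · exact hxV'.2.1 hx

lemma Sys.th_nonneg {V : Finset α} {q : α → ℝ} (h : P.Good V q) (S : Finset α) (u v : α) :
    0 ≤ P.th S V q u v := by
  unfold Sys.th
  exact Finset.sum_nonneg fun z hz =>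
    (h.pos (Sys.Nb_subset S V u (Finset.mem_inter.1 hz).1)).le

/-- Sum of the `th` over ordered pairs of distinct elements. -/
noncomputable def Sys.thS (P : Sys α) (S V : Finset α) (q : α → ℝ) (R : Finset α) : ℝ :=
  ∑ x ∈ R, ∑ y ∈ R.erase x, P.th S V q x y

lemma Sys.thS_nonneg {V : Finset α} {q : α → ℝ} (h : P.Good V q) (S R : Finset α) :
    0 ≤ P.thS S V q R :=
  Finset.sum_nonneg fun _ _ => Finset.sum_nonneg fun _ _ => Sys.th_nonneg h S _ _

lemma Sys.thS_mono {V : Finset α} {q : α → ℝ} (h : P.Good V q) (S : Finset α) {R R' : Finset α}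
    (hR : R ⊆ R') : P.thS S V q R ≤ P.thS S V q R' := by
  unfold Sys.thS
  calc ∑ x ∈ R, ∑ y ∈ R.erase x, P.th S V q x y
      ≤ ∑ x ∈ R, ∑ y ∈ R'.erase x, P.th S V q x y := by
        refine Finset.sum_le_sum fun x _ => ?_
        exact Finset.sum_le_sum_of_subset_of_nonneg (Finset.erase_subset_erase x hR)
          fun _ _ _ => Sys.th_nonneg h S _ _
    _ ≤ _ := Finset.sum_le_sum_of_subset_of_nonneg hR
          fun _ _ _ => Finset.sum_nonneg fun _ _ => Sys.th_nonneg h S _ _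

lemma one_le_prod_real {ι : Type*} (s : Finset ι) (f : ι → ℝ) (h : ∀ i ∈ s, 1 ≤ f i) :
    1 ≤ ∏ i ∈ s, f i := by
  classical
  induction s using Finset.induction_on with
  | empty => simp
  | insert i s hi ih =>
    rw [Finset.prod_insert hi]
    have h1 := h i (Finset.mem_insert_self _ _)
    have h2 := ih fun j hj => h j (Finset.mem_insert_of_mem hj)
    nlinarith

/-- Comparison of the union with the product. -/
lemma Sys.ratio {V : Finset α} {q : α → ℝ} (h : P.Good V q) (S R : Finset α)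
    (hR : ∀ x ∈ R, 1 ≤ P.Lam * P.pr S V q x) :
    ∏ z ∈ R.biUnion (fun x => P.Nb S V x), (1 - q z)
      ≤ (∏ x ∈ R, P.pr S V q x) * (1 + P.Lam ^ R.card * P.thS S V q R) := by
  classical
  set m : α → ℕ := fun z => (R.filter (fun x => z ∈ P.Nb S V x)).card with hm
  have hq0 : ∀ z ∈ V, 0 ≤ 1 - q z := fun z hz => by have := h.le_half hz; linarith
  have hq1 : ∀ z ∈ V, 1 - q z ≤ 1 := fun z hz => by have := h.pos hz; linarith
  have hsub : R.biUnion (fun x => P.Nb S V x) ⊆ V := by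
    intro z hz
    obtain ⟨x, _, hx⟩ := Finset.mem_biUnion.1 hz
    exact Sys.Nb_subset S V x hx
  -- product over `R`
  have hprod : ∏ x ∈ R, P.pr S V q x = ∏ z ∈ V, (1 - q z) ^ m z := by
    have h1 : ∀ x ∈ R, P.pr S V q x = ∏ z ∈ V, (if z ∈ P.Nb S V x then 1 - q z else 1) := by
      intro x _
      unfold Sys.pr
      rw [Finset.prod_ite_mem, Finset.inter_eq_right.2 (Sys.Nb_subset S V x)]
    rw [Finset.prod_congr rfl h1, Finset.prod_comm]
    refine Finset.prod_congr rfl fun z _ => ?_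
    rw [← Finset.prod_filter, Finset.prod_const]
  -- product over the union
  have hunion : ∏ z ∈ R.biUnion (fun x => P.Nb S V x), (1 - q z)
      = ∏ z ∈ V, (1 - q z) ^ (min 1 (m z)) := by
    have h1 : ∀ z ∈ V, (1 - q z) ^ (min 1 (m z))
        = if z ∈ R.biUnion (fun x => P.Nb S V x) then 1 - q z else 1 := by
      intro z _
      by_cases hz : z ∈ R.biUnion (fun x => P.Nb S V x)
      · obtain ⟨x, hxR, hx⟩ := Finset.mem_biUnion.1 hz
        have : 1 ≤ m z := Finset.card_pos.2 ⟨x, Finset.mem_filter.2 ⟨hxR, hx⟩⟩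
        rw [if_pos hz, min_eq_left this, pow_one]
      · have : m z = 0 := by
          rw [hm]
          apply Finset.card_eq_zero.2
          apply Finset.filter_eq_empty_iff.2
          intro x hxR hx
          exact hz (Finset.mem_biUnion.2 ⟨x, hxR, hx⟩)
        rw [if_neg hz, this]
        simp
    rw [Finset.prod_congr rfl h1, Finset.prod_ite_mem, Finset.inter_eq_right.2 hsub]
  set W : ℝ := ∏ z ∈ V, (1 - q z) ^ (m z - 1) with hW
  have hfac : ∏ x ∈ R, P.pr S V q x
      = (∏ z ∈ R.biUnion (fun x => P.Nb S V x), (1 - q z)) * W := by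
    rw [hprod, hunion, hW, ← Finset.prod_mul_distrib]
    refine Finset.prod_congr rfl fun z _ => ?_
    rw [← pow_add]
    congr 1
    omega
  have hU0 : 0 ≤ ∏ z ∈ R.biUnion (fun x => P.Nb S V x), (1 - q z) :=
    Finset.prod_nonneg fun z hz => hq0 z (hsub hz)
  have hU1 : ∏ z ∈ R.biUnion (fun x => P.Nb S V x), (1 - q z) ≤ 1 :=
    Finset.prod_le_one (fun z hz => hq0 z (hsub hz)) fun z hz => hq1 z (hsub hz)
  have hW0 : 0 ≤ W := Finset.prod_nonneg fun z hz => pow_nonneg (hq0 z hz) _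
  have hLR : 1 ≤ P.Lam ^ R.card * ∏ x ∈ R, P.pr S V q x := by
    rw [← Finset.prod_const, ← Finset.prod_mul_distrib]
    exact one_le_prod_real R _ hR
  have hLW : 1 ≤ P.Lam ^ R.card * W := by
    refine hLR.trans ?_
    refine mul_le_mul_of_nonneg_left ?_ (pow_nonneg Sys.Lam_pos.le _)
    rw [hfac]
    nlinarith
  have hsum : 1 - P.thS S V q R ≤ W := by
    have h1 := one_sub_sum_le_prod V (fun z => (1 - q z) ^ (m z - 1))
      (fun z hz => pow_nonneg (hq0 z hz) _) (fun z hz => pow_le_one₀ (hq0 z hz) (hq1 z hz))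
    refine le_trans ?_ h1
    have h2 : ∑ z ∈ V, (1 - (1 - q z) ^ (m z - 1)) ≤ P.thS S V q R := by
      have h3 : ∀ z ∈ V, 1 - (1 - q z) ^ (m z - 1) ≤ (m z : ℝ) * ((m z : ℝ) - 1) * q z := by
        intro z hz
        have hqz := h.pos hz
        have hqz' := h.le_half hz
        rcases Nat.eq_zero_or_pos (m z) with h0 | h0
        · simp [h0]
        · have h4 : 1 - ((m z - 1 : ℕ) : ℝ) * q z ≤ (1 - q z) ^ (m z - 1) := by
            have := one_add_mul_le_pow (a := - q z) (by linarith) (m z - 1)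
            calc 1 - ((m z - 1 : ℕ) : ℝ) * q z = 1 + ((m z - 1 : ℕ) : ℝ) * (- q z) := by ring
              _ ≤ (1 + - q z) ^ (m z - 1) := this
              _ = (1 - q z) ^ (m z - 1) := by ring
          have h5 : ((m z - 1 : ℕ) : ℝ) = (m z : ℝ) - 1 := by
            rw [Nat.cast_sub h0]; simp
          rw [h5] at h4
          have h6 : (1 : ℝ) ≤ m z := by exact_mod_cast h0
          nlinarith [mul_nonneg (mul_nonneg (sub_nonneg.2 h6) (sub_nonneg.2 h6)) hqz.le]
      have h7 : P.thS S V q R = ∑ z ∈ V, (m z : ℝ) * ((m z : ℝ) - 1) * q z := by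
        unfold Sys.thS Sys.th
        have h8 : ∀ x ∈ R, ∑ y ∈ R.erase x, ∑ z ∈ P.Nb S V x ∩ P.Nb S V y, q z
            = ∑ z ∈ V, (if z ∈ P.Nb S V x then ((m z : ℝ) - 1) * q z else 0) := by
          intro x hx
          have h9 : ∀ y ∈ R.erase x, ∑ z ∈ P.Nb S V x ∩ P.Nb S V y, q z
              = ∑ z ∈ V, (if z ∈ P.Nb S V x then (if z ∈ P.Nb S V y then q z else 0) else 0) := by
            intro y _
            rw [← Finset.sum_filter, ← Finset.sum_filter]
            refine Finset.sum_congr ?_ fun _ _ => rfl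
            ext z
            simp only [Finset.mem_inter, Finset.mem_filter]
            constructor
            · rintro ⟨h1, h2⟩
              exact ⟨⟨Sys.Nb_subset S V x h1, h1⟩, h2⟩
            · rintro ⟨⟨_, h1⟩, h2⟩
              exact ⟨h1, h2⟩
          rw [Finset.sum_congr rfl h9, Finset.sum_comm]
          refine Finset.sum_congr rfl fun z _ => ?_
          by_cases hz : z ∈ P.Nb S V x
          · simp only [hz, if_true]
            rw [← Finset.sum_filter, Finset.sum_const, nsmul_eq_mul]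
            congr 1
            have h10 : (R.erase x).filter (fun y => z ∈ P.Nb S V y)
                = (R.filter (fun y => z ∈ P.Nb S V y)).erase x := by
              rw [Finset.filter_erase]
            rw [h10, Finset.card_erase_of_mem (Finset.mem_filter.2 ⟨hx, hz⟩)]
            have h11 : 1 ≤ m z := Finset.card_pos.2 ⟨x, Finset.mem_filter.2 ⟨hx, hz⟩⟩
            change ((m z - 1 : ℕ) : ℝ) = _
            rw [Nat.cast_sub h11]; simp
          · simp [hz]
        rw [Finset.sum_congr rfl h8, Finset.sum_comm]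
        refine Finset.sum_congr rfl fun z _ => ?_
        rw [← Finset.sum_filter, Finset.sum_const, nsmul_eq_mul]
        change (m z : ℝ) * _ = _
        ring
      rw [h7]
      exact Finset.sum_le_sum h3
    linarith
  rw [hfac, mul_assoc]
  refine le_mul_of_one_le_right hU0 ?_
  have hth := Sys.thS_nonneg h S R
  have : W * (1 + P.Lam ^ R.card * P.thS S V q R) = W + (P.Lam ^ R.card * W) * P.thS S V q R := by
    ring
  rw [this]
  nlinarith

end Pool.Agent.H33.Nibble
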