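import Pool.Agent.H33.Nibble1

set_option autoImplicit false

open Finset
open Pool.Agent.H33.Rand

namespace Pool.Agent.H33.Nibble

variable {α : Type*} [DecidableEq α] {P : Sys α}

/-- If all of `R` may survive then the probabilities are bounded below. -/
lemma Sys.one_le_Lam_pr {S V : Finset α} {q : α → ℝ} (h : P.Good V q) {x : α} (hx : x ∈ V)
    (hqn : P.qn S V q x ≤ P.Lam * P.q0) : 1 ≤ P.Lam * P.pr S V q x := by
  have hp := h.pr_pos S x
  have hq := (h x hx).1
  unfold Sys.qn at hqn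
  rw [div_le_iff₀ hp] at hqn
  have : P.q0 * 1 ≤ P.q0 * (P.Lam * P.pr S V q x) := by nlinarith
  exact le_of_mul_le_mul_left this P.q0pos

/-- The key lemma. -/
lemma Sys.star {S V : Finset α} {q : α → ℝ} (h : P.Good V q) (T R : Finset α) (hT : T ⊆ V)
    (hR : R ⊆ V) :
    EE V q (fun A => if T ⊆ A ∧ R ⊆ P.Vn S V q A then ∏ x ∈ R, P.qn S V q x else 0)
      ≤ (∏ x ∈ T, q x) * (∏ x ∈ R, q x) * (1 + P.Lam ^ R.card * P.thS S V q R) := by
  have h0 : ∀ a ∈ V, 0 ≤ q a := fun a ha => (h.pos ha).le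
  have h1 : ∀ a ∈ V, q a ≤ 1 := fun a ha => by have := h.le_half ha; linarith
  have hTpos : 0 ≤ ∏ x ∈ T, q x := prod_nonneg fun x hx => h0 x (hT hx)
  have hRpos : 0 ≤ ∏ x ∈ R, q x := prod_nonneg fun x hx => h0 x (hR hx)
  have hE : 0 ≤ 1 + P.Lam ^ R.card * P.thS S V q R := by
    have := mul_nonneg (pow_nonneg (Sys.Lam_pos (P := P)).le R.card) (Sys.thS_nonneg h S R)
    linarith
  by_cases hall : ∀ x ∈ R, P.qn S V q x ≤ P.Lam * P.q0
  · have hqn : 0 ≤ ∏ x ∈ R, P.qn S V q x :=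
      prod_nonneg fun x hx => (h.pos (hR hx)).le.trans (h.le_qn S (hR hx))
    calc EE V q (fun A => if T ⊆ A ∧ R ⊆ P.Vn S V q A then ∏ x ∈ R, P.qn S V q x else 0)
        ≤ EE V q (fun A => (∏ x ∈ R, P.qn S V q x) *
            (if T ⊆ A ∧ Disjoint (R.biUnion (fun x => P.Nb S V x)) A then 1 else 0)) := by
          refine EE_mono h0 h1 fun A _ => ?_
          by_cases hc : T ⊆ A ∧ R ⊆ P.Vn S V q A
          · rw [if_pos hc, if_pos, mul_one]
            refine ⟨hc.1, ?_⟩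
            rw [Finset.disjoint_biUnion_left]
            intro x hx
            exact (Sys.mem_Vn.1 (hc.2 hx)).2.2.1
          · rw [if_neg hc]
            exact mul_nonneg hqn (by split_ifs <;> norm_num)
      _ = (∏ x ∈ R, P.qn S V q x) * EE V q (fun A =>
            (if T ⊆ A ∧ Disjoint (R.biUnion (fun x => P.Nb S V x)) A then 1 else 0)) :=
          EE_mul _ _ _ _
      _ ≤ (∏ x ∈ R, P.qn S V q x) * ((∏ x ∈ T, q x) *
            ∏ z ∈ R.biUnion (fun x => P.Nb S V x), (1 - q z)) := by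
          refine mul_le_mul_of_nonneg_left (EE_ind_le h0 h1 _ _ hT ?_) hqn
          intro z hz
          obtain ⟨x, _, hx⟩ := Finset.mem_biUnion.1 hz
          exact Sys.Nb_subset S V x hx
      _ ≤ (∏ x ∈ R, P.qn S V q x) * ((∏ x ∈ T, q x) *
            ((∏ x ∈ R, P.pr S V q x) * (1 + P.Lam ^ R.card * P.thS S V q R))) := by
          refine mul_le_mul_of_nonneg_left (mul_le_mul_of_nonneg_left ?_ hTpos) hqn
          exact Sys.ratio h S R fun x hx => Sys.one_le_Lam_pr h (hR hx) (hall x hx)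
      _ = (∏ x ∈ T, q x) * ((∏ x ∈ R, P.qn S V q x) * (∏ x ∈ R, P.pr S V q x)) *
            (1 + P.Lam ^ R.card * P.thS S V q R) := by ring
      _ = (∏ x ∈ T, q x) * (∏ x ∈ R, q x) * (1 + P.Lam ^ R.card * P.thS S V q R) := by
          congr 2
          rw [← Finset.prod_mul_distrib]
          refine Finset.prod_congr rfl fun x _ => ?_
          unfold Sys.qn
          exact div_mul_cancel₀ _ (h.pr_pos S x).ne'
  · push Not at hall
    obtain ⟨x, hx, hxq⟩ := hall
    have : EE V q (fun A => if T ⊆ A ∧ R ⊆ P.Vn S V q A then ∏ x ∈ R, P.qn S V q x else 0)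
        = EE V q (fun _ => 0) := by
      refine EE_congr fun A _ => ?_
      rw [if_neg]
      rintro ⟨_, h2⟩
      exact absurd (Sys.mem_Vn.1 (h2 hx)).2.2.2.2 (not_le.2 hxq)
    rw [this, EE_const]
    positivity

/-- Crude version. -/
lemma Sys.star_crude {S V : Finset α} {q : α → ℝ} (h : P.Good V q) (T R : Finset α) (hT : T ⊆ V)
    (hR : R ⊆ V) :
    EE V q (fun A => if T ⊆ A ∧ R ⊆ P.Vn S V q A then ∏ x ∈ R, P.qn S V q x else 0)
      ≤ (∏ x ∈ T, q x) * ∏ x ∈ R, (P.Lam * q x) := by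
  have h0 : ∀ a ∈ V, 0 ≤ q a := fun a ha => (h.pos ha).le
  have h1 : ∀ a ∈ V, q a ≤ 1 := fun a ha => by have := h.le_half ha; linarith
  have hRpos : 0 ≤ ∏ x ∈ R, (P.Lam * q x) := prod_nonneg fun x hx =>
    mul_nonneg Sys.Lam_pos.le (h0 x (hR hx))
  calc EE V q (fun A => if T ⊆ A ∧ R ⊆ P.Vn S V q A then ∏ x ∈ R, P.qn S V q x else 0)
      ≤ EE V q (fun A => (∏ x ∈ R, (P.Lam * q x)) *
          (if T ⊆ A ∧ Disjoint (∅ : Finset α) A then 1 else 0)) := by
        refine EE_mono h0 h1 fun A _ => ?_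
        by_cases hc : T ⊆ A ∧ R ⊆ P.Vn S V q A
        · rw [if_pos hc, if_pos ⟨hc.1, Finset.disjoint_empty_left _⟩, mul_one]
          refine Finset.prod_le_prod (fun x hx => (h.pos (hR hx)).le.trans (h.le_qn S (hR hx)))
            fun x hx => ?_
          refine (Sys.mem_Vn.1 (hc.2 hx)).2.2.2.2.trans ?_
          exact mul_le_mul_of_nonneg_left (h x (hR hx)).1 Sys.Lam_pos.le
        · rw [if_neg hc]
          exact mul_nonneg hRpos (by split_ifs <;> norm_num)
    _ = (∏ x ∈ R, (P.Lam * q x)) * ((∏ x ∈ T, q x) * 1) := by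
        rw [EE_mul, EE_ind V q T ∅ hT (Finset.empty_subset _) (Finset.disjoint_empty_right _),
          Finset.prod_empty]
    _ = _ := by ring

/-- Expansion of products. -/
lemma Sys.expand {S V : Finset α} {q : α → ℝ} (W : Finset α)
    (r M : ℝ) (hr : 0 ≤ r)
    (hM : ∀ R ⊆ W, EE V q (fun A => if W \ R ⊆ A ∧ R ⊆ P.Vn S V q A then
      ∏ x ∈ R, P.qn S V q x else 0) ≤ M * ∏ x ∈ W, q x) :
    EE V q (fun A => ∏ x ∈ W, ((if x ∈ P.Vn S V q A then r * P.qn S V q x else 0) +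
        (if x ∈ A then 1 else 0))) ≤ M * ∏ x ∈ W, ((r + 1) * q x) := by
  have h1 : ∀ A : Finset α, ∏ x ∈ W, ((if x ∈ P.Vn S V q A then r * P.qn S V q x else 0) +
        (if x ∈ A then (1 : ℝ) else 0))
      = ∑ R ∈ W.powerset, r ^ R.card * (if W \ R ⊆ A ∧ R ⊆ P.Vn S V q A then
          ∏ x ∈ R, P.qn S V q x else 0) := by
    intro A
    rw [Finset.prod_add]
    refine Finset.sum_congr rfl fun R _ => ?_
    have h2 : ∏ x ∈ R, (if x ∈ P.Vn S V q A then r * P.qn S V q x else 0)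
        = if R ⊆ P.Vn S V q A then r ^ R.card * ∏ x ∈ R, P.qn S V q x else 0 := by
      by_cases hR : R ⊆ P.Vn S V q A
      · rw [if_pos hR, ← Finset.prod_const, ← Finset.prod_mul_distrib]
        exact Finset.prod_congr rfl fun x hx => if_pos (hR hx)
      · rw [if_neg hR]
        obtain ⟨x, hx, hxn⟩ := Finset.not_subset.1 hR
        exact Finset.prod_eq_zero hx (if_neg hxn)
    have h3 : ∏ x ∈ W \ R, (if x ∈ A then (1 : ℝ) else 0) = if W \ R ⊆ A then 1 else 0 := by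
      by_cases hR : W \ R ⊆ A
      · rw [if_pos hR]
        exact Finset.prod_eq_one fun x hx => if_pos (hR hx)
      · rw [if_neg hR]
        obtain ⟨x, hx, hxn⟩ := Finset.not_subset.1 hR
        exact Finset.prod_eq_zero hx (if_neg hxn)
    rw [h2, h3]
    by_cases hR : R ⊆ P.Vn S V q A <;> by_cases hR' : W \ R ⊆ A <;> simp [hR, hR']
  have h4 : EE V q (fun A => ∏ x ∈ W, ((if x ∈ P.Vn S V q A then r * P.qn S V q x else 0) +
        (if x ∈ A then 1 else 0)))
      = ∑ R ∈ W.powerset, r ^ R.card * EE V q (fun A => if W \ R ⊆ A ∧ R ⊆ P.Vn S V q A then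
          ∏ x ∈ R, P.qn S V q x else 0) := by
    rw [EE_congr (fun A _ => h1 A), EE_sum]
    exact Finset.sum_congr rfl fun R _ => EE_mul _ _ _ _
  rw [h4]
  calc ∑ R ∈ W.powerset, r ^ R.card * EE V q (fun A => if W \ R ⊆ A ∧ R ⊆ P.Vn S V q A then
          ∏ x ∈ R, P.qn S V q x else 0)
      ≤ ∑ R ∈ W.powerset, r ^ R.card * (M * ∏ x ∈ W, q x) :=
        Finset.sum_le_sum fun R hR => mul_le_mul_of_nonneg_left
          (hM R (Finset.mem_powerset.1 hR)) (pow_nonneg hr _)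
    _ = (∑ R ∈ W.powerset, r ^ R.card) * (M * ∏ x ∈ W, q x) := by rw [Finset.sum_mul]
    _ = (r + 1) ^ W.card * (M * ∏ x ∈ W, q x) := by
        congr 1
        have := Finset.prod_add (fun _ : α => r) (fun _ => (1 : ℝ)) W
        rw [Finset.prod_const] at this
        rw [this]
        refine Finset.sum_congr rfl fun R _ => ?_
        simp
    _ = M * ∏ x ∈ W, ((r + 1) * q x) := by
        rw [Finset.prod_mul_distrib, Finset.prod_const]; ring

/-- The `φ` weights. -/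
noncomputable def phi (r : ℝ) (S V : Finset α) (q : α → ℝ) (x : α) : ℝ :=
  if x ∈ S then 1 else if x ∈ V then r * q x else 0

lemma phi_nonneg {r : ℝ} (hr : 0 ≤ r) {V : Finset α} {q : α → ℝ} (h : P.Good V q)
    (S : Finset α) (x : α) : 0 ≤ phi r S V q x := by
  unfold phi
  split_ifs with h1 h2
  · exact zero_le_one
  · exact mul_nonneg hr (h.pos h2).le
  · exact le_rfl

lemma phi_next {r : ℝ} {S V : Finset α} {q : α → ℝ} (hd : Disjoint S V)
    {A : Finset α} (hA : A ⊆ V) (x : α) :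
    phi r (S ∪ A) (P.Vn S V q A) (P.qn S V q) x =
      if x ∈ V then ((if x ∈ P.Vn S V q A then r * P.qn S V q x else 0) +
        (if x ∈ A then 1 else 0)) else if x ∈ S then 1 else 0 := by
  unfold phi
  by_cases hxV : x ∈ V
  · have hxS : x ∉ S := fun hxS => Finset.disjoint_left.1 hd hxS hxV
    by_cases hxA : x ∈ A
    · have : x ∉ P.Vn S V q A := fun hx => (Sys.mem_Vn.1 hx).2.1 hxA
      simp [hxV, hxA, this]
    · simp [hxV, hxA, hxS]
  · have hxA : x ∉ A := fun hxA => hxV (hA hxA)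
    have hxVn : x ∉ P.Vn S V q A := fun hx => hxV (Sys.Vn_subset _ _ _ _ hx)
    simp [hxV, hxA, hxVn]

lemma prod_phi_next {r : ℝ} {S V : Finset α} {q : α → ℝ} (hd : Disjoint S V)
    {A : Finset α} (hA : A ⊆ V) (e : Finset α) (he : e ⊆ S ∪ V) :
    ∏ x ∈ e, phi r (S ∪ A) (P.Vn S V q A) (P.qn S V q) x =
      ∏ x ∈ e ∩ V, ((if x ∈ P.Vn S V q A then r * P.qn S V q x else 0) +
        (if x ∈ A then 1 else 0)) := by
  rw [← Finset.prod_ite_mem]
  refine Finset.prod_congr rfl fun x hx => ?_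
  rw [phi_next hd hA]
  by_cases hxV : x ∈ V
  · simp [hxV]
  · have hxS : x ∈ S := by
      rcases Finset.mem_union.1 (he hx) with h | h
      · exact h
      · exact absurd h hxV
    simp [hxV, hxS]

lemma prod_phi {r : ℝ} {S V : Finset α} {q : α → ℝ} (hd : Disjoint S V)
    (e : Finset α) (he : e ⊆ S ∪ V) :
    ∏ x ∈ e, phi r S V q x = ∏ x ∈ e ∩ V, (r * q x) := by
  rw [← Finset.prod_ite_mem]
  refine Finset.prod_congr rfl fun x hx => ?_
  unfold phi
  by_cases hxV : x ∈ V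
  · have hxS : x ∉ S := fun hxS => Finset.disjoint_left.1 hd hxS hxV
    simp [hxV, hxS]
  · have hxS : x ∈ S := by
      rcases Finset.mem_union.1 (he hx) with h | h
      · exact h
      · exact absurd h hxV
    simp [hxV, hxS]

lemma prod_phi_zero {r : ℝ} {S V : Finset α} {q : α → ℝ}
    (e : Finset α) (he : ¬ e ⊆ S ∪ V) :
    ∏ x ∈ e, phi r S V q x = 0 := by
  obtain ⟨x, hx, hxn⟩ := Finset.not_subset.1 he
  refine Finset.prod_eq_zero hx ?_
  rw [Finset.mem_union, not_or] at hxn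
  unfold phi
  rw [if_neg hxn.1, if_neg hxn.2]

/-- General estimate for the next `φ` product. -/
lemma Sys.EE_phi {S V : Finset α} {q : α → ℝ} (hd : Disjoint S V)
    (e : Finset α) (r M : ℝ) (hr : 0 ≤ r)
    (hM : ∀ R ⊆ e ∩ V, EE V q (fun A => if (e ∩ V) \ R ⊆ A ∧ R ⊆ P.Vn S V q A then
      ∏ x ∈ R, P.qn S V q x else 0) ≤ M * ∏ x ∈ e ∩ V, q x) :
    EE V q (fun A => ∏ x ∈ e, phi r (S ∪ A) (P.Vn S V q A) (P.qn S V q) x)
      ≤ M * ∏ x ∈ e, phi (r + 1) S V q x := by
  by_cases he : e ⊆ S ∪ V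
  · rw [EE_congr (fun A hA => prod_phi_next hd hA e he), prod_phi hd e he]
    exact Sys.expand (e ∩ V) r M hr hM
  · rw [prod_phi_zero e he, mul_zero]
    rw [EE_congr (g := fun _ => 0), EE_const]
    intro A hA
    refine prod_phi_zero e fun hsub => he (hsub.trans ?_)
    refine Finset.union_subset (Finset.union_subset Finset.subset_union_left
      (hA.trans Finset.subset_union_right)) ((Sys.Vn_subset _ _ _ _).trans
        Finset.subset_union_right)

/-- Estimate for triples. -/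
lemma Sys.EE_phi3 {S V : Finset α} {q : α → ℝ} (h : P.Good V q) (hd : Disjoint S V)
    (e : Finset α) (he : e.card ≤ 3) (r : ℝ) (hr : 0 ≤ r) :
    EE V q (fun A => ∏ x ∈ e, phi r (S ∪ A) (P.Vn S V q A) (P.qn S V q) x)
      ≤ (1 + P.Lam ^ 3 * P.thS S V q (e ∩ V)) * ∏ x ∈ e, phi (r + 1) S V q x := by
  refine Sys.EE_phi hd e r _ hr fun R hR => ?_
  have hRV : R ⊆ V := hR.trans Finset.inter_subset_right
  have hWR : (e ∩ V) \ R ⊆ V := Finset.sdiff_subset.trans Finset.inter_subset_right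
  refine (Sys.star h _ _ hWR hRV).trans ?_
  rw [Finset.prod_sdiff hR, mul_comm]
  refine mul_le_mul_of_nonneg_right ?_ (prod_nonneg fun x hx =>
    (h.pos (Finset.inter_subset_right hx)).le)
  have h1 : P.Lam ^ R.card ≤ P.Lam ^ 3 :=
    pow_le_pow_right₀ Sys.one_le_Lam
      ((Finset.card_le_card (hR.trans Finset.inter_subset_left)).trans he)
  have h2 := Sys.thS_mono h S hR
  have h3 := Sys.thS_nonneg h S R
  have h4 : P.Lam ^ R.card * P.thS S V q R ≤ P.Lam ^ 3 * P.thS S V q (e ∩ V) :=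
    mul_le_mul h1 h2 h3 (pow_nonneg Sys.Lam_pos.le _)
  linarith

/-- Estimate for the sets in `BB`. -/
lemma Sys.EE_phi5 {S V : Finset α} {q : α → ℝ} (h : P.Good V q) (hd : Disjoint S V)
    (e : Finset α) (he : e.card ≤ 5) (r : ℝ) (hr : 0 ≤ r) :
    EE V q (fun A => ∏ x ∈ e, phi r (S ∪ A) (P.Vn S V q A) (P.qn S V q) x)
      ≤ P.Lam ^ 5 * ∏ x ∈ e, phi (r + 1) S V q x := by
  refine Sys.EE_phi hd e r _ hr fun R hR => ?_
  have hRV : R ⊆ V := hR.trans Finset.inter_subset_right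
  have hWR : (e ∩ V) \ R ⊆ V := Finset.sdiff_subset.trans Finset.inter_subset_right
  refine (Sys.star_crude h _ _ hWR hRV).trans ?_
  rw [Finset.prod_mul_distrib, Finset.prod_const]
  have h5 : (∏ x ∈ (e ∩ V) \ R, q x) * (P.Lam ^ R.card * ∏ x ∈ R, q x)
      = P.Lam ^ R.card * ∏ x ∈ e ∩ V, q x := by
    rw [← Finset.prod_sdiff hR]; ring
  rw [h5]
  refine mul_le_mul_of_nonneg_right ?_ (prod_nonneg fun x hx =>
    (h.pos (Finset.inter_subset_right hx)).le)
  exact pow_le_pow_right₀ Sys.one_le_Lam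
      ((Finset.card_le_card (hR.trans Finset.inter_subset_left)).trans he)

end Pool.Agent.H33.Nibble
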