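import Pool.Agent.H33.Nibble2

set_option autoImplicit false

open Finset
open Pool.Agent.H33.Rand

namespace Pool.Agent.H33.Nibble

lemma sum_fiber_le {ι β : Type*} [DecidableEq β] (I : Finset ι) (f : ι → β) (E : Finset β)
    (w : ι → ℝ) (W : β → ℝ) (C : ℕ) (hf : ∀ i ∈ I, f i ∈ E) (hw : ∀ i ∈ I, w i ≤ W (f i))
    (hW : ∀ b ∈ E, 0 ≤ W b) (hC : ∀ b ∈ E, (I.filter (fun i => f i = b)).card ≤ C) :
    ∑ i ∈ I, w i ≤ C * ∑ b ∈ E, W b := by
  rw [← Finset.sum_fiberwise_of_maps_to hf, Finset.mul_sum]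
  refine Finset.sum_le_sum fun b hb => ?_
  calc ∑ i ∈ I with f i = b, w i ≤ ∑ i ∈ I with f i = b, W b := by
        refine Finset.sum_le_sum fun i hi => ?_
        have := hw i (Finset.mem_filter.1 hi).1
        rwa [(Finset.mem_filter.1 hi).2] at this
    _ = ((I.filter (fun i => f i = b)).card : ℝ) * W b := by
        rw [Finset.sum_const, nsmul_eq_mul]
    _ ≤ C * W b := mul_le_mul_of_nonneg_right (by exact_mod_cast hC b hb) (hW b hb)

variable {α : Type*} [DecidableEq α] {P : Sys α}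

/-- The main term. -/
noncomputable def Sys.XX (P : Sys α) (V : Finset α) (q : α → ℝ) : ℝ :=
  ∑ v ∈ V, q v * (1 - Real.log (q v / P.q0) / P.lam)

/-- Weighted number of graph edges (ordered). -/
noncomputable def Sys.E2 (P : Sys α) (S V : Finset α) (q : α → ℝ) : ℝ :=
  ∑ u ∈ V, ∑ v ∈ P.Nb S V u, q u * q v

/-- Weighted number of triples. -/
noncomputable def Sys.E3 (P : Sys α) (V : Finset α) (q : α → ℝ) : ℝ :=
  ∑ e ∈ P.H2 with e ⊆ V, ∏ x ∈ e, q x

/-- Weighted number of window edges. -/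
noncomputable def Sys.Ph (P : Sys α) (r : ℝ) (S V : Finset α) (q : α → ℝ) : ℝ :=
  ∑ e ∈ P.Hw, ∏ x ∈ e, phi r S V q x

/-- Weighted number of bad configurations. -/
noncomputable def Sys.Up (P : Sys α) (r : ℝ) (S V : Finset α) (q : α → ℝ) : ℝ :=
  ∑ B ∈ P.BB, ∏ x ∈ B, phi r S V q x

lemma Sys.th_le {S V : Finset α} {q : α → ℝ} (h : P.Good V q) (u v c : α)
    (Q : α → α → Prop) [∀ a z, Decidable (Q a z)]
    (hQ : ∀ z ∈ V, z ≠ c → P.GS S u z → P.GS S v z → ∃ a ∈ S, Q a z) :
    P.th S V q u v ≤ P.Lam * P.q0 +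
      ∑ p ∈ S ×ˢ V with Q p.1 p.2 ∧ p.2 ≠ u ∧ p.2 ≠ v, q p.2 := by
  classical
  unfold Sys.th
  rw [← Finset.sum_filter_add_sum_filter_not (P.Nb S V u ∩ P.Nb S V v) (fun z => z = c)]
  have hsub : ∀ z ∈ P.Nb S V u ∩ P.Nb S V v, z ∈ V := fun z hz =>
    Sys.Nb_subset S V u (Finset.mem_inter.1 hz).1
  refine add_le_add ?_ ?_
  · rw [Finset.filter_eq']
    split_ifs with hc
    · rw [Finset.sum_singleton]
      exact (h c (hsub c hc)).2
    · rw [Finset.sum_empty]
      exact mul_nonneg Sys.Lam_pos.le P.q0pos.le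
  · rw [Finset.sum_filter (s := S ×ˢ V), Finset.sum_product_right]
    rw [Finset.sum_filter]
    calc ∑ z ∈ P.Nb S V u ∩ P.Nb S V v, (if ¬ z = c then q z else 0)
        ≤ ∑ z ∈ P.Nb S V u ∩ P.Nb S V v, ∑ a ∈ S, (if Q a z ∧ z ≠ u ∧ z ≠ v then q z else 0) := by
          refine Finset.sum_le_sum fun z hz => ?_
          have hzV := hsub z hz
          rw [Finset.mem_inter, Sys.mem_Nb, Sys.mem_Nb] at hz
          have hnn : ∀ a ∈ S, (0 : ℝ) ≤ (if Q a z ∧ z ≠ u ∧ z ≠ v then q z else 0) := by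
            intro a _
            split_ifs
            · exact (h.pos hzV).le
            · exact le_rfl
          by_cases hzc : z = c
          · rw [if_neg (by simpa using hzc)]
            exact Finset.sum_nonneg hnn
          · rw [if_pos hzc]
            obtain ⟨a, ha, hQa⟩ := hQ z hzV hzc hz.1.2 hz.2.2
            have hzu : z ≠ u := by
              rintro rfl
              exact P.GS_irr hz.1.2
            have hzv : z ≠ v := by
              rintro rfl
              exact P.GS_irr hz.2.2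
            calc q z = (if Q a z ∧ z ≠ u ∧ z ≠ v then q z else 0) := by
                  rw [if_pos ⟨hQa, hzu, hzv⟩]
              _ ≤ _ := Finset.single_le_sum hnn ha
      _ ≤ _ := by
          refine Finset.sum_le_sum_of_subset_of_nonneg hsub ?_
          intro z hz _
          refine Finset.sum_nonneg fun a _ => ?_
          split_ifs
          · exact (h.pos hz).le
          · exact le_rfl

lemma phi_S {r : ℝ} {S V : Finset α} {q : α → ℝ} {x : α} (hx : x ∈ S) :
    phi r S V q x = 1 := by unfold phi; rw [if_pos hx]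

lemma phi_V {r : ℝ} {S V : Finset α} {q : α → ℝ} (hd : Disjoint S V) {x : α} (hx : x ∈ V) :
    phi r S V q x = r * q x := by
  unfold phi; rw [if_neg (fun h => Finset.disjoint_left.1 hd h hx), if_pos hx]

lemma Sys.Up_nonneg {S V : Finset α} {q : α → ℝ} (h : P.Good V q) {r : ℝ} (hr : 0 ≤ r) :
    0 ≤ P.Up r S V q :=
  Finset.sum_nonneg fun _ _ => Finset.prod_nonneg fun _ _ => phi_nonneg hr h S _

lemma Sys.Ph_nonneg {S V : Finset α} {q : α → ℝ} (h : P.Good V q) {r : ℝ} (hr : 0 ≤ r) :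
    0 ≤ P.Ph r S V q :=
  Finset.sum_nonneg fun _ _ => Finset.prod_nonneg fun _ _ => phi_nonneg hr h S _

lemma Sys.E2_nonneg {S V : Finset α} {q : α → ℝ} (h : P.Good V q) :
    0 ≤ P.E2 S V q :=
  Finset.sum_nonneg fun _ hu => Finset.sum_nonneg fun _ hv =>
    mul_nonneg (h.pos hu).le (h.pos (Sys.Nb_subset S V _ hv)).le

lemma Sys.E3_nonneg {V : Finset α} {q : α → ℝ} (h : P.Good V q) :
    0 ≤ P.E3 V q :=
  Finset.sum_nonneg fun _ he => Finset.prod_nonneg fun _ hx =>
    (h.pos ((Finset.mem_filter.1 he).2 hx)).le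

/-- Double counting for pairs. -/
lemma Sys.dc2 {S V : Finset α} {q : α → ℝ} (h : P.Good V q) (hd : Disjoint S V) (r : ℝ)
    (hr : 1 ≤ r) :
    ∑ u ∈ V, ∑ v ∈ P.Nb S V u, q u * q v * P.th S V q u v
      ≤ P.Lam * P.q0 * P.E2 S V q + 625 * P.Up r S V q := by
  have key : ∀ u ∈ V, ∀ v ∈ P.Nb S V u, P.th S V q u v ≤ P.Lam * P.q0 +
      ∑ p ∈ S ×ˢ V with (({u, v, p.1, p.2} : Finset α) ∈ P.BB) ∧ p.2 ≠ u ∧ p.2 ≠ v, q p.2 := by
    intro u hu v hv
    rw [Sys.mem_Nb] at hv
    have huv : u ≠ v := by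
      rintro rfl
      exact P.GS_irr hv.2
    obtain ⟨c, hc⟩ := P.T2 S V hd u hu v hv.1 huv hv.2
    exact Sys.th_le h u v c (fun a z => ({u, v, a, z} : Finset α) ∈ P.BB) hc
  set I : Finset (α × α × α × α) := (V ×ˢ V ×ˢ S ×ˢ V).filter (fun t =>
    ({t.1, t.2.1, t.2.2.1, t.2.2.2} : Finset α) ∈ P.BB ∧ t.1 ≠ t.2.1 ∧ t.2.2.2 ≠ t.1 ∧
      t.2.2.2 ≠ t.2.1) with hI
  have h2 : ∑ t ∈ I, q t.1 * q t.2.1 * q t.2.2.2 ≤ (625 : ℕ) * P.Up r S V q := by
    unfold Sys.Up
    refine sum_fiber_le I (fun t => ({t.1, t.2.1, t.2.2.1, t.2.2.2} : Finset α)) P.BB _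
      (fun B => ∏ x ∈ B, phi r S V q x) 625 ?_ ?_ ?_ ?_
    · intro t ht
      exact (Finset.mem_filter.1 ht).2.1
    · rintro ⟨u, v, a, z⟩ ht
      simp only [hI, Finset.mem_filter, Finset.mem_product] at ht
      obtain ⟨⟨hu, hv, ha, hz⟩, -, huv, hzu, hzv⟩ := ht
      have hau : u ≠ a := fun he => Finset.disjoint_left.1 hd ha (he ▸ hu)
      have hav : v ≠ a := fun he => Finset.disjoint_left.1 hd ha (he ▸ hv)
      have haz : a ≠ z := fun he => Finset.disjoint_left.1 hd ha (he ▸ hz)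
      dsimp only
      rw [Finset.prod_insert (by simp [huv, hau, hzu.symm]),
        Finset.prod_insert (by simp [hav, hzv.symm]),
        Finset.prod_insert (by simp [haz]), Finset.prod_singleton,
        phi_V hd hu, phi_V hd hv, phi_V hd hz, phi_S ha, one_mul]
      have hpu := h.pos hu
      have hpv := h.pos hv
      have hpz := h.pos hz
      have h3 : q u ≤ r * q u := by nlinarith
      have h4 : q v ≤ r * q v := by nlinarith
      have h5 : q z ≤ r * q z := by nlinarith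
      calc q u * q v * q z ≤ (r * q u) * (r * q v) * (r * q z) := by
            gcongr
        _ = _ := by ring
    · intro B _
      exact Finset.prod_nonneg fun _ _ => phi_nonneg (by linarith) h S _
    · intro B hB
      have hsub : I.filter (fun t => ({t.1, t.2.1, t.2.2.1, t.2.2.2} : Finset α) = B)
          ⊆ B ×ˢ B ×ˢ B ×ˢ B := by
        rintro ⟨u, v, a, z⟩ ht
        have h3 := (Finset.mem_filter.1 ht).2
        dsimp only at h3
        subst h3
        simp
      refine (Finset.card_le_card hsub).trans ?_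
      rw [Finset.card_product, Finset.card_product, Finset.card_product]
      have h5 := P.BBcard B hB
      calc B.card * (B.card * (B.card * B.card)) ≤ 5 * (5 * (5 * 5)) := by gcongr
        _ = 625 := by norm_num
  have h3 : ∑ u ∈ V, ∑ v ∈ P.Nb S V u, q u * q v *
      ∑ p ∈ S ×ˢ V with (({u, v, p.1, p.2} : Finset α) ∈ P.BB) ∧ p.2 ≠ u ∧ p.2 ≠ v, q p.2
      ≤ ∑ t ∈ I, q t.1 * q t.2.1 * q t.2.2.2 := by
    rw [hI, Finset.sum_filter, Finset.sum_product]
    refine Finset.sum_le_sum fun u hu => ?_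
    rw [Finset.sum_product]
    have hnn : ∀ v ∈ V, ∀ p ∈ S ×ˢ V, (0 : ℝ) ≤ (if ({u, v, p.1, p.2} : Finset α) ∈ P.BB ∧ u ≠ v ∧
        p.2 ≠ u ∧ p.2 ≠ v then q u * q v * q p.2 else 0) := by
      intro v hv p hp
      rw [Finset.mem_product] at hp
      split_ifs
      · have := h.pos hu
        have := h.pos hv
        have := h.pos hp.2
        positivity
      · exact le_rfl
    refine le_trans ?_ (Finset.sum_le_sum_of_subset_of_nonneg (Sys.Nb_subset (P := P) S V u)
      (fun v hv _ => Finset.sum_nonneg (hnn v hv)))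
    refine Finset.sum_le_sum fun v hv => ?_
    rw [Finset.mul_sum, Finset.sum_filter]
    have huv : u ≠ v := by
      rintro rfl
      exact P.GS_irr (Sys.mem_Nb.1 hv).2
    refine le_of_eq (Finset.sum_congr rfl fun p _ => ?_)
    simp only [ne_eq, huv, not_false_eq_true, true_and]
  calc ∑ u ∈ V, ∑ v ∈ P.Nb S V u, q u * q v * P.th S V q u v
      ≤ ∑ u ∈ V, ∑ v ∈ P.Nb S V u, q u * q v * (P.Lam * P.q0 +
      ∑ p ∈ S ×ˢ V with (({u, v, p.1, p.2} : Finset α) ∈ P.BB) ∧ p.2 ≠ u ∧ p.2 ≠ v, q p.2) := by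
        refine Finset.sum_le_sum fun u hu => Finset.sum_le_sum fun v hv => ?_
        exact mul_le_mul_of_nonneg_left (key u hu v hv)
          (mul_nonneg (h.pos hu).le (h.pos (Sys.Nb_subset S V _ hv)).le)
    _ = P.Lam * P.q0 * P.E2 S V q + ∑ u ∈ V, ∑ v ∈ P.Nb S V u, q u * q v *
      ∑ p ∈ S ×ˢ V with (({u, v, p.1, p.2} : Finset α) ∈ P.BB) ∧ p.2 ≠ u ∧ p.2 ≠ v, q p.2 := by
        unfold Sys.E2
        rw [Finset.mul_sum, ← Finset.sum_add_distrib]
        refine Finset.sum_congr rfl fun u _ => ?_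
        rw [Finset.mul_sum, ← Finset.sum_add_distrib]
        refine Finset.sum_congr rfl fun v _ => ?_
        ring
    _ ≤ _ := by
        have : ((625 : ℕ) : ℝ) = 625 := by norm_num
        rw [this] at h2
        linarith

/-- Double counting for triples. -/
lemma Sys.dc3 {S V : Finset α} {q : α → ℝ} (h : P.Good V q) (hd : Disjoint S V) (r : ℝ)
    (hr : 1 ≤ r) (E : Finset (Finset α)) (hE : E ⊆ P.H2 ∪ P.Hw) (ψ : Finset α → ℝ)
    (hψ0 : ∀ e ∈ E, 0 ≤ ψ e) (hψ : ∀ e ∈ E, ψ e ≤ ∏ x ∈ e, phi r S V q x) :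
    ∑ e ∈ E, ψ e * P.thS S V q (e ∩ V)
      ≤ 6 * (P.Lam * P.q0) * ∑ e ∈ E, ψ e + 4800 * P.Up r S V q := by
  have hcard : ∀ e ∈ E, e.card = 3 := by
    intro e he
    rcases Finset.mem_union.1 (hE he) with h1 | h1
    · exact P.H2card e h1
    · exact P.Hwcard e h1
  have key : ∀ e ∈ E, P.thS S V q (e ∩ V) ≤ 6 * (P.Lam * P.q0 +
      ∑ p ∈ S ×ˢ V with (insert p.2 (insert p.1 e) ∈ P.BB), q p.2) := by
    intro e he
    set M : ℝ := P.Lam * P.q0 +
      ∑ p ∈ S ×ˢ V with (insert p.2 (insert p.1 e) ∈ P.BB), q p.2 with hM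
    have hM0 : 0 ≤ M := by
      refine add_nonneg (mul_nonneg Sys.Lam_pos.le P.q0pos.le) (Finset.sum_nonneg fun p hp => ?_)
      rw [Finset.mem_filter, Finset.mem_product] at hp
      exact (h.pos hp.1.2).le
    have h1 : ∀ x ∈ e ∩ V, ∀ y ∈ (e ∩ V).erase x, P.th S V q x y ≤ M := by
      intro x hx y hy
      rw [Finset.mem_inter] at hx
      rw [Finset.mem_erase, Finset.mem_inter] at hy
      obtain ⟨c, hc⟩ := P.T3 S V hd e (hE he) x hx.1 y hy.2.1 hy.1.symm hx.2 hy.2.2
      refine (Sys.th_le h x y c (fun a z => insert z (insert a e) ∈ P.BB) hc).trans ?_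
      rw [hM]
      refine add_le_add le_rfl (Finset.sum_le_sum_of_subset_of_nonneg ?_ ?_)
      · intro p hp
        rw [Finset.mem_filter] at hp ⊢
        exact ⟨hp.1, hp.2.1⟩
      · intro p hp _
        rw [Finset.mem_filter, Finset.mem_product] at hp
        exact (h.pos hp.1.2).le
    have h2 : (e ∩ V).card ≤ 3 := (Finset.card_le_card Finset.inter_subset_left).trans
      (hcard e he).le
    unfold Sys.thS
    calc ∑ x ∈ e ∩ V, ∑ y ∈ (e ∩ V).erase x, P.th S V q x y
        ≤ ∑ x ∈ e ∩ V, ∑ y ∈ (e ∩ V).erase x, M :=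
          Finset.sum_le_sum fun x hx => Finset.sum_le_sum fun y hy => h1 x hx y hy
      _ ≤ ∑ x ∈ e ∩ V, 2 * M := by
          refine Finset.sum_le_sum fun x hx => ?_
          rw [Finset.sum_const, nsmul_eq_mul, Finset.card_erase_of_mem hx]
          refine mul_le_mul_of_nonneg_right ?_ hM0
          have : (e ∩ V).card - 1 ≤ 2 := by omega
          exact_mod_cast this
      _ = (e ∩ V).card * (2 * M) := by rw [Finset.sum_const, nsmul_eq_mul]
      _ ≤ 3 * (2 * M) := mul_le_mul_of_nonneg_right (by exact_mod_cast h2) (by positivity)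
      _ = 6 * M := by ring
  set I : Finset (Finset α × α × α) := (E ×ˢ S ×ˢ V).filter (fun t =>
    insert t.2.2 (insert t.2.1 t.1) ∈ P.BB) with hI
  have h2 : ∑ t ∈ I, ψ t.1 * q t.2.2 ≤ (800 : ℕ) * P.Up r S V q := by
    unfold Sys.Up
    refine sum_fiber_le I (fun t => insert t.2.2 (insert t.2.1 t.1)) P.BB _
      (fun B => ∏ x ∈ B, phi r S V q x) 800 ?_ ?_ ?_ ?_
    · intro t ht
      exact (Finset.mem_filter.1 ht).2
    · rintro ⟨e, a, z⟩ ht
      simp only [hI, Finset.mem_filter, Finset.mem_product] at ht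
      obtain ⟨⟨he, ha, hz⟩, -⟩ := ht
      dsimp only
      have hpz := h.pos hz
      have hpz1 := h.le_half hz
      have h3 := hψ0 e he
      have h4 := hψ e he
      have h5 : ∏ x ∈ insert a e, phi r S V q x = ∏ x ∈ e, phi r S V q x := by
        by_cases hae : a ∈ e
        · rw [Finset.insert_eq_of_mem hae]
        · rw [Finset.prod_insert hae, phi_S ha, one_mul]
      by_cases hze : z ∈ insert a e
      · rw [Finset.insert_eq_of_mem hze, h5]
        nlinarith
      · rw [Finset.prod_insert hze, h5, phi_V hd hz]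
        have h6 : q z ≤ r * q z := by nlinarith
        calc ψ e * q z ≤ (∏ x ∈ e, phi r S V q x) * (r * q z) := by
              gcongr
              linarith
          _ = _ := by ring
    · intro B _
      exact Finset.prod_nonneg fun _ _ => phi_nonneg (by linarith) h S _
    · intro B hB
      have hsub : I.filter (fun t => insert t.2.2 (insert t.2.1 t.1) = B)
          ⊆ B.powerset ×ˢ B ×ˢ B := by
        rintro ⟨e, a, z⟩ ht
        have h3 := (Finset.mem_filter.1 ht).2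
        dsimp only at h3
        subst h3
        simp only [Finset.mem_product, Finset.mem_powerset, Finset.mem_insert, true_or, or_true,
          and_true]
        exact (Finset.subset_insert _ _).trans (Finset.subset_insert _ _)
      refine (Finset.card_le_card hsub).trans ?_
      rw [Finset.card_product, Finset.card_product, Finset.card_powerset]
      have h5 := P.BBcard B hB
      calc 2 ^ B.card * (B.card * B.card) ≤ 2 ^ 5 * (5 * 5) := by
            gcongr
            norm_num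
        _ = 800 := by norm_num
  have h3 : ∑ e ∈ E, ψ e * ∑ p ∈ S ×ˢ V with (insert p.2 (insert p.1 e) ∈ P.BB), q p.2
      = ∑ t ∈ I, ψ t.1 * q t.2.2 := by
    rw [hI, Finset.sum_filter, Finset.sum_product]
    refine Finset.sum_congr rfl fun e _ => ?_
    rw [Finset.mul_sum, Finset.sum_filter]
  calc ∑ e ∈ E, ψ e * P.thS S V q (e ∩ V)
      ≤ ∑ e ∈ E, ψ e * (6 * (P.Lam * P.q0 +
      ∑ p ∈ S ×ˢ V with (insert p.2 (insert p.1 e) ∈ P.BB), q p.2)) :=
        Finset.sum_le_sum fun e he => mul_le_mul_of_nonneg_left (key e he) (hψ0 e he)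
    _ = 6 * (P.Lam * P.q0) * ∑ e ∈ E, ψ e + 6 * ∑ e ∈ E, ψ e *
        ∑ p ∈ S ×ˢ V with (insert p.2 (insert p.1 e) ∈ P.BB), q p.2 := by
        rw [Finset.mul_sum, Finset.mul_sum, ← Finset.sum_add_distrib]
        exact Finset.sum_congr rfl fun e _ => by ring
    _ ≤ _ := by
        rw [h3]
        have : ((800 : ℕ) : ℝ) = 800 := by norm_num
        rw [this] at h2
        linarith

/-- Expected number of triples. -/
lemma Sys.EE_E3 {S V : Finset α} {q : α → ℝ} (h : P.Good V q) (hd : Disjoint S V) (r : ℝ)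
    (hr : 1 ≤ r) :
    EE V q (fun A => P.E3 (P.Vn S V q A) (P.qn S V q))
      ≤ (1 + 6 * P.Lam ^ 4 * P.q0) * P.E3 V q + 4800 * P.Lam ^ 3 * P.Up r S V q := by
  have h1 : ∀ A ⊆ V, P.E3 (P.Vn S V q A) (P.qn S V q)
      = ∑ e ∈ P.H2 with e ⊆ V, (if ∅ ⊆ A ∧ e ⊆ P.Vn S V q A then
          ∏ x ∈ e, P.qn S V q x else 0) := by
    intro A _
    unfold Sys.E3
    rw [← Finset.sum_filter, Finset.filter_filter]
    refine Finset.sum_congr ?_ fun _ _ => rfl
    refine Finset.filter_congr fun e _ => ?_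
    constructor
    · intro h2
      exact ⟨h2.trans (Sys.Vn_subset _ _ _ _), Finset.empty_subset _, h2⟩
    · intro h2
      exact h2.2.2
  rw [EE_congr h1, EE_sum]
  have h2 : ∀ e ∈ P.H2.filter (fun e => e ⊆ V), EE V q (fun A =>
      (if ∅ ⊆ A ∧ e ⊆ P.Vn S V q A then ∏ x ∈ e, P.qn S V q x else 0))
      ≤ (∏ x ∈ e, q x) + P.Lam ^ 3 * ((∏ x ∈ e, q x) * P.thS S V q (e ∩ V)) := by
    intro e he
    rw [Finset.mem_filter] at he
    refine (Sys.star h ∅ e (Finset.empty_subset _) he.2).trans ?_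
    rw [Finset.prod_empty, one_mul, P.H2card e he.1, Finset.inter_eq_left.2 he.2]
    linarith
  refine (Finset.sum_le_sum h2).trans ?_
  rw [Finset.sum_add_distrib, ← Finset.mul_sum]
  have h3 := Sys.dc3 h hd r hr (P.H2.filter (fun e => e ⊆ V))
    ((Finset.filter_subset _ _).trans Finset.subset_union_left) (fun e => ∏ x ∈ e, q x)
    (fun e he => Finset.prod_nonneg fun x hx => (h.pos ((Finset.mem_filter.1 he).2 hx)).le) ?_
  · have h4 : 0 < P.Lam ^ 3 := pow_pos Sys.Lam_pos 3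
    have h5 := mul_le_mul_of_nonneg_left h3 h4.le
    have h6 : ∑ e ∈ P.H2 with e ⊆ V, ∏ x ∈ e, q x = P.E3 V q := rfl
    rw [h6] at h5 ⊢
    linarith
  · intro e he
    refine Finset.prod_le_prod (fun x hx => (h.pos ((Finset.mem_filter.1 he).2 hx)).le)
      fun x hx => ?_
    have hxV := (Finset.mem_filter.1 he).2 hx
    rw [phi_V hd hxV]
    have := h.pos hxV
    nlinarith

/-- Expected number of window edges. -/
lemma Sys.EE_Ph {S V : Finset α} {q : α → ℝ} (h : P.Good V q) (hd : Disjoint S V) (r : ℝ)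
    (hr : 0 ≤ r) :
    EE V q (fun A => P.Ph r (S ∪ A) (P.Vn S V q A) (P.qn S V q))
      ≤ (1 + 6 * P.Lam ^ 4 * P.q0) * P.Ph (r + 1) S V q
        + 4800 * P.Lam ^ 3 * P.Up (r + 1) S V q := by
  unfold Sys.Ph
  rw [EE_sum]
  have h2 : ∀ e ∈ P.Hw, EE V q (fun A =>
      ∏ x ∈ e, phi r (S ∪ A) (P.Vn S V q A) (P.qn S V q) x)
      ≤ (∏ x ∈ e, phi (r + 1) S V q x) + P.Lam ^ 3 * ((∏ x ∈ e, phi (r + 1) S V q x) *
        P.thS S V q (e ∩ V)) := by
    intro e he
    refine (Sys.EE_phi3 h hd e (P.Hwcard e he).le r hr).trans ?_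
    linarith
  refine (Finset.sum_le_sum h2).trans ?_
  rw [Finset.sum_add_distrib, ← Finset.mul_sum]
  have h3 := Sys.dc3 h hd (r + 1) (by linarith) P.Hw Finset.subset_union_right
    (fun e => ∏ x ∈ e, phi (r + 1) S V q x)
    (fun e he => Finset.prod_nonneg fun x _ => phi_nonneg (by linarith) h S x)
    (fun e he => le_rfl)
  have h4 : 0 < P.Lam ^ 3 := pow_pos Sys.Lam_pos 3
  have h5 := mul_le_mul_of_nonneg_left h3 h4.le
  linarith

/-- Expected number of bad configurations. -/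
lemma Sys.EE_Up {S V : Finset α} {q : α → ℝ} (h : P.Good V q) (hd : Disjoint S V) (r : ℝ)
    (hr : 0 ≤ r) :
    EE V q (fun A => P.Up r (S ∪ A) (P.Vn S V q A) (P.qn S V q))
      ≤ P.Lam ^ 5 * P.Up (r + 1) S V q := by
  unfold Sys.Up
  rw [EE_sum, Finset.mul_sum]
  exact Finset.sum_le_sum fun B hB => Sys.EE_phi5 h hd B (P.BBcard B hB) r hr

end Pool.Agent.H33.Nibble
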