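import Pool.Agent.H33.Nibble3

set_option autoImplicit false

open Finset
open Pool.Agent.H33.Rand

namespace Pool.Agent.H33.Nibble

variable {α : Type*} [DecidableEq α] {P : Sys α}

lemma Sys.th_comm (S V : Finset α) (q : α → ℝ) (u v : α) :
    P.th S V q u v = P.th S V q v u := by
  unfold Sys.th; rw [Finset.inter_comm]

lemma Sys.thS_pair (S V : Finset α) (q : α → ℝ) {u v : α} (huv : u ≠ v) :
    P.thS S V q {u, v} = 2 * P.th S V q u v := by
  unfold Sys.thS
  rw [Finset.sum_pair huv]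
  have h1 : ({u, v} : Finset α).erase u = {v} := by
    rw [Finset.erase_insert]; simpa using huv
  have h2 : ({u, v} : Finset α).erase v = {u} := by
    rw [Finset.pair_comm, Finset.erase_insert]; simpa using huv.symm
  rw [h1, h2, Finset.sum_singleton, Finset.sum_singleton, Sys.th_comm S V q v u]
  ring

/-- Pointwise bound for the number of graph edges at the next step. -/
lemma Sys.E2_next {S V : Finset α} {q : α → ℝ} (h : P.Good V q) {A : Finset α} (hA : A ⊆ V) :
    P.E2 (S ∪ A) (P.Vn S V q A) (P.qn S V q) ≤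
      (∑ u ∈ V, ∑ v ∈ P.Nb S V u, (if ∅ ⊆ A ∧ {u, v} ⊆ P.Vn S V q A then
        ∏ x ∈ {u, v}, P.qn S V q x else 0)) +
      ∑ t ∈ V ×ˢ V ×ˢ V with ({t.1, t.2.1, t.2.2} : Finset α) ∈ P.H2,
        (if {t.1} ⊆ A ∧ {t.2.1, t.2.2} ⊆ P.Vn S V q A then
          ∏ x ∈ {t.2.1, t.2.2}, P.qn S V q x else 0) := by
  classical
  have hqn : ∀ u ∈ V, 0 ≤ P.qn S V q u := fun u hu => (h.pos hu).le.trans (h.le_qn S hu)
  have hVn : P.Vn S V q A ⊆ V := Sys.Vn_subset _ _ _ _
  -- expand the triple sum
  rw [Finset.sum_filter, Finset.sum_product_right, Finset.sum_product]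
  rw [← Finset.sum_add_distrib]
  unfold Sys.E2
  have step : ∀ u ∈ V, (if u ∈ P.Vn S V q A then
      ∑ v ∈ P.Nb (S ∪ A) (P.Vn S V q A) u, P.qn S V q u * P.qn S V q v else 0)
      ≤ (∑ v ∈ P.Nb S V u, (if ∅ ⊆ A ∧ {u, v} ⊆ P.Vn S V q A then
        ∏ x ∈ {u, v}, P.qn S V q x else 0)) + ∑ v ∈ V, ∑ a ∈ V,
        (if ({a, u, v} : Finset α) ∈ P.H2 then (if {a} ⊆ A ∧ {u, v} ⊆ P.Vn S V q A then
          ∏ x ∈ {u, v}, P.qn S V q x else 0) else 0) := by
    intro u hu
    have hnn2 : ∀ v ∈ V, ∀ a ∈ V, (0:ℝ) ≤ (if ({a, u, v} : Finset α) ∈ P.H2 then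
        (if {a} ⊆ A ∧ {u, v} ⊆ P.Vn S V q A then
          ∏ x ∈ {u, v}, P.qn S V q x else 0) else 0) := by
      intro v hv a _
      split_ifs
      · refine Finset.prod_nonneg fun x hx => ?_
        rw [Finset.mem_insert, Finset.mem_singleton] at hx
        rcases hx with rfl | rfl
        · exact hqn _ hu
        · exact hqn _ hv
      · exact le_rfl
      · exact le_rfl
    have hnn1 : ∀ v ∈ V, (0:ℝ) ≤ (if ∅ ⊆ A ∧ {u, v} ⊆ P.Vn S V q A then
        ∏ x ∈ {u, v}, P.qn S V q x else 0) := by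
      intro v hv
      split_ifs
      · refine Finset.prod_nonneg fun x hx => ?_
        rw [Finset.mem_insert, Finset.mem_singleton] at hx
        rcases hx with rfl | rfl
        · exact hqn _ hu
        · exact hqn _ hv
      · exact le_rfl
    split_ifs with huV
    · have h1 : ∑ v ∈ P.Nb S V u, (if ∅ ⊆ A ∧ {u, v} ⊆ P.Vn S V q A then
        ∏ x ∈ {u, v}, P.qn S V q x else 0) = ∑ v ∈ V, (if P.GS S u v then
          (if ∅ ⊆ A ∧ {u, v} ⊆ P.Vn S V q A then
        ∏ x ∈ {u, v}, P.qn S V q x else 0) else 0) := by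
        rw [← Finset.sum_filter (fun v => P.GS S u v)]
        refine Finset.sum_congr ?_ fun _ _ => rfl
        ext z
        rw [Sys.mem_Nb, Finset.mem_filter]
      rw [h1, ← Finset.sum_add_distrib]
      have h2 : ∑ v ∈ P.Nb (S ∪ A) (P.Vn S V q A) u, P.qn S V q u * P.qn S V q v
          = ∑ v ∈ V, (if v ∈ P.Vn S V q A ∧ P.GS (S ∪ A) u v then
            P.qn S V q u * P.qn S V q v else 0) := by
        rw [← Finset.sum_filter]
        refine Finset.sum_congr ?_ fun _ _ => rfl
        ext z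
        rw [Sys.mem_Nb, Finset.mem_filter]
        constructor
        · exact fun hz => ⟨hVn hz.1, hz⟩
        · exact fun hz => hz.2
      rw [h2]
      refine Finset.sum_le_sum fun v hv => ?_
      by_cases hc : v ∈ P.Vn S V q A ∧ P.GS (S ∪ A) u v
      · rw [if_pos hc]
        have huv : u ≠ v := by
          rintro rfl
          exact P.GS_irr hc.2
        have hsub : ({u, v} : Finset α) ⊆ P.Vn S V q A := by
          intro x hx
          rw [Finset.mem_insert, Finset.mem_singleton] at hx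
          rcases hx with rfl | rfl
          · exact huV
          · exact hc.1
        have hprod : ∏ x ∈ {u, v}, P.qn S V q x = P.qn S V q u * P.qn S V q v :=
          Finset.prod_pair huv
        rcases hc.2 with hG | ⟨a, ha, hH⟩
        · have hGS : P.GS S u v := Or.inl hG
          rw [if_pos hGS, if_pos ⟨Finset.empty_subset _, hsub⟩, hprod]
          have := Finset.sum_nonneg (hnn2 v hv)
          rw [hprod] at this
          linarith
        · rcases Finset.mem_union.1 ha with haS | haA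
          · have hGS : P.GS S u v := Or.inr ⟨a, haS, hH⟩
            rw [if_pos hGS, if_pos ⟨Finset.empty_subset _, hsub⟩, hprod]
            have := Finset.sum_nonneg (hnn2 v hv)
            rw [hprod] at this
            linarith
          · have h3 := Finset.single_le_sum (hnn2 v hv) (hA haA)
            rw [if_pos hH, if_pos ⟨Finset.singleton_subset_iff.2 haA, hsub⟩, hprod] at h3
            have h4 : (0:ℝ) ≤ (if P.GS S u v then
              (if ∅ ⊆ A ∧ {u, v} ⊆ P.Vn S V q A then
              ∏ x ∈ {u, v}, P.qn S V q x else 0) else 0) := by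
              split_ifs with h5 h6
              · rw [hprod]; exact mul_nonneg (hqn u hu) (hqn v hv)
              · exact le_rfl
              · exact le_rfl
            rw [hprod] at h4 ⊢
            linarith
      · rw [if_neg hc]
        refine add_nonneg ?_ (Finset.sum_nonneg (hnn2 v hv))
        by_cases h5 : P.GS S u v
        · rw [if_pos h5]; exact hnn1 v hv
        · rw [if_neg h5]
    · refine add_nonneg (Finset.sum_nonneg fun v hv => hnn1 v (Sys.Nb_subset S V u hv))
        (Finset.sum_nonneg fun v hv => Finset.sum_nonneg (hnn2 v hv))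
  have h6 : ∑ u ∈ P.Vn S V q A, ∑ v ∈ P.Nb (S ∪ A) (P.Vn S V q A) u,
      P.qn S V q u * P.qn S V q v = ∑ u ∈ V, (if u ∈ P.Vn S V q A then
      ∑ v ∈ P.Nb (S ∪ A) (P.Vn S V q A) u, P.qn S V q u * P.qn S V q v else 0) := by
    rw [Finset.sum_ite_mem, Finset.inter_eq_right.2 hVn]
  rw [h6]
  exact Finset.sum_le_sum step

/-- Expected number of graph edges. -/
lemma Sys.EE_E2 {S V : Finset α} {q : α → ℝ} (h : P.Good V q) (hd : Disjoint S V) (r : ℝ)
    (hr : 1 ≤ r) :
    EE V q (fun A => P.E2 (S ∪ A) (P.Vn S V q A) (P.qn S V q))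
      ≤ (1 + 6 * P.Lam ^ 4 * P.q0) * (P.E2 S V q + 27 * P.E3 V q)
        + 131000 * P.Lam ^ 3 * P.Up r S V q := by
  have h0 : ∀ a ∈ V, 0 ≤ q a := fun a ha => (h.pos ha).le
  have h1 : ∀ a ∈ V, q a ≤ 1 := fun a ha => by have := h.le_half ha; linarith
  refine (EE_mono h0 h1 fun A hA => Sys.E2_next h hA).trans ?_
  rw [EE_add, EE_sum, EE_sum]
  -- first part
  have hfirst : ∑ u ∈ V, EE V q (fun A => ∑ v ∈ P.Nb S V u, (if ∅ ⊆ A ∧ {u, v} ⊆ P.Vn S V q A then
        ∏ x ∈ {u, v}, P.qn S V q x else 0))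
      ≤ P.E2 S V q + 2 * P.Lam ^ 2 * (P.Lam * P.q0 * P.E2 S V q + 625 * P.Up r S V q) := by
    have h2 : ∀ u ∈ V, EE V q (fun A => ∑ v ∈ P.Nb S V u, (if ∅ ⊆ A ∧ {u, v} ⊆ P.Vn S V q A then
        ∏ x ∈ {u, v}, P.qn S V q x else 0))
        ≤ ∑ v ∈ P.Nb S V u, (q u * q v + 2 * P.Lam ^ 2 * (q u * q v * P.th S V q u v)) := by
      intro u hu
      rw [EE_sum]
      refine Finset.sum_le_sum fun v hv => ?_
      rw [Sys.mem_Nb] at hv
      have huv : u ≠ v := by
        rintro rfl
        exact P.GS_irr hv.2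
      have hsub : ({u, v} : Finset α) ⊆ V := by
        intro x hx
        rw [Finset.mem_insert, Finset.mem_singleton] at hx
        rcases hx with rfl | rfl
        · exact hu
        · exact hv.1
      refine (Sys.star h ∅ {u, v} (Finset.empty_subset _) hsub).trans ?_
      rw [Finset.prod_empty, Finset.prod_pair huv, Finset.card_pair huv, Sys.thS_pair S V q huv]
      apply le_of_eq
      ring
    refine (Finset.sum_le_sum h2).trans ?_
    have h3 := Sys.dc2 h hd r hr
    have h4 : ∑ u ∈ V, ∑ v ∈ P.Nb S V u, (q u * q v + 2 * P.Lam ^ 2 *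
        (q u * q v * P.th S V q u v)) = P.E2 S V q + 2 * P.Lam ^ 2 *
          ∑ u ∈ V, ∑ v ∈ P.Nb S V u, q u * q v * P.th S V q u v := by
      unfold Sys.E2
      rw [Finset.mul_sum, ← Finset.sum_add_distrib]
      refine Finset.sum_congr rfl fun u _ => ?_
      rw [Finset.mul_sum, ← Finset.sum_add_distrib]
    rw [h4]
    have h5 : 0 ≤ 2 * P.Lam ^ 2 := by positivity
    have := mul_le_mul_of_nonneg_left h3 h5
    linarith
  -- second part
  have hsecond : ∑ t ∈ V ×ˢ V ×ˢ V with ({t.1, t.2.1, t.2.2} : Finset α) ∈ P.H2,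
        EE V q (fun A => (if {t.1} ⊆ A ∧ {t.2.1, t.2.2} ⊆ P.Vn S V q A then
          ∏ x ∈ {t.2.1, t.2.2}, P.qn S V q x else 0))
      ≤ 27 * ((1 + 6 * P.Lam ^ 4 * P.q0) * P.E3 V q + 4800 * P.Lam ^ 3 * P.Up r S V q) := by
    have hpos : ∀ e ∈ P.H2.filter (fun e => e ⊆ V), 0 ≤ ∏ x ∈ e, q x := fun e he =>
      Finset.prod_nonneg fun x hx => (h.pos ((Finset.mem_filter.1 he).2 hx)).le
    have hLam3 : 0 ≤ P.Lam ^ 3 := pow_nonneg Sys.Lam_pos.le 3
    have h2 : ∑ t ∈ V ×ˢ V ×ˢ V with ({t.1, t.2.1, t.2.2} : Finset α) ∈ P.H2,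
        EE V q (fun A => (if {t.1} ⊆ A ∧ {t.2.1, t.2.2} ⊆ P.Vn S V q A then
          ∏ x ∈ {t.2.1, t.2.2}, P.qn S V q x else 0))
        ≤ (27 : ℕ) * ∑ e ∈ P.H2.filter (fun e => e ⊆ V),
          ((∏ x ∈ e, q x) * (1 + P.Lam ^ 3 * P.thS S V q (e ∩ V))) := by
      refine sum_fiber_le _ (fun t => ({t.1, t.2.1, t.2.2} : Finset α))
        (P.H2.filter (fun e => e ⊆ V)) _ (fun e => (∏ x ∈ e, q x) *
          (1 + P.Lam ^ 3 * P.thS S V q (e ∩ V))) 27 ?_ ?_ ?_ ?_
      · rintro ⟨a, u, v⟩ ht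
        simp only [Finset.mem_filter, Finset.mem_product] at ht ⊢
        refine ⟨ht.2, ?_⟩
        intro x hx
        simp only [Finset.mem_insert, Finset.mem_singleton] at hx
        rcases hx with rfl | rfl | rfl
        · exact ht.1.1
        · exact ht.1.2.1
        · exact ht.1.2.2
      · rintro ⟨a, u, v⟩ ht
        simp only [Finset.mem_filter, Finset.mem_product] at ht
        obtain ⟨⟨ha, hu, hv⟩, hH⟩ := ht
        have hc3 := P.H2card _ hH
        have huv : u ≠ v := by
          rintro rfl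
          have : ({a, u, u} : Finset α).card ≤ 2 := by
            rw [Finset.pair_eq_singleton]; exact Finset.card_le_two
          omega
        have hau : a ∉ ({u, v} : Finset α) := by
          intro hmem
          rw [Finset.insert_eq_of_mem hmem] at hc3
          have : ({u, v} : Finset α).card ≤ 2 := Finset.card_le_two
          omega
        have hsub : ({u, v} : Finset α) ⊆ V := by
          intro x hx
          rw [Finset.mem_insert, Finset.mem_singleton] at hx
          rcases hx with rfl | rfl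
          · exact hu
          · exact hv
        dsimp only
        refine (Sys.star h {a} {u, v} (Finset.singleton_subset_iff.2 ha) hsub).trans ?_
        have hins : ({a, u, v} : Finset α) ⊆ V := Finset.insert_subset ha hsub
        rw [Finset.inter_eq_left.2 hins, Finset.prod_singleton, Finset.prod_insert hau,
          Finset.card_pair huv]
        refine mul_le_mul_of_nonneg_left ?_ (mul_nonneg (h0 a ha)
          (Finset.prod_nonneg fun x hx => h0 x (hsub hx)))
        have h3 : P.Lam ^ 2 ≤ P.Lam ^ 3 := pow_le_pow_right₀ Sys.one_le_Lam (by norm_num)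
        have h4 := Sys.thS_mono h S (Finset.subset_insert a ({u, v} : Finset α))
        have h5 := Sys.thS_nonneg h S ({u, v} : Finset α)
        have h6 := mul_le_mul h3 h4 h5 hLam3
        linarith
      · intro e he
        refine mul_nonneg (hpos e he) ?_
        have := mul_nonneg hLam3 (Sys.thS_nonneg h S (e ∩ V))
        linarith
      · intro e he
        rw [Finset.mem_filter] at he
        have hsub : ((V ×ˢ V ×ˢ V).filter (fun t => ({t.1, t.2.1, t.2.2} : Finset α) ∈ P.H2)).filter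
            (fun t => ({t.1, t.2.1, t.2.2} : Finset α) = e) ⊆ e ×ˢ e ×ˢ e := by
          rintro ⟨a, u, v⟩ ht
          have h3 := (Finset.mem_filter.1 ht).2
          dsimp only at h3
          subst h3
          simp
        refine (Finset.card_le_card hsub).trans ?_
        rw [Finset.card_product, Finset.card_product, P.H2card e he.1]
    have h3 := Sys.dc3 h hd r hr (P.H2.filter (fun e => e ⊆ V))
      ((Finset.filter_subset _ _).trans Finset.subset_union_left) (fun e => ∏ x ∈ e, q x)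
      hpos ?_
    · have h5 := mul_le_mul_of_nonneg_left h3 hLam3
      have h6 : ∑ e ∈ P.H2 with e ⊆ V, ∏ x ∈ e, q x = P.E3 V q := rfl
      rw [h6] at h5
      have h7 : ∑ e ∈ P.H2.filter (fun e => e ⊆ V),
          ((∏ x ∈ e, q x) * (1 + P.Lam ^ 3 * P.thS S V q (e ∩ V)))
          = P.E3 V q + P.Lam ^ 3 * ∑ e ∈ P.H2.filter (fun e => e ⊆ V),
            (∏ x ∈ e, q x) * P.thS S V q (e ∩ V) := by
        unfold Sys.E3
        rw [Finset.mul_sum, ← Finset.sum_add_distrib]
        exact Finset.sum_congr rfl fun e _ => by ring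
      rw [h7] at h2
      push_cast at h2
      refine h2.trans ?_
      linarith
    · intro e he
      refine Finset.prod_le_prod (fun x hx => (h.pos ((Finset.mem_filter.1 he).2 hx)).le)
        fun x hx => ?_
      have hxV := (Finset.mem_filter.1 he).2 hx
      rw [phi_V hd hxV]
      have := h.pos hxV
      nlinarith
  refine (add_le_add hfirst hsecond).trans ?_
  have hE2 := Sys.E2_nonneg (S := S) h
  have hE3 := Sys.E3_nonneg h
  have hU := Sys.Up_nonneg (S := S) h (r := r) (by linarith)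
  have hL1 := Sys.one_le_Lam (P := P)
  have hq := P.q0pos
  have hL3 : P.Lam ^ 2 ≤ P.Lam ^ 3 := pow_le_pow_right₀ hL1 (by norm_num)
  have hL4 : P.Lam ^ 3 ≤ P.Lam ^ 4 := pow_le_pow_right₀ hL1 (by norm_num)
  have e1 : P.Lam ^ 2 * P.Up r S V q ≤ P.Lam ^ 3 * P.Up r S V q :=
    mul_le_mul_of_nonneg_right hL3 hU
  have e2 : P.Lam ^ 3 * (P.q0 * P.E2 S V q) ≤ P.Lam ^ 4 * (P.q0 * P.E2 S V q) :=
    mul_le_mul_of_nonneg_right hL4 (by positivity)
  have e3 : 0 ≤ P.Lam ^ 4 * (P.q0 * P.E2 S V q) := by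
    have := Sys.Lam_pos (P := P)
    positivity
  have e4 : 0 ≤ P.Lam ^ 3 * P.Up r S V q := by
    have := Sys.Lam_pos (P := P)
    positivity
  nlinarith

open scoped Classical in
/-- The chosen vertices that are kept. -/
noncomputable def Sys.A0 (P : Sys α) (S A : Finset α) : Finset α :=
  A.filter (fun u => (∀ v ∈ A, ¬ P.GS S u v) ∧ ∀ e ∈ P.H2, u ∈ e → ¬ e ⊆ A)

lemma Sys.mem_A0 {S A : Finset α} {u : α} : u ∈ P.A0 S A ↔
    u ∈ A ∧ (∀ v ∈ A, ¬ P.GS S u v) ∧ ∀ e ∈ P.H2, u ∈ e → ¬ e ⊆ A := by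
  classical
  unfold Sys.A0; exact Finset.mem_filter

lemma Sys.card_A0 {S V A : Finset α} (hA : A ⊆ V) :
    (∑ v ∈ V, (if {v} ⊆ A ∧ Disjoint (∅ : Finset α) A then (1:ℝ) else 0))
      - (∑ u ∈ V, ∑ v ∈ P.Nb S V u, (if {u, v} ⊆ A ∧ Disjoint (∅ : Finset α) A then (1:ℝ) else 0))
      - (∑ e ∈ P.H2 with e ⊆ V, 3 * (if e ⊆ A ∧ Disjoint (∅ : Finset α) A then (1:ℝ) else 0))
      ≤ ((P.A0 S A).card : ℝ) := by
  classical
  have hnn : ∀ u : α, ∀ v ∈ P.Nb S V u, (0:ℝ) ≤
      (if {u, v} ⊆ A ∧ Disjoint (∅ : Finset α) A then (1:ℝ) else 0) := by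
    intro u v _
    split_ifs <;> norm_num
  set B1 : Finset α := A.filter (fun u => ∃ v ∈ A, P.GS S u v) with hB1
  set B2 : Finset α := (P.H2.filter (fun e => e ⊆ A)).biUnion id with hB2
  have hsub : A ⊆ P.A0 S A ∪ (B1 ∪ B2) := by
    intro u hu
    by_cases h1 : ∀ v ∈ A, ¬ P.GS S u v
    · by_cases h2 : ∀ e ∈ P.H2, u ∈ e → ¬ e ⊆ A
      · exact Finset.mem_union_left _ (Sys.mem_A0.2 ⟨hu, h1, h2⟩)
      · push Not at h2
        obtain ⟨e, he, hue, heA⟩ := h2
        refine Finset.mem_union_right _ (Finset.mem_union_right _ ?_)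
        exact Finset.mem_biUnion.2 ⟨e, Finset.mem_filter.2 ⟨he, heA⟩, hue⟩
    · push Not at h1
      obtain ⟨v, hv, hG⟩ := h1
      exact Finset.mem_union_right _ (Finset.mem_union_left _ (Finset.mem_filter.2 ⟨hu, v, hv, hG⟩))
  have hcard : (A.card : ℝ) ≤ (P.A0 S A).card + B1.card + B2.card := by
    have h1 := (Finset.card_le_card hsub).trans (Finset.card_union_le _ _)
    have h2 := Finset.card_union_le B1 B2
    have : A.card ≤ (P.A0 S A).card + B1.card + B2.card := by omega
    exact_mod_cast this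
  have hAcard : ∑ v ∈ V, (if {v} ⊆ A ∧ Disjoint (∅ : Finset α) A then (1:ℝ) else 0) = A.card := by
    rw [← Finset.sum_filter, Finset.sum_const, nsmul_eq_mul, mul_one]
    congr 2
    ext v
    simp only [Finset.mem_filter, Finset.singleton_subset_iff, Finset.disjoint_empty_left, and_true]
    exact ⟨fun hv => hv.2, fun hv => ⟨hA hv, hv⟩⟩
  have hB1card : (B1.card : ℝ) ≤ ∑ u ∈ V, ∑ v ∈ P.Nb S V u,
      (if {u, v} ⊆ A ∧ Disjoint (∅ : Finset α) A then (1:ℝ) else 0) := by
    have h1 : (B1.card : ℝ) = ∑ u ∈ V, (if u ∈ B1 then (1:ℝ) else 0) := by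
      rw [Finset.sum_ite_mem, Finset.inter_eq_right.2 ((Finset.filter_subset _ _).trans hA),
        Finset.sum_const, nsmul_eq_mul, mul_one]
    rw [h1]
    refine Finset.sum_le_sum fun u _ => ?_
    split_ifs with hu
    · obtain ⟨huA, v, hv, hG⟩ := Finset.mem_filter.1 hu
      have hvN : v ∈ P.Nb S V u := Sys.mem_Nb.2 ⟨hA hv, hG⟩
      have h2 := Finset.single_le_sum (hnn u) hvN
      rw [if_pos] at h2
      · exact h2
      · refine ⟨?_, Finset.disjoint_empty_left _⟩
        intro x hx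
        rw [Finset.mem_insert, Finset.mem_singleton] at hx
        rcases hx with rfl | rfl
        · exact huA
        · exact hv
    · exact Finset.sum_nonneg (hnn u)
  have hB2card : (B2.card : ℝ) ≤
      ∑ e ∈ P.H2 with e ⊆ V, 3 * (if e ⊆ A ∧ Disjoint (∅ : Finset α) A then (1:ℝ) else 0) := by
    have h1 : B2.card ≤ ∑ e ∈ P.H2.filter (fun e => e ⊆ A), e.card := Finset.card_biUnion_le
    have h2 : ∑ e ∈ P.H2.filter (fun e => e ⊆ A), e.card
        = ∑ e ∈ P.H2.filter (fun e => e ⊆ A), 3 :=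
      Finset.sum_congr rfl fun e he => P.H2card e (Finset.mem_filter.1 he).1
    have h3 : (B2.card : ℝ) ≤ ∑ e ∈ P.H2.filter (fun e => e ⊆ A), (3:ℝ) := by
      rw [h2] at h1
      calc (B2.card : ℝ) ≤ ((∑ e ∈ P.H2.filter (fun e => e ⊆ A), 3 : ℕ) : ℝ) := by exact_mod_cast h1
        _ = _ := by push_cast; rfl
    refine h3.trans (le_of_eq ?_)
    rw [Finset.sum_filter, Finset.sum_filter]
    refine Finset.sum_congr rfl fun e _ => ?_
    by_cases he : e ⊆ A
    · simp [he, he.trans hA]
    · simp [he]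
  rw [hAcard]
  linarith

/-- Expected number of vertices kept. -/
lemma Sys.EE_A0 {S V : Finset α} {q : α → ℝ} (h : P.Good V q) :
    (∑ v ∈ V, q v) - P.E2 S V q - 3 * P.E3 V q ≤
      EE V q (fun A => ((P.A0 S A).card : ℝ)) := by
  have h0 : ∀ a ∈ V, 0 ≤ q a := fun a ha => (h.pos ha).le
  have h1 : ∀ a ∈ V, q a ≤ 1 := fun a ha => by have := h.le_half ha; linarith
  refine le_trans (le_of_eq ?_) (EE_mono h0 h1 fun A hA => Sys.card_A0 (S := S) (P := P) hA)
  rw [EE_sub, EE_sub, EE_sum, EE_sum, EE_sum]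
  congr 1
  · congr 1
    · refine Finset.sum_congr rfl fun v hv => ?_
      rw [EE_ind V q {v} ∅ (Finset.singleton_subset_iff.2 hv) (Finset.empty_subset _)
        (Finset.disjoint_empty_right _)]
      simp
    · unfold Sys.E2
      refine Finset.sum_congr rfl fun u hu => ?_
      rw [EE_sum]
      refine Finset.sum_congr rfl fun v hv => ?_
      rw [Sys.mem_Nb] at hv
      have huv : u ≠ v := by
        rintro rfl
        exact P.GS_irr hv.2
      have hsub : ({u, v} : Finset α) ⊆ V := by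
        intro x hx
        rw [Finset.mem_insert, Finset.mem_singleton] at hx
        rcases hx with rfl | rfl
        · exact hu
        · exact hv.1
      rw [EE_ind V q {u, v} ∅ hsub (Finset.empty_subset _)
        (Finset.disjoint_empty_right _), Finset.prod_pair huv]
      simp
  · unfold Sys.E3
    rw [Finset.mul_sum]
    refine Finset.sum_congr rfl fun e he => ?_
    rw [EE_mul, EE_ind V q e ∅ (Finset.mem_filter.1 he).2 (Finset.empty_subset _)
        (Finset.disjoint_empty_right _)]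
    simp

end Pool.Agent.H33.Nibble
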