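import Pool.Agent.H33.Nibble4

set_option autoImplicit false

open Finset
open Pool.Agent.H33.Rand

namespace Pool.Agent.H33.Nibble

variable {α : Type*} [DecidableEq α] {P : Sys α}

lemma neg_log_le {x : ℝ} (h0 : 0 ≤ x) (h1 : x ≤ 1 / 2) : -Real.log (1 - x) ≤ 2 * x := by
  have hpos : 0 < 1 - x := by linarith
  have h := Real.one_sub_inv_le_log_of_pos hpos
  have h2 : (1 - x)⁻¹ ≤ 1 + 2 * x := by
    rw [inv_le_iff_one_le_mul₀ hpos]
    nlinarith
  linarith

/-- Comparison of the logarithmic weights. -/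
lemma Sys.log_qn {S V : Finset α} {q : α → ℝ} (h : P.Good V q) {v : α} (hv : v ∈ V) :
    Real.log (P.qn S V q v / P.q0) ≤ Real.log (q v / P.q0) + 2 * ∑ z ∈ P.Nb S V v, q z := by
  have hp := h.pr_pos S v
  have hq := h.pos hv
  have h1 : P.qn S V q v / P.q0 = (q v / P.q0) / P.pr S V q v := by
    unfold Sys.qn
    field_simp
  rw [h1, Real.log_div (div_pos hq P.q0pos).ne' hp.ne']
  have h2 : -Real.log (P.pr S V q v) ≤ 2 * ∑ z ∈ P.Nb S V v, q z := by
    unfold Sys.pr
    rw [Real.log_prod (fun z hz => by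
      have := h.le_half (Sys.Nb_subset S V v hz)
      linarith), ← Finset.sum_neg_distrib, Finset.mul_sum]
    refine Finset.sum_le_sum fun z hz => ?_
    exact neg_log_le (h.pos (Sys.Nb_subset S V v hz)).le (h.le_half (Sys.Nb_subset S V v hz))
  linarith

lemma Sys.EE_Vn {S V : Finset α} {q : α → ℝ} (h : P.Good V q) {v : α} (hv : v ∈ V)
    (hqn : P.qn S V q v ≤ P.Lam * P.q0) :
    P.pr S V q v * (1 - q v - ∑ e ∈ P.H2 with e ⊆ V ∧ v ∈ e, ∏ x ∈ e.erase v, q x) ≤
      EE V q (fun A => if v ∈ P.Vn S V q A then (1:ℝ) else 0) := by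
  have h0 : ∀ a ∈ V, 0 ≤ q a := fun a ha => (h.pos ha).le
  have h1 : ∀ a ∈ V, q a ≤ 1 := fun a ha => by have := h.le_half ha; linarith
  have hNb := Sys.Nb_subset (P := P) S V v
  have key : ∀ A ⊆ V, (if ∅ ⊆ A ∧ Disjoint (P.Nb S V v) A then (1:ℝ) else 0)
      - (if {v} ⊆ A ∧ Disjoint (P.Nb S V v) A then (1:ℝ) else 0)
      - (∑ e ∈ P.H2 with e ⊆ V ∧ v ∈ e,
          (if e.erase v ⊆ A ∧ Disjoint (P.Nb S V v) A then (1:ℝ) else 0))
      ≤ (if v ∈ P.Vn S V q A then (1:ℝ) else 0) := by
    intro A hA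
    have hnn : ∀ e ∈ P.H2.filter (fun e => e ⊆ V ∧ v ∈ e), (0:ℝ) ≤
        (if e.erase v ⊆ A ∧ Disjoint (P.Nb S V v) A then (1:ℝ) else 0) := by
      intro e _
      split_ifs <;> norm_num
    have hnn' := Finset.sum_nonneg hnn
    by_cases hVn : v ∈ P.Vn S V q A
    · rw [if_pos hVn]
      have h2 : (if ∅ ⊆ A ∧ Disjoint (P.Nb S V v) A then (1:ℝ) else 0) ≤ 1 := by
        split_ifs <;> norm_num
      have h3 : (0:ℝ) ≤ (if {v} ⊆ A ∧ Disjoint (P.Nb S V v) A then (1:ℝ) else 0) := by
        split_ifs <;> norm_num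
      linarith
    · rw [if_neg hVn]
      by_cases hdis : Disjoint (P.Nb S V v) A
      · by_cases hvA : v ∈ A
        · rw [if_pos ⟨Finset.empty_subset _, hdis⟩,
            if_pos ⟨Finset.singleton_subset_iff.2 hvA, hdis⟩]
          linarith
        · -- there is a triple
          have h2 : ∃ a ∈ A, ∃ b ∈ A, ({v, a, b} : Finset α) ∈ P.H2 := by
            by_contra hcon
            push Not at hcon
            exact hVn (Sys.mem_Vn.2 ⟨hv, hvA, hdis, hcon, hqn⟩)
          obtain ⟨a, ha, b, hb, he⟩ := h2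
          have hmem : ({v, a, b} : Finset α) ∈ P.H2.filter (fun e => e ⊆ V ∧ v ∈ e) := by
            rw [Finset.mem_filter]
            refine ⟨he, ?_, Finset.mem_insert_self _ _⟩
            intro x hx
            simp only [Finset.mem_insert, Finset.mem_singleton] at hx
            rcases hx with rfl | rfl | rfl
            · exact hv
            · exact hA ha
            · exact hA hb
          have h3 := Finset.single_le_sum hnn hmem
          rw [if_pos] at h3
          · rw [if_pos ⟨Finset.empty_subset _, hdis⟩]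
            have h4 : (0:ℝ) ≤ (if {v} ⊆ A ∧ Disjoint (P.Nb S V v) A then (1:ℝ) else 0) := by
              split_ifs <;> norm_num
            linarith
          · refine ⟨?_, hdis⟩
            intro x hx
            rw [Finset.mem_erase] at hx
            simp only [Finset.mem_insert, Finset.mem_singleton] at hx
            rcases hx with ⟨hxv, rfl | rfl | rfl⟩
            · exact absurd rfl hxv
            · exact ha
            · exact hb
      · rw [if_neg (fun hh => hdis hh.2), if_neg (fun hh => hdis hh.2)]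
        linarith
  refine le_trans ?_ (EE_mono h0 h1 key)
  rw [EE_sub, EE_sub, EE_sum]
  have e1 : EE V q (fun A => (if ∅ ⊆ A ∧ Disjoint (P.Nb S V v) A then (1:ℝ) else 0))
      = P.pr S V q v := by
    rw [EE_ind V q ∅ (P.Nb S V v) (Finset.empty_subset _) hNb (Finset.disjoint_empty_left _)]
    simp [Sys.pr]
  have e2 : EE V q (fun A => (if {v} ⊆ A ∧ Disjoint (P.Nb S V v) A then (1:ℝ) else 0))
      ≤ q v * P.pr S V q v := by
    refine (EE_ind_le h0 h1 {v} (P.Nb S V v) (Finset.singleton_subset_iff.2 hv) hNb).trans ?_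
    simp [Sys.pr]
  have e3 : ∑ e ∈ P.H2 with e ⊆ V ∧ v ∈ e, EE V q (fun A =>
      (if e.erase v ⊆ A ∧ Disjoint (P.Nb S V v) A then (1:ℝ) else 0))
      ≤ ∑ e ∈ P.H2 with e ⊆ V ∧ v ∈ e, (∏ x ∈ e.erase v, q x) * P.pr S V q v := by
    refine Finset.sum_le_sum fun e he => ?_
    refine (EE_ind_le h0 h1 (e.erase v) (P.Nb S V v)
      ((Finset.erase_subset _ _).trans (Finset.mem_filter.1 he).2.1) hNb).trans ?_
    simp [Sys.pr]
  rw [← Finset.sum_mul] at e3
  rw [e1]
  nlinarith

/-- Expected value of the main term. -/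
lemma Sys.EE_X {S V : Finset α} {q : α → ℝ} (h : P.Good V q) :
    P.XX V q - (2 / P.lam) * P.E2 S V q - 3 * P.E3 V q - V.card * (P.Lam * P.q0) ^ 2 ≤
      EE V q (fun A => P.XX (P.Vn S V q A) (P.qn S V q)) := by
  have hlam := P.lampos
  have h1 : ∀ A ⊆ V, P.XX (P.Vn S V q A) (P.qn S V q) =
      ∑ v ∈ V, (P.qn S V q v * (1 - Real.log (P.qn S V q v / P.q0) / P.lam)) *
        (if v ∈ P.Vn S V q A then 1 else 0) := by
    intro A _
    unfold Sys.XX
    simp only [mul_ite, mul_one, mul_zero]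
    rw [Finset.sum_ite_mem, Finset.inter_eq_right.2 (Sys.Vn_subset _ _ _ _)]
  rw [EE_congr h1, EE_sum]
  have h2 : ∀ v ∈ V, q v * (1 - Real.log (q v / P.q0) / P.lam)
      - (2 / P.lam) * ∑ z ∈ P.Nb S V v, q v * q z
      - (∑ e ∈ P.H2 with e ⊆ V ∧ v ∈ e, ∏ x ∈ e, q x) - (P.Lam * P.q0) ^ 2 ≤
      EE V q (fun A => (P.qn S V q v * (1 - Real.log (P.qn S V q v / P.q0) / P.lam)) *
        (if v ∈ P.Vn S V q A then 1 else 0)) := by
    intro v hv
    rw [EE_mul]
    have hq := h.pos hv
    have hp := h.pr_pos S v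
    set w : ℝ := 1 - Real.log (P.qn S V q v / P.q0) / P.lam with hw
    have hlog := Sys.log_qn (S := S) h hv
    have hle : q v * (1 - Real.log (q v / P.q0) / P.lam)
        - (2 / P.lam) * ∑ z ∈ P.Nb S V v, q v * q z ≤ q v * w := by
      rw [hw, ← Finset.mul_sum]
      have h3 : Real.log (P.qn S V q v / P.q0) / P.lam ≤
          Real.log (q v / P.q0) / P.lam + (2 / P.lam) * ∑ z ∈ P.Nb S V v, q z := by
        rw [div_add' _ _ _ hlam.ne', div_le_div_iff_of_pos_right hlam]
        have : 2 / P.lam * (∑ z ∈ P.Nb S V v, q z) * P.lam = 2 * ∑ z ∈ P.Nb S V v, q z := by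
          field_simp
        linarith
      nlinarith
    have hy0 : 0 ≤ ∑ e ∈ P.H2 with e ⊆ V ∧ v ∈ e, ∏ x ∈ e, q x := by
      refine Finset.sum_nonneg fun e he => Finset.prod_nonneg fun x hx => ?_
      exact (h.pos ((Finset.mem_filter.1 he).2.1 hx)).le
    by_cases hqn : P.qn S V q v ≤ P.Lam * P.q0
    · have hE := Sys.EE_Vn h hv hqn
      have hy : q v * ∑ e ∈ P.H2 with e ⊆ V ∧ v ∈ e, ∏ x ∈ e.erase v, q x
          = ∑ e ∈ P.H2 with e ⊆ V ∧ v ∈ e, ∏ x ∈ e, q x := by
        rw [Finset.mul_sum]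
        refine Finset.sum_congr rfl fun e he => ?_
        exact Finset.mul_prod_erase e q (Finset.mem_filter.1 he).2.2
      set y : ℝ := ∑ e ∈ P.H2 with e ⊆ V ∧ v ∈ e, ∏ x ∈ e.erase v, q x with hydef
      have hy1 : 0 ≤ y := by
        refine Finset.sum_nonneg fun e he => Finset.prod_nonneg fun x hx => ?_
        exact (h.pos ((Finset.mem_filter.1 he).2.1 (Finset.mem_of_mem_erase hx))).le
      have hqnv : q v ≤ P.qn S V q v := h.le_qn S hv
      have hw1 : w ≤ 1 := by
        rw [hw]
        have : 0 ≤ Real.log (P.qn S V q v / P.q0) := by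
          apply Real.log_nonneg
          rw [one_le_div P.q0pos]
          exact (h v hv).1.trans hqnv
        have := div_nonneg this hlam.le
        linarith
      have hw0 : 0 ≤ w := by
        rw [hw]
        have : Real.log (P.qn S V q v / P.q0) ≤ P.lam := by
          rw [Real.log_le_iff_le_exp (div_pos (hq.trans_le hqnv) P.q0pos)]
          rw [div_le_iff₀ P.q0pos]
          exact hqn
        have := (div_le_one hlam).2 this
        linarith
      have h3 : P.qn S V q v * w * (P.pr S V q v * (1 - q v - y)) ≤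
          P.qn S V q v * w * EE V q (fun A => if v ∈ P.Vn S V q A then (1:ℝ) else 0) :=
        mul_le_mul_of_nonneg_left hE (mul_nonneg (hq.le.trans hqnv) hw0)
      refine le_trans ?_ h3
      have h4 : P.qn S V q v * w * (P.pr S V q v * (1 - q v - y)) = q v * w * (1 - q v - y) := by
        have : P.qn S V q v * P.pr S V q v = q v := by
          unfold Sys.qn; exact div_mul_cancel₀ _ hp.ne'
        calc P.qn S V q v * w * (P.pr S V q v * (1 - q v - y))
            = (P.qn S V q v * P.pr S V q v) * w * (1 - q v - y) := by ring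
          _ = _ := by rw [this]
      rw [h4, ← hy]
      have h5 : q v ^ 2 ≤ (P.Lam * P.q0) ^ 2 := pow_le_pow_left₀ hq.le (h v hv).2 2
      have h6 : 0 ≤ (1 - w) * (q v * (q v + y)) :=
        mul_nonneg (by linarith) (mul_nonneg hq.le (by linarith))
      nlinarith
    · have hEE : EE V q (fun A => if v ∈ P.Vn S V q A then (1:ℝ) else 0) = 0 := by
        rw [EE_congr (g := fun _ => 0), EE_const]
        intro A _
        rw [if_neg]
        exact fun hm => hqn (Sys.mem_Vn.1 hm).2.2.2.2
      rw [hEE, mul_zero]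
      push Not at hqn
      have hw0 : w ≤ 0 := by
        rw [hw]
        have : P.lam ≤ Real.log (P.qn S V q v / P.q0) := by
          rw [Real.le_log_iff_exp_le (div_pos (hq.trans_le (h.le_qn S hv)) P.q0pos)]
          rw [le_div_iff₀ P.q0pos]
          exact hqn.le
        have := (one_le_div hlam).2 this
        linarith
      have h5 : q v * w ≤ 0 := mul_nonpos_of_nonneg_of_nonpos hq.le hw0
      have h6 : 0 ≤ (P.Lam * P.q0) ^ 2 := sq_nonneg _
      linarith
  refine le_trans (le_of_eq ?_) (Finset.sum_le_sum h2)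
  rw [Finset.sum_sub_distrib, Finset.sum_sub_distrib, Finset.sum_sub_distrib, Finset.sum_const,
    nsmul_eq_mul, ← Finset.mul_sum]
  have h3 : ∑ v ∈ V, ∑ e ∈ P.H2 with e ⊆ V ∧ v ∈ e, ∏ x ∈ e, q x = 3 * P.E3 V q := by
    unfold Sys.E3
    have h4 : ∀ v ∈ V, ∑ e ∈ P.H2 with e ⊆ V ∧ v ∈ e, ∏ x ∈ e, q x
        = ∑ e ∈ P.H2 with e ⊆ V, (if v ∈ e then ∏ x ∈ e, q x else 0) := by
      intro v _
      rw [← Finset.sum_filter, Finset.filter_filter]
    rw [Finset.sum_congr rfl h4, Finset.sum_comm, Finset.mul_sum]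
    refine Finset.sum_congr rfl fun e he => ?_
    rw [Finset.mem_filter] at he
    rw [Finset.sum_ite_mem, Finset.inter_eq_right.2 he.2, Finset.sum_const, P.H2card e he.1,
      nsmul_eq_mul]
    norm_num
  rw [h3]
  rfl

lemma Sys.XX_le {V : Finset α} {q : α → ℝ} (h : P.Good V q) : P.XX V q ≤ ∑ v ∈ V, q v := by
  unfold Sys.XX
  refine Finset.sum_le_sum fun v hv => ?_
  have hq := h.pos hv
  have h1 : 0 ≤ Real.log (q v / P.q0) := by
    apply Real.log_nonneg
    rw [one_le_div P.q0pos]
    exact (h v hv).1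
  have := div_nonneg h1 P.lampos.le
  nlinarith

/-- The main induction. -/
theorem Sys.main (P : Sys α) (N L : ℕ) (a b c d g : ℕ → ℝ)
    (ha0 : ∀ r, 0 ≤ a r) (hb0 : ∀ r, 0 ≤ b r) (hc0 : ∀ r, 0 ≤ c r) (hd0 : ∀ r, 0 ≤ d r)
    (hg0 : 0 ≤ g 0) (hc1 : 1 ≤ c 0)
    (ha : ∀ r < L, 1 + r * (2 / P.lam) + (1 + 6 * P.Lam ^ 4 * P.q0) * a r ≤ a (r + 1))
    (hb : ∀ r < L, 3 * (r + 1) + 27 * ((1 + 6 * P.Lam ^ 4 * P.q0) * a r)
      + (1 + 6 * P.Lam ^ 4 * P.q0) * b r ≤ b (r + 1))
    (hc : ∀ r < L, (1 + 6 * P.Lam ^ 4 * P.q0) * c r ≤ c (r + 1))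
    (hd : ∀ r < L, 131000 * P.Lam ^ 3 * a r + 4800 * P.Lam ^ 3 * b r + 4800 * P.Lam ^ 3 * c r
      + P.Lam ^ 5 * d r ≤ d (r + 1))
    (hg : ∀ r < L, g r + r * (N * (P.Lam * P.q0) ^ 2) ≤ g (r + 1)) :
    ∀ r ≤ L, ∀ (S V : Finset α) (q : α → ℝ), Disjoint S V → P.Good V q → V.card ≤ N →
      ∃ J ⊆ V, (∀ u ∈ J, ∀ v ∈ J, ¬ P.GS S u v) ∧ (∀ e ∈ P.H2, ¬ e ⊆ J) ∧
        r * P.XX V q - a r * P.E2 S V q - b r * P.E3 V q - c r * P.Ph r S V q
          - d r * P.Up r S V q - g r ≤ (J.card : ℝ) - ((P.Hw.filter (fun e => e ⊆ S ∪ J)).card : ℝ)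
    := by
  intro r
  induction r with
  | zero =>
    intro _ S V q hdis hgood _
    refine ⟨∅, Finset.empty_subset _, by simp, ?_, ?_⟩
    · intro e he hsub
      have := P.H2card e he
      rw [Finset.subset_empty] at hsub
      rw [hsub] at this
      simp at this
    · have h1 : P.Ph 0 S V q = ((P.Hw.filter (fun e => e ⊆ S ∪ ∅)).card : ℝ) := by
        unfold Sys.Ph
        rw [Finset.card_eq_sum_ones, Nat.cast_sum, Finset.sum_filter]
        refine Finset.sum_congr rfl fun e _ => ?_
        rw [Finset.union_empty]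
        by_cases heS : e ⊆ S
        · rw [if_pos heS]
          push_cast
          exact Finset.prod_eq_one fun x hx => phi_S (heS hx)
        · rw [if_neg heS]
          obtain ⟨x, hx, hxS⟩ := Finset.not_subset.1 heS
          refine Finset.prod_eq_zero hx ?_
          unfold phi
          rw [if_neg hxS]
          simp
      have hE2 := mul_nonneg (ha0 0) (Sys.E2_nonneg (S := S) hgood)
      have hE3 := mul_nonneg (hb0 0) (Sys.E3_nonneg hgood)
      have hU := mul_nonneg (hd0 0) (Sys.Up_nonneg (S := S) hgood (r := 0) le_rfl)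
      have hP := Sys.Ph_nonneg (S := S) hgood (r := 0) le_rfl
      rw [← h1]
      simp only [Nat.cast_zero, Finset.card_empty]
      nlinarith
  | succ r ih =>
    intro hrL S V q hdis hgood hcard
    have hr : r < L := hrL
    have h0 : ∀ a ∈ V, 0 ≤ q a := fun a ha => (hgood.pos ha).le
    have h1 : ∀ a ∈ V, q a ≤ 1 := fun a ha => by have := hgood.le_half ha; linarith
    set f : Finset α → ℝ := fun A => ((P.A0 S A).card : ℝ) + r * P.XX (P.Vn S V q A) (P.qn S V q)
      - a r * P.E2 (S ∪ A) (P.Vn S V q A) (P.qn S V q) - b r * P.E3 (P.Vn S V q A) (P.qn S V q)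
      - c r * P.Ph r (S ∪ A) (P.Vn S V q A) (P.qn S V q)
      - d r * P.Up r (S ∪ A) (P.Vn S V q A) (P.qn S V q) - g r with hf
    obtain ⟨A, hA, hfA⟩ := exists_ge_EE h0 h1 f
    -- apply the induction hypothesis
    obtain ⟨J, hJV, hJG, hJH, hJ⟩ := ih hr.le (S ∪ A) (P.Vn S V q A) (P.qn S V q)
      (Sys.disj_next hdis q A) (hgood.next S A)
      ((Finset.card_le_card (Sys.Vn_subset _ _ _ _)).trans hcard)
    have hA0A : P.A0 S A ⊆ A := fun x hx => (Sys.mem_A0.1 hx).1
    refine ⟨P.A0 S A ∪ J, ?_, ?_, ?_, ?_⟩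
    · exact Finset.union_subset (hA0A.trans hA) (hJV.trans (Sys.Vn_subset _ _ _ _))
    · -- no graph edge
      intro u hu v hv hG
      rcases Finset.mem_union.1 hu with hu | hu <;> rcases Finset.mem_union.1 hv with hv | hv
      · exact (Sys.mem_A0.1 hu).2.1 v (hA0A hv) hG
      · have h2 := (Sys.mem_Vn.1 (hJV hv)).2.2.1
        exact Finset.disjoint_left.1 h2 (Sys.mem_Nb.2 ⟨hA (hA0A hu), P.GS_symm hG⟩) (hA0A hu)
      · have h2 := (Sys.mem_Vn.1 (hJV hu)).2.2.1
        exact Finset.disjoint_left.1 h2 (Sys.mem_Nb.2 ⟨hA (hA0A hv), hG⟩) (hA0A hv)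
      · exact hJG u hu v hv (P.GS_mono Finset.subset_union_left hG)
    · -- no triple
      intro e he hsub
      by_cases h2 : e ⊆ J
      · exact hJH e he h2
      · by_cases h3 : e ⊆ P.A0 S A
        · have hne : e.Nonempty := by
            rw [← Finset.card_pos, P.H2card e he]; norm_num
          obtain ⟨x, hx⟩ := hne
          exact (Sys.mem_A0.1 (h3 hx)).2.2 e he hx (h3.trans hA0A)
        · -- a vertex `x` in `A0`, a vertex `y` in `J`
          obtain ⟨x, hx, hxJ⟩ := Finset.not_subset.1 h2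
          obtain ⟨y, hy, hyA⟩ := Finset.not_subset.1 h3
          have hxA : x ∈ P.A0 S A := (Finset.mem_union.1 (hsub hx)).resolve_right hxJ
          have hyJ : y ∈ J := (Finset.mem_union.1 (hsub hy)).resolve_left hyA
          have hxy : x ≠ y := by
            rintro rfl
            exact hyA hxA
          -- third vertex
          have hc3 := P.H2card e he
          obtain ⟨z, hz⟩ : ∃ z, z ∈ (e.erase x).erase y := by
            have : ((e.erase x).erase y).card = 1 := by
              rw [Finset.card_erase_of_mem (Finset.mem_erase.2 ⟨hxy.symm, hy⟩),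
                Finset.card_erase_of_mem hx, hc3]
            exact Finset.card_pos.1 (by omega)
          rw [Finset.mem_erase, Finset.mem_erase] at hz
          obtain ⟨hzy, hzx, hze⟩ := hz
          have heq : e = {x, y, z} := by
            symm
            apply Finset.eq_of_subset_of_card_le
            · intro w hw
              simp only [Finset.mem_insert, Finset.mem_singleton] at hw
              rcases hw with rfl | rfl | rfl
              · exact hx
              · exact hy
              · exact hze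
            · rw [hc3, Finset.card_eq_three.2 ⟨x, y, z, hxy, hzx.symm, hzy.symm, rfl⟩]
          rcases Finset.mem_union.1 (hsub hze) with hzA | hzJ
          · -- two vertices in A
            refine (Sys.mem_Vn.1 (hJV hyJ)).2.2.2.1 x (hA0A hxA) z (hA0A hzA) ?_
            have : ({y, x, z} : Finset α) = {x, y, z} := Finset.insert_comm _ _ _
            rw [this, ← heq]
            exact he
          · refine hJG y hyJ z hzJ (Or.inr ⟨x, Finset.mem_union_right _ (hA0A hxA), ?_⟩)
            rw [← heq]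
            exact he
    · -- the count
      have hdisj : Disjoint (P.A0 S A) J := by
        rw [Finset.disjoint_left]
        intro x hx hxJ
        exact (Sys.mem_Vn.1 (hJV hxJ)).2.1 (hA0A hx)
      rw [Finset.card_union_of_disjoint hdisj, Nat.cast_add]
      have hfil : ((P.Hw.filter (fun e => e ⊆ S ∪ (P.A0 S A ∪ J))).card : ℝ)
          ≤ ((P.Hw.filter (fun e => e ⊆ S ∪ A ∪ J)).card : ℝ) := by
        have : (P.Hw.filter (fun e => e ⊆ S ∪ (P.A0 S A ∪ J))).card
          ≤ (P.Hw.filter (fun e => e ⊆ S ∪ A ∪ J)).card := by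
          refine Finset.card_le_card fun e he => ?_
          rw [Finset.mem_filter] at he ⊢
          refine ⟨he.1, he.2.trans ?_⟩
          rw [Finset.union_assoc]
          exact Finset.union_subset_union le_rfl (Finset.union_subset_union hA0A le_rfl)
        exact_mod_cast this
      have hEf : (r + 1) * P.XX V q - a (r + 1) * P.E2 S V q - b (r + 1) * P.E3 V q
          - c (r + 1) * P.Ph (r + 1) S V q - d (r + 1) * P.Up (r + 1) S V q - g (r + 1)
          ≤ EE V q f := by
        have hr1 : (1:ℝ) ≤ (r:ℝ) + 1 := by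
          have : (0:ℝ) ≤ r := Nat.cast_nonneg r
          linarith
        have hr0 : (0:ℝ) ≤ r := Nat.cast_nonneg r
        have eA := Sys.EE_A0 (S := S) hgood
        have eX := Sys.EE_X (S := S) hgood
        have e2 := Sys.EE_E2 hgood hdis ((r:ℝ) + 1) hr1
        have e3 := Sys.EE_E3 hgood hdis ((r:ℝ) + 1) hr1
        have eP := Sys.EE_Ph hgood hdis (r:ℝ) hr0
        have eU := Sys.EE_Up hgood hdis (r:ℝ) hr0
        have hXle := Sys.XX_le hgood
        have hEEf : EE V q f = EE V q (fun A => ((P.A0 S A).card : ℝ))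
            + r * EE V q (fun A => P.XX (P.Vn S V q A) (P.qn S V q))
            - a r * EE V q (fun A => P.E2 (S ∪ A) (P.Vn S V q A) (P.qn S V q))
            - b r * EE V q (fun A => P.E3 (P.Vn S V q A) (P.qn S V q))
            - c r * EE V q (fun A => P.Ph r (S ∪ A) (P.Vn S V q A) (P.qn S V q))
            - d r * EE V q (fun A => P.Up r (S ∪ A) (P.Vn S V q A) (P.qn S V q)) - g r := by
          rw [hf, EE_sub, EE_sub, EE_sub, EE_sub, EE_sub, EE_add, EE_mul, EE_mul, EE_mul, EE_mul,
            EE_mul, EE_const]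
        rw [hEEf]
        have hE2 := Sys.E2_nonneg (S := S) hgood
        have hE3 := Sys.E3_nonneg hgood
        have hP := Sys.Ph_nonneg (S := S) hgood (r := (r:ℝ) + 1) (by linarith)
        have hU := Sys.Up_nonneg (S := S) hgood (r := (r:ℝ) + 1) (by linarith)
        have m2 := mul_le_mul_of_nonneg_left e2 (ha0 r)
        have m3 := mul_le_mul_of_nonneg_left e3 (hb0 r)
        have mP := mul_le_mul_of_nonneg_left eP (hc0 r)
        have mU := mul_le_mul_of_nonneg_left eU (hd0 r)
        have mX := mul_le_mul_of_nonneg_left eX hr0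
        have ra := mul_le_mul_of_nonneg_right (ha r hr) hE2
        have rb := mul_le_mul_of_nonneg_right (hb r hr) hE3
        have rc := mul_le_mul_of_nonneg_right (hc r hr) hP
        have rd := mul_le_mul_of_nonneg_right (hd r hr) hU
        have rg := hg r hr
        have hNV : r * (V.card * (P.Lam * P.q0) ^ 2) ≤ r * (N * (P.Lam * P.q0) ^ 2) := by
          refine mul_le_mul_of_nonneg_left ?_ hr0
          refine mul_le_mul_of_nonneg_right ?_ (sq_nonneg _)
          exact_mod_cast hcard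
        linarith
      have hfA' : f A = ((P.A0 S A).card : ℝ) + r * P.XX (P.Vn S V q A) (P.qn S V q)
      - a r * P.E2 (S ∪ A) (P.Vn S V q A) (P.qn S V q) - b r * P.E3 (P.Vn S V q A) (P.qn S V q)
      - c r * P.Ph r (S ∪ A) (P.Vn S V q A) (P.qn S V q)
      - d r * P.Up r (S ∪ A) (P.Vn S V q A) (P.qn S V q) - g r := rfl
      push_cast
      linarith

end Pool.Agent.H33.Nibble
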