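import Mathlib

set_option autoImplicit false

open Finset

namespace Pool.Agent.H33.Rand

variable {α : Type*} [DecidableEq α]

/-- Probability of the outcome `A` when every `a ∈ V` is kept independently with probability
`q a`. -/
noncomputable def wt (V : Finset α) (q : α → ℝ) (A : Finset α) : ℝ :=
  (∏ a ∈ A, q a) * ∏ a ∈ V \ A, (1 - q a)

/-- Expectation over the random subset. -/
noncomputable def EE (V : Finset α) (q : α → ℝ) (f : Finset α → ℝ) : ℝ :=
  ∑ A ∈ V.powerset, wt V q A * f A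

lemma wt_nonneg {V : Finset α} {q : α → ℝ} (h0 : ∀ a ∈ V, 0 ≤ q a) (h1 : ∀ a ∈ V, q a ≤ 1)
    {A : Finset α} (hA : A ∈ V.powerset) : 0 ≤ wt V q A := by
  rw [Finset.mem_powerset] at hA
  exact mul_nonneg (prod_nonneg fun a ha => h0 a (hA ha))
    (prod_nonneg fun a ha => by linarith [h1 a (Finset.mem_sdiff.1 ha).1])

/-- The basic formula. -/
lemma EE_ind (V : Finset α) (q : α → ℝ) (T N : Finset α) (hT : T ⊆ V) (hN : N ⊆ V)
    (hTN : Disjoint T N) :
    EE V q (fun A => if T ⊆ A ∧ Disjoint N A then 1 else 0)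
      = (∏ a ∈ T, q a) * ∏ a ∈ N, (1 - q a) := by
  have h := Finset.prod_add (fun a => if a ∈ N then 0 else q a)
    (fun a => if a ∈ T then 0 else 1 - q a) V
  have hL : ∏ a ∈ V, ((if a ∈ N then 0 else q a) + (if a ∈ T then 0 else 1 - q a))
      = (∏ a ∈ T, q a) * ∏ a ∈ N, (1 - q a) := by
    have h1 : ∀ a ∈ V, ((if a ∈ N then 0 else q a) + (if a ∈ T then 0 else 1 - q a))
        = (if a ∈ T then q a else 1) * (if a ∈ N then 1 - q a else 1) := by
      intro a _
      by_cases haT : a ∈ T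
      · have haN : a ∉ N := Finset.disjoint_left.1 hTN haT
        simp [haT, haN]
      · by_cases haN : a ∈ N
        · simp [haT, haN]
        · simp [haT, haN]
    rw [Finset.prod_congr rfl h1, Finset.prod_mul_distrib, Finset.prod_ite_mem,
      Finset.prod_ite_mem, Finset.inter_eq_right.2 hT, Finset.inter_eq_right.2 hN]
  rw [← hL, h]
  unfold EE wt
  refine Finset.sum_congr rfl fun A hA => ?_
  rw [Finset.mem_powerset] at hA
  beta_reduce
  by_cases hcond : T ⊆ A ∧ Disjoint N A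
  · rw [if_pos hcond, mul_one]
    congr 1
    · refine Finset.prod_congr rfl fun a ha => ?_
      rw [if_neg (fun haN => Finset.disjoint_left.1 hcond.2 haN ha)]
    · refine Finset.prod_congr rfl fun a ha => ?_
      rw [if_neg (fun haT => (Finset.mem_sdiff.1 ha).2 (hcond.1 haT))]
  · rw [if_neg hcond, mul_zero]
    symm
    rw [not_and_or] at hcond
    rcases hcond with hc | hc
    · obtain ⟨a, haT, haA⟩ := Finset.not_subset.1 hc
      apply mul_eq_zero_of_right
      exact Finset.prod_eq_zero (Finset.mem_sdiff.2 ⟨hT haT, haA⟩) (if_pos haT)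
    · obtain ⟨a, haN, haA⟩ := Finset.not_disjoint_iff.1 hc
      apply mul_eq_zero_of_left
      exact Finset.prod_eq_zero haA (if_pos haN)

lemma sum_wt (V : Finset α) (q : α → ℝ) : ∑ A ∈ V.powerset, wt V q A = 1 := by
  have h := EE_ind V q ∅ ∅ (Finset.empty_subset _) (Finset.empty_subset _)
    (Finset.disjoint_empty_left _)
  simpa [EE] using h

lemma EE_const (V : Finset α) (q : α → ℝ) (c : ℝ) : EE V q (fun _ => c) = c := by
  unfold EE
  rw [← Finset.sum_mul, sum_wt, one_mul]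

lemma EE_add (V : Finset α) (q : α → ℝ) (f g : Finset α → ℝ) :
    EE V q (fun A => f A + g A) = EE V q f + EE V q g := by
  unfold EE
  rw [← Finset.sum_add_distrib]
  exact Finset.sum_congr rfl fun A _ => by ring

lemma EE_sub (V : Finset α) (q : α → ℝ) (f g : Finset α → ℝ) :
    EE V q (fun A => f A - g A) = EE V q f - EE V q g := by
  unfold EE
  rw [← Finset.sum_sub_distrib]
  exact Finset.sum_congr rfl fun A _ => by ring

lemma EE_mul (V : Finset α) (q : α → ℝ) (c : ℝ) (f : Finset α → ℝ) :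
    EE V q (fun A => c * f A) = c * EE V q f := by
  unfold EE
  rw [Finset.mul_sum]
  exact Finset.sum_congr rfl fun A _ => by ring

lemma EE_sum {ι : Type*} (V : Finset α) (q : α → ℝ) (s : Finset ι) (f : ι → Finset α → ℝ) :
    EE V q (fun A => ∑ i ∈ s, f i A) = ∑ i ∈ s, EE V q (f i) := by
  unfold EE
  rw [Finset.sum_comm]
  exact Finset.sum_congr rfl fun A _ => by rw [Finset.mul_sum]

lemma EE_mono {V : Finset α} {q : α → ℝ} (h0 : ∀ a ∈ V, 0 ≤ q a) (h1 : ∀ a ∈ V, q a ≤ 1)
    {f g : Finset α → ℝ} (hfg : ∀ A ⊆ V, f A ≤ g A) : EE V q f ≤ EE V q g := by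
  unfold EE
  exact Finset.sum_le_sum fun A hA => mul_le_mul_of_nonneg_left
    (hfg A (Finset.mem_powerset.1 hA)) (wt_nonneg h0 h1 hA)

lemma EE_congr {V : Finset α} {q : α → ℝ}
    {f g : Finset α → ℝ} (hfg : ∀ A ⊆ V, f A = g A) : EE V q f = EE V q g := by
  unfold EE
  exact Finset.sum_congr rfl fun A hA => by rw [hfg A (Finset.mem_powerset.1 hA)]

lemma EE_nonneg {V : Finset α} {q : α → ℝ} (h0 : ∀ a ∈ V, 0 ≤ q a) (h1 : ∀ a ∈ V, q a ≤ 1)
    {f : Finset α → ℝ} (hf : ∀ A ⊆ V, 0 ≤ f A) : 0 ≤ EE V q f := by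
  have := EE_mono h0 h1 (f := fun _ => 0) hf
  rwa [EE_const] at this

lemma exists_ge_EE {V : Finset α} {q : α → ℝ} (h0 : ∀ a ∈ V, 0 ≤ q a) (h1 : ∀ a ∈ V, q a ≤ 1)
    (f : Finset α → ℝ) : ∃ A ⊆ V, EE V q f ≤ f A := by
  by_contra hcon
  push Not at hcon
  -- the maximum of `f` on the powerset
  obtain ⟨A, hA, hmax⟩ := Finset.exists_max_image V.powerset f ⟨∅, Finset.empty_mem_powerset V⟩
  have h2 : EE V q f ≤ EE V q (fun _ => f A) :=
    EE_mono h0 h1 fun B hB => hmax B (Finset.mem_powerset.2 hB)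
  rw [EE_const] at h2
  exact absurd h2 (not_le.2 (hcon A (Finset.mem_powerset.1 hA)))

/-- Upper bound: probability that `T ⊆ A` and `N` is missed. -/
lemma EE_ind_le {V : Finset α} {q : α → ℝ} (h0 : ∀ a ∈ V, 0 ≤ q a) (h1 : ∀ a ∈ V, q a ≤ 1)
    (T N : Finset α) (hT : T ⊆ V) (hN : N ⊆ V) :
    EE V q (fun A => if T ⊆ A ∧ Disjoint N A then 1 else 0)
      ≤ (∏ a ∈ T, q a) * ∏ a ∈ N, (1 - q a) := by
  by_cases hTN : Disjoint T N
  · exact (EE_ind V q T N hT hN hTN).le
  · have : EE V q (fun A => if T ⊆ A ∧ Disjoint N A then (1 : ℝ) else 0) = EE V q (fun _ => 0) := by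
      refine EE_congr fun A _ => ?_
      rw [if_neg]
      rintro ⟨hTA, hNA⟩
      exact hTN (Finset.disjoint_left.2 fun a haT haN =>
        Finset.disjoint_left.1 hNA haN (hTA haT))
    rw [this, EE_const]
    exact mul_nonneg (prod_nonneg fun a ha => h0 a (hT ha))
      (prod_nonneg fun a ha => by linarith [h1 a (hN ha)])

/-- The inequality `1 - ∑ (1 - a_z) ≤ ∏ a_z` for numbers in `[0,1]`. -/
lemma one_sub_sum_le_prod {ι : Type*} (s : Finset ι) (a : ι → ℝ)
    (h0 : ∀ i ∈ s, 0 ≤ a i) (h1 : ∀ i ∈ s, a i ≤ 1) :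
    1 - ∑ i ∈ s, (1 - a i) ≤ ∏ i ∈ s, a i := by
  classical
  induction s using Finset.induction_on with
  | empty => simp
  | insert i s hi ih =>
    rw [Finset.sum_insert hi, Finset.prod_insert hi]
    have ih' := ih (fun j hj => h0 j (Finset.mem_insert_of_mem hj))
      (fun j hj => h1 j (Finset.mem_insert_of_mem hj))
    have hp1 : ∏ j ∈ s, a j ≤ 1 := Finset.prod_le_one
      (fun j hj => h0 j (Finset.mem_insert_of_mem hj))
      (fun j hj => h1 j (Finset.mem_insert_of_mem hj))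
    have hi0 := h0 i (Finset.mem_insert_self _ _)
    have hi1 := h1 i (Finset.mem_insert_self _ _)
    nlinarith

end Pool.Agent.H33.Rand
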