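import Mathlib

set_option autoImplicit false

open Finset

namespace Pool.Agent.H33.TriSuper


section Weights

variable {E : Type*} [Fintype E] [DecidableEq E]

/-- The probability of the outcome `S` when each element `e` is kept independently with
probability `w e`. -/
noncomputable def wt (w : E → ℝ) (S : Finset E) : ℝ :=
  (∏ e ∈ S, w e) * ∏ e ∈ univ \ S, (1 - w e)

lemma wt_nonneg {w : E → ℝ} (h0 : ∀ e, 0 ≤ w e) (h1 : ∀ e, w e ≤ 1) (S : Finset E) :
    0 ≤ wt w S :=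
  mul_nonneg (prod_nonneg fun e _ => h0 e) (prod_nonneg fun e _ => by linarith [h1 e])

lemma sum_wt_superset (w : E → ℝ) (F : Finset E) :
    ∑ S : Finset E, (if F ⊆ S then wt w S else 0) = ∏ e ∈ F, w e := by
  have h := Finset.prod_add (fun e => w e) (fun e => if e ∈ F then 0 else 1 - w e)
    (univ : Finset E)
  have hL : ∏ e ∈ (univ : Finset E), (w e + if e ∈ F then 0 else 1 - w e)
      = ∏ e ∈ F, w e := by
    have : ∀ e ∈ (univ : Finset E), (w e + if e ∈ F then 0 else 1 - w e)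
        = if e ∈ F then w e else 1 := by
      intro e _
      split_ifs <;> ring
    rw [Finset.prod_congr rfl this, Finset.prod_ite_mem, Finset.univ_inter]
  rw [← hL, h, Finset.powerset_univ]
  refine Finset.sum_congr rfl fun S _ => ?_
  by_cases hFS : F ⊆ S
  · rw [if_pos hFS, wt]
    congr 1
    refine Finset.prod_congr rfl fun e he => ?_
    have : e ∉ F := fun hF => (Finset.mem_sdiff.1 he).2 (hFS hF)
    rw [if_neg this]
  · rw [if_neg hFS]
    obtain ⟨e, heF, heS⟩ := Finset.not_subset.1 hFS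
    symm
    apply mul_eq_zero_of_right
    exact Finset.prod_eq_zero (Finset.mem_sdiff.2 ⟨Finset.mem_univ e, heS⟩) (if_pos heF)

lemma sum_wt (w : E → ℝ) : ∑ S : Finset E, wt w S = 1 := by
  have := sum_wt_superset w ∅
  simpa using this

end Weights

section Copies

variable {V U : Type*}

/-- Labelled copies of `H` in the graph with edge set `S`, as maps. -/
def copyEquiv (H : SimpleGraph U) (S : Set (Sym2 V)) :
    SimpleGraph.Copy H (SimpleGraph.fromEdgeSet S) ≃
      {φ : U → V // Function.Injective φ ∧ ∀ a b, H.Adj a b → s(φ a, φ b) ∈ S} where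
  toFun f := ⟨f.toHom, f.injective', fun a b hab => by
    have := f.toHom.map_adj hab
    rw [SimpleGraph.fromEdgeSet_adj] at this
    exact this.1⟩
  invFun φ := ⟨⟨φ.1, fun {a b} hab => by
    rw [SimpleGraph.fromEdgeSet_adj]
    exact ⟨φ.2.2 a b hab, fun h => hab.ne (φ.2.1 h)⟩⟩, φ.2.1⟩
  left_inv f := rfl
  right_inv φ := rfl

lemma labelledCopyCount_aux [Fintype V] [Fintype U] (H : SimpleGraph U) (S : Set (Sym2 V)) :
    (SimpleGraph.fromEdgeSet S).labelledCopyCount H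
      = Nat.card {φ : U → V // Function.Injective φ ∧ 
          ∀ a b, H.Adj a b → s(φ a, φ b) ∈ S} := by
  classical
  rw [← Nat.card_congr (copyEquiv H S)]
  exact (@Nat.card_eq_fintype_card _ (_)).symm

lemma image_edge_subset_iff [Fintype U] [DecidableEq V] (H : SimpleGraph U) [DecidableRel H.Adj] 
    (S : Finset (Sym2 V)) (φ : U → V) : H.edgeFinset.image (Sym2.map φ) ⊆ S ↔ 
      ∀ a b, H.Adj a b → s(φ a, φ b) ∈ (S : Set (Sym2 V)) := by
  constructor
  · intro h a b hab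
    have : Sym2.map φ s(a, b) ∈ H.edgeFinset.image (Sym2.map φ) :=
      Finset.mem_image_of_mem _ (by simpa using hab)
    simpa using h this
  · intro h e he
    rw [Finset.mem_image] at he
    obtain ⟨e', he', rfl⟩ := he
    induction e' with
    | _ a b =>
      have hab : H.Adj a b := by simpa using he'
      simpa using h a b hab

variable [Fintype V] [DecidableEq V] [Fintype U] [DecidableEq U]

/-- The number of labelled copies of `H` in the graph with edge set `S`, as a sum over maps. -/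
lemma labelledCopyCount_eq (H : SimpleGraph U) [DecidableRel H.Adj] (S : Finset (Sym2 V)) :
    (((SimpleGraph.fromEdgeSet (S : Set (Sym2 V))).labelledCopyCount H : ℕ) : ℝ)
      = ∑ φ : U → V, if Function.Injective φ then
          (if H.edgeFinset.image (Sym2.map φ) ⊆ S then (1 : ℝ) else 0) else 0 := by
  classical
  rw [labelledCopyCount_aux, Nat.card_eq_fintype_card, Fintype.card_subtype, Finset.card_filter]
  push_cast
  refine Finset.sum_congr rfl fun φ _ => ?_
  have hiff := image_edge_subset_iff H S φ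
  by_cases h1 : Function.Injective φ <;> 
    by_cases h2 : ∀ a b, H.Adj a b → s(φ a, φ b) ∈ (S : Set (Sym2 V))
  · rw [if_pos ⟨h1, h2⟩, if_pos h1, if_pos (hiff.2 h2)]
  · rw [if_neg (fun h => h2 h.2), if_pos h1, if_neg (fun h => h2 (hiff.1 h))]
  · rw [if_neg (fun h => h1 h.1), if_neg h1]
  · rw [if_neg (fun h => h1 h.1), if_neg h1]

/-- The expected number of labelled copies. -/
lemma expect_labelled (H : SimpleGraph U) [DecidableRel H.Adj] (w : Sym2 V → ℝ) :
    ∑ S : Finset (Sym2 V), wt w S *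
        ((SimpleGraph.fromEdgeSet (S : Set (Sym2 V))).labelledCopyCount H : ℝ)
      = ∑ φ : U → V, if Function.Injective φ then
          ∏ e ∈ H.edgeFinset, w (Sym2.map φ e) else 0 := by
  classical
  simp_rw [labelledCopyCount_eq, Finset.mul_sum]
  rw [Finset.sum_comm]
  refine Finset.sum_congr rfl fun φ _ => ?_
  by_cases hφ : Function.Injective φ
  · simp only [hφ, if_true]
    have h1 : ∀ S : Finset (Sym2 V),
        wt w S * (if H.edgeFinset.image (Sym2.map φ) ⊆ S then (1 : ℝ) else 0)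
          = if H.edgeFinset.image (Sym2.map φ) ⊆ S then wt w S else 0 := by
      intro S
      split_ifs <;> simp
    simp_rw [h1]
    rw [sum_wt_superset, Finset.prod_image]
    intro a _ b _ hab
    exact Sym2.map.injective hφ hab
  · simp [hφ]

end Copies



section Power

variable {U : Type*} [Fintype U] [DecidableEq U]

/-- The weight on pairs of points of the cube `{0,1}^N` induced by a weight on pairs of bits. -/
noncomputable def cubeW (W : Sym2 Bool → ℝ) (N : ℕ) (e : Sym2 (Fin N → Bool)) : ℝ :=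
  ∏ i, W (Sym2.map (fun x => x i) e)

lemma cubeW_nonneg {W : Sym2 Bool → ℝ} (h0 : ∀ e, 0 ≤ W e) (N : ℕ) (e : Sym2 (Fin N → Bool)) :
    0 ≤ cubeW W N e := prod_nonneg fun _ _ => h0 _

lemma cubeW_le_one {W : Sym2 Bool → ℝ} (h0 : ∀ e, 0 ≤ W e) (h1 : ∀ e, W e ≤ 1) (N : ℕ)
    (e : Sym2 (Fin N → Bool)) : cubeW W N e ≤ 1 := prod_le_one (fun _ _ => h0 _) fun _ _ => h1 _

lemma hom_pow (H : SimpleGraph U) [DecidableRel H.Adj] (W : Sym2 Bool → ℝ) (N : ℕ) :
    ∑ ψ : U → (Fin N → Bool), ∏ e ∈ H.edgeFinset, cubeW W N (Sym2.map ψ e)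
      = (∑ χ : U → Bool, ∏ e ∈ H.edgeFinset, W (Sym2.map χ e)) ^ N := by
  rw [Fintype.sum_pow, ← (Equiv.piComm (fun (_ : Fin N) (_ : U) => Bool)).sum_comp]
  refine Finset.sum_congr rfl fun ψ _ => ?_
  unfold cubeW
  rw [Finset.prod_comm]
  refine Finset.prod_congr rfl fun i _ => Finset.prod_congr rfl fun e _ => ?_
  rw [Sym2.map_map]
  rfl

/-- The weight on pairs of elements of `V` obtained by transport along `j`; zero outside. -/
noncomputable def transW {X V : Type*} [Nonempty X] (j : X → V) (w : Sym2 X → ℝ) (e : Sym2 V) : ℝ := by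
  classical exact if (∀ v ∈ e, v ∈ Set.range j) then w (Sym2.map (Function.invFun j) e) else 0

lemma transW_map {X V : Type*} [Nonempty X] {j : X → V} (hj : Function.Injective j)
    (w : Sym2 X → ℝ) (e : Sym2 X) : transW j w (Sym2.map j e) = w e := by
  have h1 : ∀ v ∈ Sym2.map j e, v ∈ Set.range j := by
    intro v hv
    rw [Sym2.mem_map] at hv
    obtain ⟨a, _, rfl⟩ := hv
    exact ⟨a, rfl⟩
  unfold transW
  rw [if_pos h1, Sym2.map_map, (Function.leftInverse_invFun hj).comp_eq_id, Sym2.map_id, id]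

lemma transW_zero {X V : Type*} [Nonempty X] (j : X → V) (w : Sym2 X → ℝ) (e : Sym2 V) (v : V)
    (hv : v ∈ e) (hvj : v ∉ Set.range j) : transW j w e = 0 := by
  unfold transW
  rw [if_neg (fun h => hvj (h v hv))]

lemma transW_nonneg {X V : Type*} [Nonempty X] (j : X → V) {w : Sym2 X → ℝ} (h0 : ∀ e, 0 ≤ w e)
    (e : Sym2 V) : 0 ≤ transW j w e := by
  unfold transW
  split_ifs
  · exact h0 _
  · exact le_rfl

lemma transW_le_one {X V : Type*} [Nonempty X] (j : X → V) {w : Sym2 X → ℝ} (h1 : ∀ e, w e ≤ 1)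
    (e : Sym2 V) : transW j w e ≤ 1 := by
  unfold transW
  split_ifs
  · exact h1 _
  · exact zero_le_one

lemma sum_trans {X V : Type*} [Fintype X] [Nonempty X] [Fintype V] [DecidableEq X] [DecidableEq V]
    {j : X → V} (hj : Function.Injective j) (w : Sym2 X → ℝ)
    (H : SimpleGraph U) [DecidableRel H.Adj] (hH : ∀ u, ∃ v, H.Adj u v) :
    ∑ φ : U → V, ∏ e ∈ H.edgeFinset, transW j w (Sym2.map φ e)
      = ∑ ψ : U → X, ∏ e ∈ H.edgeFinset, w (Sym2.map ψ e) := by
  symm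
  refine Fintype.sum_of_injective (fun ψ => j ∘ ψ) ?_ _ _ ?_ ?_
  · intro a b hab
    funext u
    exact hj (congrFun hab u)
  · intro φ hφ
    have : ∃ u, φ u ∉ Set.range j := by
      by_contra hcon
      push Not at hcon
      apply hφ
      choose ψ hψ using hcon
      exact ⟨ψ, funext hψ⟩
    obtain ⟨u, hu⟩ := this
    obtain ⟨v, huv⟩ := hH u
    refine Finset.prod_eq_zero (i := s(u, v)) (by simpa using huv) ?_
    exact transW_zero j w _ (φ u) (by simp) hu
  · intro ψ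
    refine Finset.prod_congr rfl fun e _ => ?_
    rw [← Sym2.map_map, transW_map hj]

end Power

section Small

/-- The weight `1` on equal bits and `r` on different bits. -/
noncomputable def bitW (r : ℝ) (e : Sym2 Bool) : ℝ := if e.IsDiag then 1 else r

lemma sum_fin3 (f : (Fin 3 → Bool) → ℝ) :
    ∑ χ, f χ = ∑ a : Bool, ∑ b : Bool, ∑ c : Bool, f ![a, b, c] := by
  rw [← (Fin.consEquiv (fun _ => Bool)).sum_comp, Fintype.sum_prod_type]
  refine Finset.sum_congr rfl fun a _ => ?_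
  rw [← (Fin.consEquiv (fun _ => Bool)).sum_comp, Fintype.sum_prod_type]
  refine Finset.sum_congr rfl fun b _ => ?_
  rw [← (Fin.consEquiv (fun _ => Bool)).sum_comp, Fintype.sum_prod_type]
  refine Finset.sum_congr rfl fun c _ => ?_
  simp
  rfl

lemma tri_sum (r : ℝ) :
    ∑ χ : Fin 3 → Bool, ∏ e ∈ (⊤ : SimpleGraph (Fin 3)).edgeFinset, bitW r (Sym2.map χ e)
      = 2 + 6 * r ^ 2 := by
  have hE : (⊤ : SimpleGraph (Fin 3)).edgeFinset = {s(0,1), s(0,2), s(1,2)} := by decide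
  rw [hE, sum_fin3]
  simp [bitW]
  ring

lemma bip_sum (r : ℝ) (t : ℕ) [DecidableRel (completeBipartiteGraph (Fin 3) (Fin t)).Adj] :
    ∑ χ : Fin 3 ⊕ Fin t → Bool,
        ∏ e ∈ (completeBipartiteGraph (Fin 3) (Fin t)).edgeFinset, bitW r (Sym2.map χ e)
      = 2 * (1 + r ^ 3) ^ t + 6 * (r + r ^ 2) ^ t := by
  have hE : ∀ χ : Fin 3 ⊕ Fin t → Bool,
      ∏ e ∈ (completeBipartiteGraph (Fin 3) (Fin t)).edgeFinset, bitW r (Sym2.map χ e)
        = ∏ j : Fin t, ∏ i : Fin 3, bitW r s(χ (Sum.inl i), χ (Sum.inr j)) := by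
    intro χ
    rw [← Fintype.prod_prod_type']
    symm
    refine Finset.prod_bij (fun p _ => s(Sum.inl p.2, Sum.inr p.1)) ?_ ?_ ?_ ?_
    · intro p _
      simp
    · intro p _ q _ hpq
      have := Sym2.eq_iff.1 hpq
      rcases this with ⟨h1, h2⟩ | ⟨h1, h2⟩
      · exact Prod.ext (Sum.inr.inj h2) (Sum.inl.inj h1)
      · cases h1
    · intro e he
      induction e with
      | _ a b =>
        have hab : (completeBipartiteGraph (Fin 3) (Fin t)).Adj a b := by simpa using he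
        rcases a with a | a <;> rcases b with b | b
        · simp at hab
        · exact ⟨(b, a), Finset.mem_univ _, rfl⟩
        · exact ⟨(a, b), Finset.mem_univ _, Sym2.eq_swap⟩
        · simp at hab
    · intro p _
      simp
  simp_rw [hE]
  rw [← (Equiv.sumArrowEquivProdArrow (Fin 3) (Fin t) Bool).symm.sum_comp, Fintype.sum_prod_type]
  have h2 : ∀ α : Fin 3 → Bool,
      ∑ β : Fin t → Bool, ∏ j : Fin t, ∏ i : Fin 3,
        bitW r s((Equiv.sumArrowEquivProdArrow (Fin 3) (Fin t) Bool).symm (α, β) (Sum.inl i),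
          (Equiv.sumArrowEquivProdArrow (Fin 3) (Fin t) Bool).symm (α, β) (Sum.inr j))
        = (∑ b : Bool, ∏ i : Fin 3, bitW r s(α i, b)) ^ t := by
    intro α
    rw [Fintype.sum_pow]
    rfl
  simp_rw [h2]
  rw [sum_fin3]
  simp [bitW, Fin.prod_univ_three]
  ring

end Small



lemma labelled_triangle_le {V : Type*} [Fintype V] (G : SimpleGraph V) :
    G.labelledCopyCount (⊤ : SimpleGraph (Fin 3))
      ≤ 27 * G.copyCount (⊤ : SimpleGraph (Fin 3)) := by
  classical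
  have h1 : G.labelledCopyCount (⊤ : SimpleGraph (Fin 3))
      = #(Finset.univ : Finset ((⊤ : SimpleGraph (Fin 3)).Copy G)) := by
    unfold SimpleGraph.labelledCopyCount
    rw [Finset.card_univ]
    exact @Fintype.card_congr _ _ (_) (_) (Equiv.refl _)
  rw [h1, SimpleGraph.copyCount_eq_card_image_copyToSubgraph]
  refine Finset.card_le_mul_card_image _ _ ?_
  intro G' hG'
  obtain ⟨f0, -, rfl⟩ := Finset.mem_image.1 hG'
  have h2 : (Finset.univ.filter (fun f : (⊤ : SimpleGraph (Fin 3)).Copy G =>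
      f.toSubgraph = f0.toSubgraph)).image (fun f => (fun i => f i : Fin 3 → V))
      ⊆ (Finset.univ : Finset (Fin 3 → Fin 3)).image (fun σ => fun i => f0 (σ i)) := by
    intro g hg
    obtain ⟨f, hf, rfl⟩ := Finset.mem_image.1 hg
    have hf' : f.toSubgraph = f0.toSubgraph := (Finset.mem_filter.1 hf).2
    have hv : ∀ i, ∃ k, f0 k = f i := by
      intro i
      have : f i ∈ f.toSubgraph.verts := by simp [SimpleGraph.Copy.toSubgraph]
      rw [hf'] at this
      simpa [SimpleGraph.Copy.toSubgraph] using this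
    choose σ hσ using hv
    exact Finset.mem_image.2 ⟨σ, Finset.mem_univ _, funext hσ⟩
  have h3 := Finset.card_le_card h2
  rw [Finset.card_image_of_injective] at h3
  · refine h3.trans (Finset.card_image_le.trans ?_)
    simp
  · intro f g hfg
    exact DFunLike.coe_injective hfg

lemma key_ineq (t : ℕ) (ht : 3 ≤ t) (r : ℝ) (hr : r = (4 * t - 1) / (4 * t + 1)) :
    (2 * (1 + r ^ 3) ^ t + 6 * (r + r ^ 2) ^ t) * 4 ^ t < 8 * (2 + 6 * r ^ 2) ^ t := by
  have htR : (3 : ℝ) ≤ t := by exact_mod_cast ht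
  have ht0 : (0 : ℝ) < t := by linarith
  set e : ℝ := 1 / (4 * t) with he
  have hte : (t : ℝ) * e = 1 / 4 := by rw [he]; field_simp
  have he0 : 0 < e := by rw [he]; positivity
  have he1 : e ≤ 1 / 12 := by
    rw [he]
    apply one_div_le_one_div_of_le <;> linarith
  have hre : r = (1 - e) / (1 + e) := by
    rw [hr, he]; field_simp
  have hD : (0 : ℝ) < 1 + e := by linarith
  have h1 : (1 + e) ^ 3 * (1 + r ^ 3) = 2 * (1 + 3 * e ^ 2) := by
    rw [hre]; field_simp; ring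
  have h2 : (1 + e) ^ 3 * (r + r ^ 2) = 2 * (1 - e ^ 2) := by
    rw [hre]; field_simp; ring
  have h3 : (1 + e) ^ 3 * (2 + 6 * r ^ 2) = 8 * (1 + e ^ 3) := by
    rw [hre]; field_simp; ring
  -- the core inequality
  have hu : (t : ℝ) * e ^ 2 = e / 4 := by
    have : (t : ℝ) * e ^ 2 = (t * e) * e := by ring
    rw [this, hte]; ring
  have hA : (1 + 3 * e ^ 2) ^ t ≤ 1 + 3 * (e / 4) + 9 * (e / 4) ^ 2 := by
    have hx : (1 + 3 * e ^ 2) ≤ Real.exp (3 * e ^ 2) := by
      have := Real.add_one_le_exp (3 * e ^ 2); linarith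
    have hx2 : (1 + 3 * e ^ 2) ^ t ≤ Real.exp (3 * (e / 4)) := by
      calc (1 + 3 * e ^ 2) ^ t ≤ (Real.exp (3 * e ^ 2)) ^ t :=
            pow_le_pow_left₀ (by positivity) hx t
        _ = Real.exp (3 * (e / 4)) := by
            rw [← Real.exp_nat_mul, ← hu]; ring_nf
    have h5 := Real.abs_exp_sub_one_sub_id_le (x := 3 * (e / 4))
      (by rw [abs_of_pos (by positivity)]; linarith)
    have h6 := (abs_le.1 h5).2
    nlinarith [h6, hx2]
  have hB : (1 - e ^ 2) ^ t ≤ 1 - e / 4 + (e / 4) ^ 2 := by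
    have hx : (1 - e ^ 2) ≤ Real.exp (- e ^ 2) := by
      have := Real.add_one_le_exp (- e ^ 2); linarith
    have hx2 : (1 - e ^ 2) ^ t ≤ Real.exp (-(e / 4)) := by
      calc (1 - e ^ 2) ^ t ≤ (Real.exp (- e ^ 2)) ^ t :=
            pow_le_pow_left₀ (by nlinarith) hx t
        _ = Real.exp (-(e / 4)) := by
            rw [← Real.exp_nat_mul, ← hu]; ring_nf
    have h5 := Real.abs_exp_sub_one_sub_id_le (x := -(e / 4))
      (by rw [abs_neg, abs_of_pos (by positivity)]; linarith)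
    have h6 := (abs_le.1 h5).2
    nlinarith [h6, hx2]
  have hC : 1 + e ^ 2 / 4 ≤ (1 + e ^ 3) ^ t := by
    have h7 := one_add_mul_le_pow (a := e ^ 3) (by nlinarith [pow_pos he0 3]) t
    have h8 : (t : ℝ) * e ^ 3 = e ^ 2 / 4 := by
      have : (t : ℝ) * e ^ 3 = (t * e) * e ^ 2 := by ring
      rw [this, hte]; ring
    linarith
  have hcore : 2 * (1 + 3 * e ^ 2) ^ t + 6 * (1 - e ^ 2) ^ t < 8 * (1 + e ^ 3) ^ t := by
    nlinarith [hA, hB, hC, pow_pos he0 2]
  have hDt : (0 : ℝ) < ((1 + e) ^ 3) ^ t := by positivity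
  have hL : ((1 + e) ^ 3) ^ t * ((2 * (1 + r ^ 3) ^ t + 6 * (r + r ^ 2) ^ t) * 4 ^ t)
      = 8 ^ t * (2 * (1 + 3 * e ^ 2) ^ t + 6 * (1 - e ^ 2) ^ t) := by
    calc ((1 + e) ^ 3) ^ t * ((2 * (1 + r ^ 3) ^ t + 6 * (r + r ^ 2) ^ t) * 4 ^ t)
        = (2 * ((1 + e) ^ 3 * (1 + r ^ 3)) ^ t + 6 * ((1 + e) ^ 3 * (r + r ^ 2)) ^ t) * 4 ^ t := by
          rw [mul_pow ((1 + e) ^ 3), mul_pow ((1 + e) ^ 3)]; ring
      _ = 8 ^ t * (2 * (1 + 3 * e ^ 2) ^ t + 6 * (1 - e ^ 2) ^ t) := by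
          rw [h1, h2, mul_pow, mul_pow]
          have : (8 : ℝ) ^ t = 2 ^ t * 4 ^ t := by rw [← mul_pow]; norm_num
          rw [this]; ring
  have hR : ((1 + e) ^ 3) ^ t * (8 * (2 + 6 * r ^ 2) ^ t) = 8 ^ t * (8 * (1 + e ^ 3) ^ t) := by
    calc ((1 + e) ^ 3) ^ t * (8 * (2 + 6 * r ^ 2) ^ t)
        = 8 * ((1 + e) ^ 3 * (2 + 6 * r ^ 2)) ^ t := by rw [mul_pow ((1 + e) ^ 3)]; ring
      _ = 8 ^ t * (8 * (1 + e ^ 3) ^ t) := by rw [h3, mul_pow]; ring
  have h9 : ((1 + e) ^ 3) ^ t * ((2 * (1 + r ^ 3) ^ t + 6 * (r + r ^ 2) ^ t) * 4 ^ t)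
      < ((1 + e) ^ 3) ^ t * (8 * (2 + 6 * r ^ 2) ^ t) := by
    rw [hL, hR]
    exact mul_lt_mul_of_pos_left hcore (by positivity)
  exact lt_of_mul_lt_mul_left h9 hDt.le


section Assembly

lemma not_injective_fin3 {α : Type*} (φ : Fin 3 → α) (h : ¬ Function.Injective φ) :
    φ 0 = φ 1 ∨ φ 0 = φ 2 ∨ φ 1 = φ 2 := by
  by_contra hcon
  push Not at hcon
  obtain ⟨h1, h2, h3⟩ := hcon
  apply h
  intro a b hab
  fin_cases a <;> fin_cases b
  · rfl
  · exact absurd hab h1
  · exact absurd hab h2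
  · exact absurd hab.symm h1
  · rfl
  · exact absurd hab h3
  · exact absurd hab.symm h2
  · exact absurd hab.symm h3
  · rfl


/-- First-moment bound: a random graph on `Fin n` built from the cube `{0,1}^N`. -/
lemma first_moment (n N t : ℕ) (hn : 2 ^ N ≤ n) (ht : 1 ≤ t) (r : ℝ) (hr0 : 0 ≤ r) (hr1 : r ≤ 1)
    (x₀ B : ℝ) (hB : 0 ≤ B) 
    (hx : 0 ≤ (2 + 6 * r ^ 2) ^ N - 3 * 4 ^ N - x₀)
    (hall : ∀ G : SimpleGraph (Fin n), x₀ ≤ (G.labelledCopyCount (⊤ : SimpleGraph (Fin 3)) : ℝ) →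
      B * (G.labelledCopyCount (⊤ : SimpleGraph (Fin 3)) - x₀ : ℝ) ^ t 
        ≤ (G.labelledCopyCount (completeBipartiteGraph (Fin 3) (Fin t)) : ℝ)) :
    B * ((2 + 6 * r ^ 2) ^ N - 3 * 4 ^ N - x₀) ^ t 
      ≤ (2 * (1 + r ^ 3) ^ t + 6 * (r + r ^ 2) ^ t) ^ N := by
  classical
  obtain ⟨j, hj⟩ : ∃ j : (Fin N → Bool) → Fin n, Function.Injective j := by
    have : Fintype.card (Fin N → Bool) ≤ Fintype.card (Fin n) := by simpa using hn
    obtain ⟨f⟩ := Function.Embedding.nonempty_of_card_le this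
    exact ⟨f, f.injective⟩
  have hW0 : ∀ e, 0 ≤ bitW r e := by
    intro e; unfold bitW; split_ifs <;> linarith
  have hW1 : ∀ e, bitW r e ≤ 1 := by
    intro e; unfold bitW; split_ifs <;> linarith
  set w : Sym2 (Fin n) → ℝ := transW j (cubeW (bitW r) N) with hw
  have hw0 : ∀ e, 0 ≤ w e := transW_nonneg j (cubeW_nonneg hW0 N)
  have hw1 : ∀ e, w e ≤ 1 := transW_le_one j (cubeW_le_one hW0 hW1 N)
  let GS : Finset (Sym2 (Fin n)) → SimpleGraph (Fin n) := 
    fun S => SimpleGraph.fromEdgeSet (S : Set (Sym2 (Fin n)))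
  obtain ⟨X, hX⟩ : ∃ X : Finset (Sym2 (Fin n)) → ℝ, ∀ S, 
    X S = ((GS S).labelledCopyCount (⊤ : SimpleGraph (Fin 3)) : ℝ) := ⟨_, fun S => rfl⟩
  obtain ⟨Y, hY⟩ : ∃ Y : Finset (Sym2 (Fin n)) → ℝ, ∀ S, 
    Y S = ((GS S).labelledCopyCount (completeBipartiteGraph (Fin 3) (Fin t)) : ℝ) := 
    ⟨_, fun S => rfl⟩
  obtain ⟨Z, hZ⟩ : ∃ Z : Finset (Sym2 (Fin n)) → ℝ, ∀ S, Z S = max (X S - x₀) 0 := 
    ⟨_, fun S => rfl⟩
  have hZ0 : ∀ S, 0 ≤ Z S := fun S => by rw [hZ]; exact le_max_right _ _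
  have hZX : ∀ S, X S - x₀ ≤ Z S := fun S => by rw [hZ]; exact le_max_left _ _
  have hμ0 : ∀ S, 0 ≤ wt w S := wt_nonneg hw0 hw1
  have hμ1 : ∑ S : Finset (Sym2 (Fin n)), wt w S = 1 := sum_wt w
  -- pointwise bound
  have hpt : ∀ S, B * (Z S) ^ t ≤ Y S := by
    intro S
    by_cases hS : x₀ ≤ X S
    · have : Z S = X S - x₀ := by rw [hZ]; exact max_eq_left (by linarith)
      rw [this, hX, hY]
      rw [hX] at hS
      exact hall (GS S) hS
    · have : Z S = 0 := by rw [hZ]; exact max_eq_right (by linarith)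
      rw [this, zero_pow (by omega), mul_zero, hY]
      exact Nat.cast_nonneg _
  -- expectation of Y
  have hEY : ∑ S : Finset (Sym2 (Fin n)), wt w S * Y S 
      ≤ (2 * (1 + r ^ 3) ^ t + 6 * (r + r ^ 2) ^ t) ^ N := by
    have h1 := expect_labelled (V := Fin n) (completeBipartiteGraph (Fin 3) (Fin t)) w
    have h1' : ∑ S : Finset (Sym2 (Fin n)), wt w S * Y S 
        = ∑ φ : Fin 3 ⊕ Fin t → Fin n, if Function.Injective φ then
        ∏ e ∈ (completeBipartiteGraph (Fin 3) (Fin t)).edgeFinset, w (Sym2.map φ e) else 0 := by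
      rw [← h1]
      exact Finset.sum_congr rfl fun S _ => by rw [hY]
    rw [h1']
    have h2 : ∑ φ : Fin 3 ⊕ Fin t → Fin n, (if Function.Injective φ then
        ∏ e ∈ (completeBipartiteGraph (Fin 3) (Fin t)).edgeFinset, w (Sym2.map φ e) else 0)
        ≤ ∑ φ : Fin 3 ⊕ Fin t → Fin n, 
        ∏ e ∈ (completeBipartiteGraph (Fin 3) (Fin t)).edgeFinset, w (Sym2.map φ e) := by
      refine Finset.sum_le_sum fun φ _ => ?_
      split_ifs
      · exact le_rfl
      · exact Finset.prod_nonneg fun e _ => hw0 _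
    refine h2.trans (le_of_eq ?_)
    rw [hw, sum_trans hj, hom_pow, bip_sum]
    intro u
    rcases u with u | u
    · exact ⟨Sum.inr ⟨0, ht⟩, by simp⟩
    · exact ⟨Sum.inl 0, by simp⟩
  -- expectation of X
  have hEX : (2 + 6 * r ^ 2) ^ N - 3 * 4 ^ N ≤ ∑ S : Finset (Sym2 (Fin n)), wt w S * X S := by
    have h1 := expect_labelled (V := Fin n) (⊤ : SimpleGraph (Fin 3)) w
    have h1' : ∑ S : Finset (Sym2 (Fin n)), wt w S * X S
        = ∑ φ : Fin 3 → Fin n, if Function.Injective φ then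
        ∏ e ∈ (⊤ : SimpleGraph (Fin 3)).edgeFinset, w (Sym2.map φ e) else 0 := by
      rw [← h1]
      exact Finset.sum_congr rfl fun S _ => by rw [hX]
    rw [h1']
    let F : (Fin 3 → Fin n) → ℝ := fun φ =>
      ∏ e ∈ (⊤ : SimpleGraph (Fin 3)).edgeFinset, w (Sym2.map φ e)
    have hF0 : ∀ φ, 0 ≤ F φ := fun φ => Finset.prod_nonneg fun e _ => hw0 _
    have hF1 : ∀ φ, F φ ≤ 1 := fun φ => Finset.prod_le_one (fun e _ => hw0 _) fun e _ => hw1 _
    have hFsum : ∑ φ, F φ = (2 + 6 * r ^ 2) ^ N := by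
      change ∑ φ : Fin 3 → Fin n, ∏ e ∈ (⊤ : SimpleGraph (Fin 3)).edgeFinset, w (Sym2.map φ e) = _
      rw [hw, sum_trans hj, hom_pow, tri_sum]
      intro u
      exact ⟨u + 1, by fin_cases u <;> simp⟩
    -- terms outside the range of `j` vanish
    have hrange : ∀ φ : Fin 3 → Fin n, (∃ u, φ u ∉ Set.range j) → F φ = 0 := by
      intro φ ⟨u, hu⟩
      refine Finset.prod_eq_zero (i := s(u, u + 1)) (by fin_cases u <;> simp) ?_
      rw [hw]
      exact transW_zero j _ _ (φ u) (by simp) hu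
    have hsplit : ∀ φ, F φ ≤ (if Function.Injective φ then F φ else 0)
        + (if (φ 0 = φ 1 ∧ ∀ u, φ u ∈ Set.range j) then 1 else 0)
        + (if (φ 0 = φ 2 ∧ ∀ u, φ u ∈ Set.range j) then 1 else 0)
        + (if (φ 1 = φ 2 ∧ ∀ u, φ u ∈ Set.range j) then 1 else 0) := by
      intro φ
      have n1 : (0 : ℝ) ≤ (if (φ 0 = φ 1 ∧ ∀ u, φ u ∈ Set.range j) then 1 else 0) := by
        split_ifs <;> norm_num
      have n2 : (0 : ℝ) ≤ (if (φ 0 = φ 2 ∧ ∀ u, φ u ∈ Set.range j) then 1 else 0) := by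
        split_ifs <;> norm_num
      have n3 : (0 : ℝ) ≤ (if (φ 1 = φ 2 ∧ ∀ u, φ u ∈ Set.range j) then 1 else 0) := by
        split_ifs <;> norm_num
      by_cases hr : ∀ u, φ u ∈ Set.range j
      · by_cases hinj : Function.Injective φ
        · rw [if_pos hinj]; linarith
        · rw [if_neg hinj]
          have := not_injective_fin3 φ hinj
          rcases this with h | h | h
          · rw [if_pos ⟨h, hr⟩] at n1 ⊢
            linarith [hF1 φ]
          · rw [if_pos (c := (φ 0 = φ 2 ∧ ∀ u, φ u ∈ Set.range j)) ⟨h, hr⟩]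
            linarith [hF1 φ]
          · rw [if_pos (c := (φ 1 = φ 2 ∧ ∀ u, φ u ∈ Set.range j)) ⟨h, hr⟩]
            linarith [hF1 φ]
      · push Not at hr
        have h0 := hrange φ hr
        rw [h0]
        have : (0 : ℝ) ≤ (if Function.Injective φ then 0 else 0) := by simp
        linarith
    have hcount : ∀ a b : Fin 3, a ≠ b → 
        ∑ φ : Fin 3 → Fin n, (if (φ a = φ b ∧ ∀ u, φ u ∈ Set.range j) then (1 : ℝ) else 0) 
          ≤ 4 ^ N := by
      intro a b hab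
      rw [← Finset.sum_filter, Finset.sum_const, nsmul_eq_mul, mul_one]
      have h4 : #{φ : Fin 3 → Fin n | φ a = φ b ∧ ∀ u, φ u ∈ Set.range j} ≤ 4 ^ N := by
        have hle : #{φ : Fin 3 → Fin n | φ a = φ b ∧ ∀ u, φ u ∈ Set.range j}
            ≤ #((Finset.univ : Finset ((Fin N → Bool) × (Fin N → Bool))).image
              (fun p => fun u : Fin 3 => if u = a ∨ u = b then j p.1 else j p.2)) := by
          refine Finset.card_le_card ?_
          intro φ hφ
          obtain ⟨h5, h6⟩ := (Finset.mem_filter.1 hφ).2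
          choose ψ hψ using h6
          -- the third index
          obtain ⟨c, hc⟩ : ∃ c : Fin 3, ∀ u, u = a ∨ u = b ∨ u = c := by
            fin_cases a <;> fin_cases b <;> simp at hab <;> decide
          refine Finset.mem_image.2 ⟨(ψ a, ψ c), Finset.mem_univ _, ?_⟩
          funext u
          by_cases hu : u = a ∨ u = b
          · simp only [hu, if_true]
            rcases hu with rfl | rfl
            · exact hψ _
            · rw [hψ, h5]
          · simp only [hu, if_false]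
            have : u = c := by
              rcases hc u with h | h | h
              · exact absurd (Or.inl h) hu
              · exact absurd (Or.inr h) hu
              · exact h
            rw [this, hψ]
        refine hle.trans (Finset.card_image_le.trans (le_of_eq ?_))
        simp [Finset.card_univ, Fintype.card_prod]
        rw [← mul_pow]
        norm_num
      exact_mod_cast h4
    have hsum := Finset.sum_le_sum (s := Finset.univ) fun φ _ => hsplit φ
    rw [hFsum, Finset.sum_add_distrib, Finset.sum_add_distrib, Finset.sum_add_distrib] at hsum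
    have c1 := hcount 0 1 (by decide)
    have c2 := hcount 0 2 (by decide)
    have c3 := hcount 1 2 (by decide)
    change _ ≤ ∑ φ : Fin 3 → Fin n, (if Function.Injective φ then F φ else 0)
    linarith
  -- Jensen
  have hJ : (∑ S : Finset (Sym2 (Fin n)), wt w S * Z S) ^ t 
      ≤ ∑ S : Finset (Sym2 (Fin n)), wt w S * (Z S) ^ t :=
    Real.pow_arith_mean_le_arith_mean_pow Finset.univ (wt w) Z (fun S _ => hμ0 S) hμ1
      (fun S _ => hZ0 S) t
  have hEZ : (2 + 6 * r ^ 2) ^ N - 3 * 4 ^ N - x₀ ≤ ∑ S : Finset (Sym2 (Fin n)), wt w S * Z S := by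
    calc (2 + 6 * r ^ 2) ^ N - 3 * 4 ^ N - x₀ 
        ≤ ∑ S : Finset (Sym2 (Fin n)), wt w S * X S - x₀ := by linarith
      _ = ∑ S : Finset (Sym2 (Fin n)), wt w S * (X S - x₀) := by
          simp_rw [mul_sub]
          rw [Finset.sum_sub_distrib, ← Finset.sum_mul, hμ1, one_mul]
      _ ≤ ∑ S : Finset (Sym2 (Fin n)), wt w S * Z S := 
          Finset.sum_le_sum fun S _ => mul_le_mul_of_nonneg_left (hZX S) (hμ0 S)
  calc B * ((2 + 6 * r ^ 2) ^ N - 3 * 4 ^ N - x₀) ^ t 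
      ≤ B * (∑ S : Finset (Sym2 (Fin n)), wt w S * Z S) ^ t :=
        mul_le_mul_of_nonneg_left (pow_le_pow_left₀ hx hEZ t) hB
    _ ≤ B * ∑ S : Finset (Sym2 (Fin n)), wt w S * (Z S) ^ t := mul_le_mul_of_nonneg_left hJ hB
    _ = ∑ S : Finset (Sym2 (Fin n)), wt w S * (B * (Z S) ^ t) := by
        rw [Finset.mul_sum]
        exact Finset.sum_congr rfl fun S _ => by ring
    _ ≤ ∑ S : Finset (Sym2 (Fin n)), wt w S * Y S :=
        Finset.sum_le_sum fun S _ => mul_le_mul_of_nonneg_left (hpt S) (hμ0 S)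
    _ ≤ _ := hEY

/-- For every `t ≥ 3` there is `c > 0` such that for every `k₀` and all large `n` some `n`-vertex
graph has `k n²` triangles with `k ≥ k₀` but fewer than `k^t n^(3-c)` copies of `K_{3,t}`. -/
theorem main : ∀ t : ℕ, 3 ≤ t → ∃ c : ℝ, 0 < c ∧ ∀ k₀ : ℝ, ∃ n₀ : ℕ, ∀ n : ℕ, n₀ ≤ n →
    ∃ (G : SimpleGraph (Fin n)) (k : ℝ), k₀ ≤ k ∧
      (G.copyCount (⊤ : SimpleGraph (Fin 3)) : ℝ) = k * (n : ℝ) ^ 2 ∧
      (G.copyCount (completeBipartiteGraph (Fin 3) (Fin t)) : ℝ) < k ^ t * (n : ℝ) ^ (3 - c) := by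
  intro t ht
  have htR : (3 : ℝ) ≤ t := by exact_mod_cast ht
  set r : ℝ := (4 * t - 1) / (4 * t + 1) with hr
  have hr0 : 0 ≤ r := div_nonneg (by linarith) (by linarith)
  have hr1 : r ≤ 1 := by rw [hr, div_le_one (by linarith)]; linarith
  set a : ℝ := 2 + 6 * r ^ 2 with ha
  set H : ℝ := 2 * (1 + r ^ 3) ^ t + 6 * (r + r ^ 2) ^ t with hH
  have hH0 : 0 < H := by positivity
  have ha4 : 4 < a := by
    have h1 : 11 / 13 ≤ r := by
      rw [hr, div_le_div_iff₀ (by norm_num) (by linarith)]; linarith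
    rw [ha]; nlinarith
  have hkey : H * 4 ^ t < 8 * a ^ t := key_ineq t ht r hr
  set ρ : ℝ := 8 * a ^ t / (H * 4 ^ t) with hρ
  have hρ1 : 1 < ρ := by rw [hρ, one_lt_div (by positivity)]; exact hkey
  set s : ℝ := Real.sqrt ρ with hs
  have hs1 : 1 < s := by rw [hs]; exact Real.lt_sqrt_of_sq_lt (by simpa using hρ1)
  have hss : s * s = ρ := Real.mul_self_sqrt (by linarith)
  have hs0 : 0 < s := by linarith
  set c : ℝ := Real.logb 2 s with hc
  have hc0 : 0 < c := Real.logb_pos (by norm_num) hs1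
  have h2c : (2 : ℝ) ^ c = s := Real.rpow_logb (by norm_num) (by norm_num) hs0
  refine ⟨c, hc0, fun k₀ => ?_⟩
  -- constants
  obtain ⟨N₁, hN₁⟩ : ∃ N₁ : ℕ, ∀ N, N₁ ≤ N → 2 * (3 + 108 * |k₀|) ≤ (a / 4) ^ N := by
    have := tendsto_pow_atTop_atTop_of_one_lt (r := a / 4) (by linarith)
    obtain ⟨N₁, h⟩ := Filter.eventually_atTop.1 (this.eventually_ge_atTop (2 * (3 + 108 * |k₀|)))
    exact ⟨N₁, h⟩
  obtain ⟨N₂, hN₂⟩ : ∃ N₂ : ℕ, ∀ N, N₂ ≤ N → 54 ^ t * (4 ^ t * s / 8) < s ^ N := by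
    have := tendsto_pow_atTop_atTop_of_one_lt hs1
    obtain ⟨N₂, h⟩ := Filter.eventually_atTop.1 (this.eventually_gt_atTop (54 ^ t * (4 ^ t * s / 8)))
    exact ⟨N₂, h⟩
  refine ⟨2 ^ (max N₁ N₂), fun n hn => ?_⟩
  by_contra hcon
  push Not at hcon
  -- the scale
  have hn0 : n ≠ 0 := by
    have : 0 < 2 ^ (max N₁ N₂) := by positivity
    omega
  set N : ℕ := Nat.log 2 n with hN
  have hNle : 2 ^ N ≤ n := Nat.pow_log_le_self 2 hn0
  have hNlt : n < 2 ^ (N + 1) := Nat.lt_pow_succ_log_self (by norm_num) n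
  have hNmax : max N₁ N₂ ≤ N := Nat.le_log_of_pow_le (by norm_num) hn
  have hnR0 : (0 : ℝ) < n := by exact_mod_cast Nat.pos_of_ne_zero hn0
  have hnR : (n : ℝ) ≤ 2 ^ (N + 1) := by exact_mod_cast hNlt.le
  set x₀ : ℝ := 27 * |k₀| * (n : ℝ) ^ 2 with hx₀
  set B : ℝ := (1 / (27 * (n : ℝ) ^ 2)) ^ t * (n : ℝ) ^ (3 - c) with hB
  have hB0 : 0 < B := by positivity
  have h4N : ((2 : ℝ) ^ (N + 1)) ^ 2 = 4 * 4 ^ N := by
    have h4 : (4 : ℝ) ^ N = (2 ^ N) ^ 2 := by rw [← pow_mul, mul_comm, pow_mul]; norm_num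
    rw [h4, pow_succ]; ring
  have hx₀le : x₀ ≤ 108 * |k₀| * 4 ^ N := by
    have : (n : ℝ) ^ 2 ≤ 4 * 4 ^ N := by
      rw [← h4N]; exact pow_le_pow_left₀ hnR0.le hnR 2
    calc x₀ = 27 * |k₀| * (n : ℝ) ^ 2 := rfl
      _ ≤ 27 * |k₀| * (4 * 4 ^ N) := by gcongr
      _ = 108 * |k₀| * 4 ^ N := by ring
  have hEx : a ^ N / 2 ≤ a ^ N - 3 * 4 ^ N - x₀ := by
    have h1 := hN₁ N (le_trans (le_max_left _ _) hNmax)
    rw [div_pow, le_div_iff₀ (by positivity)] at h1
    linarith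
  have haN : (0 : ℝ) < a ^ N := by positivity
  have hall : ∀ G : SimpleGraph (Fin n), x₀ ≤ (G.labelledCopyCount (⊤ : SimpleGraph (Fin 3)) : ℝ) →
      B * (G.labelledCopyCount (⊤ : SimpleGraph (Fin 3)) - x₀ : ℝ) ^ t 
        ≤ (G.labelledCopyCount (completeBipartiteGraph (Fin 3) (Fin t)) : ℝ) := by
    intro G hG
    have hX := labelled_triangle_le G
    have hX' : (G.labelledCopyCount (⊤ : SimpleGraph (Fin 3)) : ℝ) 
        ≤ 27 * (G.copyCount (⊤ : SimpleGraph (Fin 3)) : ℝ) := by exact_mod_cast hX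
    set T : ℝ := (G.copyCount (⊤ : SimpleGraph (Fin 3)) : ℝ) with hT
    set k : ℝ := T / (n : ℝ) ^ 2 with hk
    have hkT : T = k * (n : ℝ) ^ 2 := by rw [hk]; field_simp
    have hk0 : k₀ ≤ k := by
      have h1 : |k₀| * (n : ℝ) ^ 2 ≤ T := by
        have : 27 * (|k₀| * (n : ℝ) ^ 2) ≤ 27 * T := by
          calc 27 * (|k₀| * (n : ℝ) ^ 2) = x₀ := by rw [hx₀]; ring
            _ ≤ _ := hG.trans hX'
        linarith
      rw [hk, le_div_iff₀ (by positivity)]
      exact (mul_le_mul_of_nonneg_right (le_abs_self k₀) (by positivity)).trans h1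
    have h2 := hcon G k hk0 hkT
    have h3 : (G.copyCount (completeBipartiteGraph (Fin 3) (Fin t)) : ℝ)
        ≤ (G.labelledCopyCount (completeBipartiteGraph (Fin 3) (Fin t)) : ℝ) := by
      exact_mod_cast SimpleGraph.copyCount_le_labelledCopyCount (G := G)
        (H := completeBipartiteGraph (Fin 3) (Fin t))
    refine le_trans ?_ (h2.trans h3)
    have hx₀0 : 0 ≤ x₀ := by rw [hx₀]; positivity
    calc B * ((G.labelledCopyCount (⊤ : SimpleGraph (Fin 3)) : ℝ) - x₀) ^ t 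
        ≤ B * (27 * T) ^ t := by
          refine mul_le_mul_of_nonneg_left ?_ hB0.le
          exact pow_le_pow_left₀ (by linarith) (by linarith) t
      _ = (1 / (27 * (n : ℝ) ^ 2) * (27 * T)) ^ t * (n : ℝ) ^ (3 - c) := by
          rw [hB, mul_pow (1 / (27 * (n : ℝ) ^ 2)) (27 * T) t]; ring
      _ = k ^ t * (n : ℝ) ^ (3 - c) := by
          congr 2
          rw [hk]; field_simp
  have hfm := first_moment n N t hNle (by omega) r hr0 hr1 x₀ B hB0.le
    (by rw [← ha]; linarith) hall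
  rw [← ha, ← hH] at hfm
  -- contradiction
  have hBlow : 1 / 27 ^ t * ((2 : ℝ) ^ (N + 1)) ^ (3 - c - 2 * t) ≤ B := by
    have h1 : B = 1 / 27 ^ t * (n : ℝ) ^ (3 - c - 2 * t) := by
      have h2 : (n : ℝ) ^ (3 - c - 2 * t) = (n : ℝ) ^ (3 - c) / ((n : ℝ) ^ 2) ^ t := by
        rw [Real.rpow_sub hnR0 (3 - c)]
        congr 1
        rw [← pow_mul, ← Real.rpow_natCast]
        push_cast
        rfl
      rw [h2, hB, one_div, one_div, mul_inv, mul_pow, inv_pow, inv_pow]
      ring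
    rw [h1]
    refine mul_le_mul_of_nonneg_left ?_ (by positivity)
    exact Real.rpow_le_rpow_of_nonpos hnR0 hnR (by linarith)
  have h2pow : ((2 : ℝ) ^ (N + 1)) ^ (3 - c - 2 * t) = (8 / (s * 4 ^ t)) ^ (N + 1) := by
    have h1 : (2 : ℝ) ^ (3 - c - 2 * t) = 8 / (s * 4 ^ t) := by
      rw [Real.rpow_sub (by norm_num), Real.rpow_sub (by norm_num), h2c]
      have h3 : (2 : ℝ) ^ (2 * (t : ℝ)) = 4 ^ t := by
        rw [Real.rpow_mul (by norm_num), Real.rpow_natCast]
        norm_num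
      have h4 : (2 : ℝ) ^ (3 : ℝ) = 8 := by
        have : (3 : ℝ) = ((3 : ℕ) : ℝ) := by norm_num
        rw [this, Real.rpow_natCast]; norm_num
      rw [h3, h4, div_div]
    rw [← h1, ← Real.rpow_natCast, ← Real.rpow_natCast, ← Real.rpow_mul (by norm_num),
      ← Real.rpow_mul (by norm_num), mul_comm]
  have hfinal : H ^ N < B * (a ^ N / 2) ^ t := by
    have h1 := hN₂ N (le_trans (le_max_right _ _) hNmax)
    have h5 : 8 / (s * 4 ^ t) * a ^ t = s * H := by
      have : 8 * a ^ t = s * s * (H * 4 ^ t) := by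
        rw [hss, hρ]; field_simp
      rw [div_mul_eq_mul_div, this]; field_simp
    have h6 : (8 / (s * 4 ^ t)) ^ (N + 1) * (a ^ N) ^ t = 8 / (s * 4 ^ t) * (s ^ N * H ^ N) := by
      calc (8 / (s * 4 ^ t)) ^ (N + 1) * (a ^ N) ^ t 
          = 8 / (s * 4 ^ t) * (8 / (s * 4 ^ t) * a ^ t) ^ N := by
            rw [← pow_mul, mul_comm N t, pow_mul, pow_succ, mul_pow]; ring
        _ = _ := by rw [h5, mul_pow]
    calc H ^ N = (1 / 54 ^ t * (8 / (s * 4 ^ t))) * (54 ^ t * (4 ^ t * s / 8)) * H ^ N := by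
          field_simp
      _ < (1 / 54 ^ t * (8 / (s * 4 ^ t))) * s ^ N * H ^ N := by
          have : 0 < H ^ N := by positivity
          gcongr
      _ = 1 / 27 ^ t * ((2 : ℝ) ^ (N + 1)) ^ (3 - c - 2 * t) * (a ^ N / 2) ^ t := by
          rw [h2pow, div_pow (a ^ N) 2 t]
          have h7 : (54 : ℝ) ^ t = 27 ^ t * 2 ^ t := by rw [← mul_pow]; norm_num
          calc (1 / 54 ^ t * (8 / (s * 4 ^ t))) * s ^ N * H ^ N 
              = 1 / 54 ^ t * (8 / (s * 4 ^ t) * (s ^ N * H ^ N)) := by ring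
            _ = 1 / 54 ^ t * ((8 / (s * 4 ^ t)) ^ (N + 1) * (a ^ N) ^ t) := by rw [h6]
            _ = _ := by rw [h7]; ring
      _ ≤ B * (a ^ N / 2) ^ t := mul_le_mul_of_nonneg_right hBlow (by positivity)
  have hge : B * (a ^ N / 2) ^ t ≤ B * (a ^ N - 3 * 4 ^ N - x₀) ^ t :=
    mul_le_mul_of_nonneg_left (pow_le_pow_left₀ (by positivity) hEx t) hB0.le
  linarith

end Assembly

end Pool.Agent.H33.TriSuper
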